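import Pool.Agent.Q91.TE.Face

set_option autoImplicit false
set_option linter.unusedSectionVars false

/-! Twisting matrices over group algebras by characters. -/

namespace Pool.Agent.Q91.TE

open MvPolynomial Pool.Agent.W649.ZL

universe u v w z

section
variable {G : Type u} [Group G] {I : Type v} {J : Type w} {ι : Type z} [Fintype ι] [Fintype I]
  [Fintype J] [DecidableEq I] [DecidableEq J]

/-- like `spec`, for arbitrary values of the variable -/
theorem specAt (A : ι → EE G J →L[ℂ] EE G I) (hA : ∀ i, Eqv (A i)) (a : ι → ℂ) (e : ι → ℕ) (d : ℝ)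
    (h : ∀ c : ℂ, ‖c‖ = 1 → d ≤ kd A (fun i => a i * c ^ e i)) (y : ℂ) :
    d ≤ kd A (fun i => a i * y ^ e i) := by
  have hzero : (fun i => a i * y ^ e i) ∈ locus A d := by
    rw [← locus_closed A hA d]
    intro f hf
    rw [aeval_ev]
    let p : Polynomial ℂ := aeval (fun t : ι => Polynomial.C (a t) * Polynomial.X ^ e t) f
    have hp : ∀ c : ℂ, p.eval c = eval (fun i => a i * c ^ e i) f := by
      intro c
      simp only [p]
      rw [← Polynomial.coe_aeval_eq_eval, aeval_def, ← aeval_ev, aeval_def]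
      have := MvPolynomial.hom_eval₂ f (algebraMap ℂ (Polynomial ℂ))
        ((Polynomial.aeval c).toRingHom)
        (fun t : ι => Polynomial.C (a t) * Polynomial.X ^ e t)
      refine Eq.trans this ?_
      congr 1
      · ext z; simp
      · funext t
        simp
    have hp0 : p = 0 := by
      apply Polynomial.eq_zero_of_infinite_isRoot
      refine circle_infinite.mono ?_
      intro c hc
      change p.eval c = 0
      rw [hp, ← aeval_ev]
      exact hf _ (h c hc)
    rw [← hp, hp0, Polynomial.eval_zero]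
  exact hzero

end

section
variable {G : Type u} [Group G] {m l : ℕ} {ι : Type z} [Fintype ι]

/-- equivariant extensions of characters -/
theorem exists_right_char (K : Subgroup G) (χ : K →* ℂ) :
    ∃ ε : G → ℂ, (∀ (κ : K) (x : G), ε (x * κ) = ε x * χ κ) ∧ ∀ x, ∃ κ : K, ε x = (χ κ)⁻¹ := by
  let s := QuotientGroup.rightRel K
  let rep : G → G := fun x => (Quotient.mk s x).out
  have hrep : ∀ x, x * (rep x)⁻¹ ∈ K := by
    intro x
    have h1 : (Quotient.mk s (rep x)) = Quotient.mk s x := Quotient.out_eq _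
    have h2 := Quotient.exact h1
    exact (QuotientGroup.rightRel_apply.1 h2)
  refine ⟨fun x => (χ ⟨x⁻¹ * (rep x⁻¹)⁻¹, hrep x⁻¹⟩)⁻¹, ?_, fun x => ⟨_, rfl⟩⟩
  intro κ x
  have h1 : rep (x * κ)⁻¹ = rep x⁻¹ := by
    have : (Quotient.mk s (x * κ)⁻¹) = Quotient.mk s x⁻¹ := by
      apply Quotient.sound
      refine QuotientGroup.rightRel_apply.2 ?_
      rw [mul_inv_rev, mul_inv_rev, inv_inv, inv_inv, inv_mul_cancel_left]
      exact κ.2
    simp only [rep, this]
  have h2 : (⟨(x * κ)⁻¹ * (rep (x * κ)⁻¹)⁻¹, hrep (x * κ)⁻¹⟩ : K)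
      = κ⁻¹ * ⟨x⁻¹ * (rep x⁻¹)⁻¹, hrep x⁻¹⟩ := by
    apply Subtype.ext
    change (x * κ)⁻¹ * (rep (x * κ)⁻¹)⁻¹ = (κ : G)⁻¹ * (x⁻¹ * (rep x⁻¹)⁻¹)
    rw [h1, mul_inv_rev, mul_assoc]
  have h3 : χ κ⁻¹ * χ κ = 1 := by rw [← map_mul, inv_mul_cancel, map_one]
  have h4 : (χ κ⁻¹)⁻¹ = χ κ := inv_eq_of_mul_eq_one_right h3
  simp only [h2, map_mul, mul_inv, h4]
  ring

variable (h : ι → G) (k : ι → Fin m) (j : ι → Fin l) (K : Subgroup G) (x : Fin m → G)
  (y : Fin l → G) (κ : ι → K) (hκ : ∀ i, (κ i : G) = x (k i) * h i * (y (j i))⁻¹)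

include hκ in
theorem unitary (χ : K →* ℂ) (hχ : ∀ t, ‖χ t‖ = 1) (a : ι → ℂ) :
    kerDimM (matM h k j fun i => a i * χ (κ i)) = kerDimM (matM h k j a) := by
  obtain ⟨ε, h1, h2⟩ := exists_right_char K χ
  have hε : ∀ x, ‖ε x‖ = 1 := by
    intro x
    obtain ⟨t, ht⟩ := h2 x
    rw [ht, norm_inv, hχ, inv_one]
  have hε0 : ∀ x, ε x ≠ 0 := by
    intro x h0
    have := hε x
    rw [h0, norm_zero] at this
    exact zero_ne_one this
  have hχ0 : ∀ t, χ t ≠ 0 := by
    intro x h0
    have := hχ x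
    rw [h0, norm_zero] at this
    exact zero_ne_one this
  refine twistM h k j a _ (fun p => ε (p.2 * (x p.1)⁻¹)) (fun p => hε _)
    (fun p => ε (p.2 * (y p.1)⁻¹)) (fun p => hε0 _) fun i g => ?_
  have h3 : g * (y (j i))⁻¹ = g * (h i)⁻¹ * (x (k i))⁻¹ * κ i := by
    rw [hκ]; group
  change a i * χ (κ i) * ε (g * (h i)⁻¹ * (x (k i))⁻¹) = ε (g * (y (j i))⁻¹) * a i
  rw [h3, h1]
  ring

/-- scalars do not change the kernel -/
theorem scal (c : ℂ) (hc : c ≠ 0) (a : ι → ℂ) :
    kerDimM (matM h k j fun i => c * a i) = kerDimM (matM h k j a) :=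
  twistM h k j a _ (fun _ => 1) (fun _ => norm_one) (fun _ => c) (fun _ => hc)
    fun i g => by rw [mul_one]

include hκ in
theorem zle (φ : K →* Multiplicative ℤ) (c : ℂ) (hc : c ≠ 0) (a : ι → ℂ) :
    kerDimM (matM h k j a)
      ≤ kerDimM (matM h k j fun i => a i * c ^ (Multiplicative.toAdd (φ (κ i)))) := by
  obtain ⟨ε, hε⟩ := exists_right K φ
  obtain ⟨N, hN⟩ : ∃ N : ℕ, ∀ i, 0 ≤ Multiplicative.toAdd (φ (κ i)) + N := by
    refine ⟨∑ i, (Multiplicative.toAdd (φ (κ i))).natAbs, fun i => ?_⟩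
    have := Finset.single_le_sum (f := fun i => (Multiplicative.toAdd (φ (κ i))).natAbs)
      (fun _ _ => Nat.zero_le _) (Finset.mem_univ i)
    omega
  have key : ∀ w : ℂ, ‖w‖ = 1 →
      kerDimM (matM h k j fun i => a i * w ^ (Multiplicative.toAdd (φ (κ i)) + N).toNat)
        = kerDimM (matM h k j a) := by
    intro w hw
    have hw0 : w ≠ 0 := by
      intro h0; rw [h0, norm_zero] at hw; exact zero_ne_one hw
    refine twistM h k j a _ (fun p => w ^ ε (p.2 * (x p.1)⁻¹))
      (fun p => by rw [norm_zpow, hw, one_zpow]) (fun p => w ^ (ε (p.2 * (y p.1)⁻¹) + N))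
      (fun p => zpow_ne_zero _ hw0) fun i g => ?_
    have h3 : g * (y (j i))⁻¹ = g * (h i)⁻¹ * (x (k i))⁻¹ * κ i := by
      rw [hκ]; group
    change a i * w ^ (Multiplicative.toAdd (φ (κ i)) + N).toNat
      * w ^ ε (g * (h i)⁻¹ * (x (k i))⁻¹) = w ^ (ε (g * (y (j i))⁻¹) + N) * a i
    rw [h3, hε, mul_assoc, ← zpow_natCast w (Int.toNat _), Int.toNat_of_nonneg (hN i),
      ← zpow_add₀ hw0, mul_comm]
    congr 2
    ring
  have h1 := specAt (famR h k j) (famR_eqv h k j) a
    (fun i => (Multiplicative.toAdd (φ (κ i)) + N).toNat) (kerDimM (matM h k j a)) (by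
      intro w hw
      rw [← kerDimM_eq, key w hw]) c
  rw [← kerDimM_eq] at h1
  refine h1.trans (le_of_eq ?_)
  rw [← scal h k j (c ^ (-(N : ℤ))) (zpow_ne_zero _ hc)]
  congr 2
  funext i
  rw [mul_left_comm, ← zpow_natCast c (Int.toNat _), Int.toNat_of_nonneg (hN i), ← zpow_add₀ hc]
  congr 2
  ring

include hκ in
theorem zeq (φ : K →* Multiplicative ℤ) (c : ℂ) (hc : c ≠ 0) (a : ι → ℂ) :
    kerDimM (matM h k j fun i => a i * c ^ (Multiplicative.toAdd (φ (κ i))))
      = kerDimM (matM h k j a) := by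
  apply le_antisymm _ (zle h k j K x y κ hκ φ c hc a)
  have h1 := zle h k j K x y κ hκ φ c⁻¹ (inv_ne_zero hc)
    (fun i => a i * c ^ (Multiplicative.toAdd (φ (κ i))))
  refine h1.trans (le_of_eq ?_)
  congr 2
  funext i
  rw [mul_assoc, inv_zpow, mul_inv_cancel₀ (zpow_ne_zero _ hc), mul_one]

include hκ in
/-- **Invariance under twisting.** -/
theorem twist_char (χ : K →* ℂ) (a : ι → ℂ) :
    kerDimM (matM h k j fun i => a i * χ (κ i)) = kerDimM (matM h k j a) := by
  classical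
  have hχ0 : ∀ t, χ t ≠ 0 := by
    intro t h0
    have : χ t * χ t⁻¹ = 1 := by rw [← map_mul, mul_inv_cancel, map_one]
    rw [h0, zero_mul] at this
    exact zero_ne_one this
  have hn0 : ∀ t, 0 < ‖χ t‖ := fun t => norm_pos_iff.2 (hχ0 t)
  -- logarithms
  let lg : K → ℝ := fun t => Real.log ‖χ t‖
  have hlg : ∀ s t, lg (s * t) = lg s + lg t := by
    intro s t
    simp only [lg]
    rw [map_mul, norm_mul, Real.log_mul (hn0 s).ne' (hn0 t).ne']
  have hlg1 : lg 1 = 0 := by
    simp only [lg]; rw [map_one, norm_one, Real.log_one]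
  have hlginv : ∀ s, lg s⁻¹ = - lg s := by
    intro s
    have := hlg s s⁻¹
    rw [mul_inv_cancel, hlg1] at this
    linarith
  let V : Submodule ℤ ℝ := Submodule.span ℤ (Set.range fun i => lg (κ i))
  have hVfg : Module.Finite ℤ V := by
    apply Module.Finite.span_of_finite
    exact Set.finite_range _
  have hfree : Module.Free ℤ V := inferInstance
  let b := Module.Free.chooseBasis ℤ V
  have : Fintype (Module.Free.ChooseBasisIndex ℤ V) := inferInstance
  -- the subgroup where the logarithms are in `V`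
  let K1 : Subgroup K :=
    { carrier := {t | lg t ∈ V}
      one_mem' := by
        change lg 1 ∈ V
        rw [hlg1]; exact V.zero_mem
      mul_mem' := by
        intro s t hs ht
        change lg (s * t) ∈ V
        rw [hlg]; exact V.add_mem hs ht
      inv_mem' := by
        intro s hs
        change lg s⁻¹ ∈ V
        rw [hlginv]; exact V.neg_mem hs }
  let K2 : Subgroup G := K1.map K.subtype
  let e : K1 ≃* K2 := Subgroup.equivMapOfInjective K1 K.subtype K.subtype_injective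
  have hmem : ∀ i, κ i ∈ K1 := fun i => Submodule.subset_span ⟨i, rfl⟩
  let κ2 : ι → K2 := fun i => e ⟨κ i, hmem i⟩
  have hκ2 : ∀ i, (κ2 i : G) = x (k i) * h i * (y (j i))⁻¹ := fun i => hκ i
  let φ : Module.Free.ChooseBasisIndex ℤ V → (K2 →* Multiplicative ℤ) := fun s =>
    { toFun := fun t => Multiplicative.ofAdd (b.repr ⟨lg (e.symm t), (e.symm t).2⟩ s)
      map_one' := by
        have : (⟨lg ((e.symm 1 : K1) : K), (e.symm 1).2⟩ : V) = 0 := by
          apply Subtype.ext
          change lg ((e.symm 1 : K1) : K) = 0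
          rw [map_one]
          exact hlg1
        rw [this, map_zero]
        rfl
      map_mul' := by
        intro s' t'
        have : (⟨lg ((e.symm (s' * t') : K1) : K), (e.symm (s' * t')).2⟩ : V)
            = ⟨lg (e.symm s'), (e.symm s').2⟩ + ⟨lg (e.symm t'), (e.symm t').2⟩ := by
          apply Subtype.ext
          change lg ((e.symm (s' * t') : K1) : K) = lg (e.symm s') + lg (e.symm t')
          rw [map_mul, Subgroup.coe_mul, hlg]
        rw [this, map_add]
        rfl }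
  have hφ : ∀ s i, Multiplicative.toAdd (φ s (κ2 i)) = b.repr ⟨lg (κ i), hmem i⟩ s := by
    intro s i
    have h1 : e.symm (κ2 i) = ⟨κ i, hmem i⟩ := e.symm_apply_apply _
    change b.repr ⟨lg (e.symm (κ2 i)), (e.symm (κ2 i)).2⟩ s = _
    congr 2
    apply Subtype.ext
    change lg (e.symm (κ2 i)) = lg (κ i)
    rw [h1]
  -- the unitary part
  let χ0 : K →* ℂ :=
    { toFun := fun t => χ t / (‖χ t‖ : ℂ)
      map_one' := by rw [map_one, norm_one]; norm_num
      map_mul' := by
        intro s t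
        rw [map_mul, norm_mul]
        push_cast
        rw [mul_div_mul_comm] }
  have hχ0n : ∀ t, ‖χ0 t‖ = 1 := by
    intro t
    change ‖χ t / (‖χ t‖ : ℂ)‖ = 1
    rw [norm_div, Complex.norm_real, norm_norm, div_self (hn0 t).ne']
  have hbase := unitary h k j K x y κ hκ χ0 hχ0n a
  have hstep : ∀ S : Finset (Module.Free.ChooseBasisIndex ℤ V),
      kerDimM (matM h k j fun i => (a i * χ0 (κ i)) *
        ∏ s ∈ S, (Real.exp (b s : ℝ) : ℂ) ^ (b.repr ⟨lg (κ i), hmem i⟩ s))
        = kerDimM (matM h k j a) := by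
    intro S
    induction S using Finset.induction_on with
    | empty =>
      rw [← hbase]
      congr 2
      funext i
      rw [Finset.prod_empty, mul_one]
    | insert s S hs ih =>
      rw [← ih]
      have h1 := zeq h k j K2 x y κ2 hκ2 (φ s) (Real.exp (b s : ℝ) : ℂ)
        (by exact_mod_cast (Real.exp_pos _).ne')
        (fun i => (a i * χ0 (κ i)) *
          ∏ s ∈ S, (Real.exp (b s : ℝ) : ℂ) ^ (b.repr ⟨lg (κ i), hmem i⟩ s))
      rw [← h1]
      congr 2
      funext i
      rw [Finset.prod_insert hs, hφ]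
      ring
  rw [← hstep Finset.univ]
  congr 2
  funext i
  have h1 : (∏ s, (Real.exp (b s : ℝ) : ℂ) ^ (b.repr ⟨lg (κ i), hmem i⟩ s)) = (‖χ (κ i)‖ : ℂ) := by
    have h2 : ((∑ s, (b.repr ⟨lg (κ i), hmem i⟩ s) • b s : V) : ℝ) = lg (κ i) := by
      rw [b.sum_repr]
    have h3 : ∑ s, ((b.repr ⟨lg (κ i), hmem i⟩ s : ℤ) : ℝ) * (b s : ℝ) = lg (κ i) := by
      refine Eq.trans ?_ h2
      rw [Submodule.coe_sum]
      refine Finset.sum_congr rfl fun s _ => ?_
      rw [Submodule.coe_smul, zsmul_eq_mul]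
    have h4 : (∏ s, Real.exp (b s : ℝ) ^ (b.repr ⟨lg (κ i), hmem i⟩ s)) = ‖χ (κ i)‖ := by
      have h5 : ∀ s, Real.exp (b s : ℝ) ^ (b.repr ⟨lg (κ i), hmem i⟩ s)
          = Real.exp (((b.repr ⟨lg (κ i), hmem i⟩ s : ℤ) : ℝ) * (b s : ℝ)) := by
        intro s
        rw [mul_comm, Real.exp_mul, Real.rpow_intCast]
      rw [Finset.prod_congr rfl fun s _ => h5 s, ← Real.exp_sum, h3]
      exact Real.exp_log (hn0 _)
    rw [← h4]
    push_cast
    rfl
  rw [h1]
  change a i * χ (κ i) = a i * (χ (κ i) / (‖χ (κ i)‖ : ℂ)) * (‖χ (κ i)‖ : ℂ)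
  have h6 : (‖χ (κ i)‖ : ℂ) ≠ 0 := by exact_mod_cast (hn0 _).ne'
  field_simp

end

end Pool.Agent.Q91.TE
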