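import Pool.Agent.Q91.TE.Tree
import Pool.Agent.Q91.TE.Proj
import Pool.Agent.W649.ZL.Generic

set_option autoImplicit false
set_option linter.unusedSectionVars false

/-! Matrices over group algebras: terms, the tree engine and the trivial lower bound. -/

namespace Pool.Agent.Q91.TE

open Finset

universe u

theorem bound' {X : Type u} [inst : DecidableEq X] (V : Submodule ℂ (lp (fun _ : X => ℂ) 2))
    (hc : IsClosed (V : Set (lp (fun _ : X => ℂ) 2))) (x : X) (E : ℝ) (hE : 0 < E)
    (h : ∀ f ∈ V, E * ‖f x‖ ^ 2 ≤ ‖f‖ ^ 2) :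
    1 - Metric.infDist (lp.single (E := fun _ : X => ℂ) 2 x (1 : ℂ))
        (V : Set (lp (fun _ : X => ℂ) 2)) ^ 2 ≤ 1 / E := by
  have h1 : inst = fun a b => Classical.propDecidable (a = b) := Subsingleton.elim _ _
  subst h1
  exact bound V hc x E hE h

theorem nonneg' {X : Type u} [inst : DecidableEq X] (V : Submodule ℂ (lp (fun _ : X => ℂ) 2))
    (hc : IsClosed (V : Set (lp (fun _ : X => ℂ) 2))) (x : X) :
    0 ≤ 1 - Metric.infDist (lp.single (E := fun _ : X => ℂ) 2 x (1 : ℂ))
        (V : Set (lp (fun _ : X => ℂ) 2)) ^ 2 := by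
  have h1 : inst = fun a b => Classical.propDecidable (a = b) := Subsingleton.elim _ _
  subst h1
  obtain ⟨u, _, _, h2⟩ := exists_proj V hc x
  have h3 : 0 ≤ ‖u‖ ^ 2 := sq_nonneg _
  rw [h2] at h3
  exact h3

section
variable {G : Type u} [Group G] {m l : ℕ}

/-- the terms of a matrix -/
abbrev Tm (A : Matrix (Fin m) (Fin l) (G →₀ ℂ)) : Type u :=
  (i : Fin m) × (j : Fin l) × (A i j).support

/-- row -/
def trow (A : Matrix (Fin m) (Fin l) (G →₀ ℂ)) (t : Tm A) : Fin m := t.1
/-- column -/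
def tcol (A : Matrix (Fin m) (Fin l) (G →₀ ℂ)) (t : Tm A) : Fin l := t.2.1
/-- group element -/
def tel (A : Matrix (Fin m) (Fin l) (G →₀ ℂ)) (t : Tm A) : G := t.2.2.1
/-- coefficient -/
def tco (A : Matrix (Fin m) (Fin l) (G →₀ ℂ)) (t : Tm A) : ℂ := A t.1 t.2.1 t.2.2.1
/-- step -/
def tst (A : Matrix (Fin m) (Fin l) (G →₀ ℂ)) (t u : Tm A) (x : G) : G :=
  x * (tel A t * (tel A u)⁻¹)

theorem tco_ne (A : Matrix (Fin m) (Fin l) (G →₀ ℂ)) (t : Tm A) : tco A t ≠ 0 :=
  Finsupp.mem_support_iff.1 t.2.2.2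

theorem sum_col {M : Type*} [AddCommMonoid M] (A : Matrix (Fin m) (Fin l) (G →₀ ℂ)) (j : Fin l)
    (φ : Tm A → M) :
    ∑ t ∈ univ.filter (fun t => tcol A t = j), φ t
      = ∑ i : Fin m, ∑ h : (A i j).support, φ ⟨i, j, h⟩ := by
  rw [sum_filter, Fintype.sum_sigma]
  refine sum_congr rfl fun i _ => ?_
  rw [Fintype.sum_sigma, sum_eq_single j]
  · refine sum_congr rfl fun h _ => ?_
    exact if_pos rfl
  · intro j' _ hj'
    refine sum_eq_zero fun h _ => ?_
    rw [if_neg]
    exact hj'
  · intro h; exact absurd (mem_univ _) h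

theorem sum_row {M : Type*} [AddCommMonoid M] (A : Matrix (Fin m) (Fin l) (G →₀ ℂ)) (i : Fin m)
    (φ : Tm A → M) :
    ∑ t ∈ univ.filter (fun t => trow A t = i), φ t
      = ∑ j : Fin l, ∑ h : (A i j).support, φ ⟨i, j, h⟩ := by
  rw [sum_filter, Fintype.sum_sigma, sum_eq_single i]
  · rw [Fintype.sum_sigma]
    refine sum_congr rfl fun j _ => sum_congr rfl fun h _ => ?_
    exact if_pos rfl
  · intro i' _ hi'
    refine sum_eq_zero fun h _ => ?_
    rw [if_neg]
    exact hi'
  · intro h; exact absurd (mem_univ _) h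

theorem card_row (A : Matrix (Fin m) (Fin l) (G →₀ ℂ)) (i : Fin m) :
    (univ.filter (fun t : Tm A => trow A t = i)).card = ∑ j, (A i j).support.card := by
  rw [card_eq_sum_ones, sum_row]
  refine sum_congr rfl fun j _ => ?_
  rw [sum_const, card_univ, Fintype.card_coe, smul_eq_mul, mul_one]

theorem card_col (A : Matrix (Fin m) (Fin l) (G →₀ ℂ)) (j : Fin l) :
    (univ.filter (fun t : Tm A => tcol A t = j)).card = ∑ i, (A i j).support.card := by
  rw [card_eq_sum_ones, sum_col]
  refine sum_congr rfl fun j _ => ?_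
  rw [sum_const, card_univ, Fintype.card_coe, smul_eq_mul, mul_one]

/-- the kernel of right multiplication as a closed subspace -/
noncomputable def kerV (A : Matrix (Fin m) (Fin l) (G →₀ ℂ)) :
    Submodule ℂ (lp (fun _ : Fin m × G => ℂ) 2) :=
  VS (fun p : Fin l × G => univ.filter (fun t : Tm A => tcol A t = p.1))
    (fun _ t => tco A t) (fun p t => (trow A t, p.2 * (tel A t)⁻¹))

theorem isClosed_kerV (A : Matrix (Fin m) (Fin l) (G →₀ ℂ)) :
    IsClosed (kerV A : Set (lp (fun _ : Fin m × G => ℂ) 2)) := isClosed_VS _ _ _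

theorem mem_kerV (A : Matrix (Fin m) (Fin l) (G →₀ ℂ)) (x : lp (fun _ : Fin m × G => ℂ) 2) :
    x ∈ kerV A ↔ ∀ (j : Fin l) (g : G),
      ∑ k : Fin m, ∑ h ∈ (A k j).support, x (k, g * h⁻¹) * A k j h = 0 := by
  have key : ∀ (j : Fin l) (g : G),
      ∑ t ∈ univ.filter (fun t : Tm A => tcol A t = j), tco A t * x (trow A t, g * (tel A t)⁻¹)
        = ∑ k : Fin m, ∑ h ∈ (A k j).support, x (k, g * h⁻¹) * A k j h := by
    intro j g
    rw [sum_col]
    refine sum_congr rfl fun k _ => ?_
    rw [← sum_coe_sort (A k j).support]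
    exact sum_congr rfl fun h _ => mul_comm _ _
  constructor
  · intro h j g
    rw [← key]
    exact h (j, g)
  · intro h p
    have := h p.1 p.2
    rw [← key] at this
    exact this

open Classical in
theorem eqn (A : Matrix (Fin m) (Fin l) (G →₀ ℂ)) (x : lp (fun _ : Fin m × G => ℂ) 2)
    (hx : x ∈ kerV A) : Eqn (trow A) (tcol A) (tst A) (x : Fin m × G → ℂ) (tco A) := by
  intro t g
  have h1 := hx (tcol A t, g * tel A t)
  change ∑ u ∈ univ.filter (fun u : Tm A => tcol A u = tcol A t),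
    tco A u * x (trow A u, g * tel A t * (tel A u)⁻¹) = 0 at h1
  have hmem : t ∈ univ.filter (fun u : Tm A => tcol A u = tcol A t) := by simp
  rw [← add_sum_erase _ _ hmem, mul_inv_cancel_right] at h1
  rw [eq_neg_iff_add_eq_zero, ← h1]
  congr 1
  have h2 : nb (tcol A) t = (univ.filter (fun u : Tm A => tcol A u = tcol A t)).erase t := by
    ext u
    simp only [nb, mem_filter, mem_univ, true_and, mem_erase, and_comm]
  rw [h2]
  refine sum_congr rfl fun u _ => ?_
  unfold tst
  rw [mul_assoc]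

open Classical in
theorem nx_none (A : Matrix (Fin m) (Fin l) (G →₀ ℂ)) (i : Fin m) :
    nx (trow A) none i = univ.filter (fun t : Tm A => trow A t = i) := by
  ext t
  simp [nx]

open Classical in
theorem card_nx (A : Matrix (Fin m) (Fin l) (G →₀ ℂ)) (s : Tm A) :
    (nx (trow A) (some s) (trow A s)).card + 1 = ∑ j, (A (trow A s) j).support.card := by
  have h1 : nx (trow A) (some s) (trow A s)
      = (univ.filter (fun t : Tm A => trow A t = trow A s)).erase s := by
    ext u
    simp only [nx, mem_filter, mem_univ, true_and, mem_erase, ne_eq, Option.some.injEq]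
    tauto
  rw [h1, card_erase_of_mem (by simp), ← card_row A (trow A s)]
  have : 0 < (univ.filter (fun t : Tm A => trow A t = trow A s)).card :=
    card_pos.2 ⟨s, by simp⟩
  omega

open Classical in
theorem card_nb (A : Matrix (Fin m) (Fin l) (G →₀ ℂ)) (t : Tm A) :
    (nb (tcol A) t).card + 1 = ∑ i, (A i (tcol A t)).support.card := by
  have h1 : nb (tcol A) t = (univ.filter (fun u : Tm A => tcol A u = tcol A t)).erase t := by
    ext u
    simp only [nb, mem_filter, mem_univ, true_and, mem_erase, and_comm]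
  rw [h1, card_erase_of_mem (by simp), ← card_col A (tcol A t)]
  have : 0 < (univ.filter (fun u : Tm A => tcol A u = tcol A t)).card :=
    card_pos.2 ⟨t, by simp⟩
  omega

open Classical in
/-- the trivial lower bound -/
theorem lower (A : Matrix (Fin m) (Fin l) (G →₀ ℂ)) :
    (m : ℝ) - l ≤ ∑ i : Fin m, (1 - Metric.infDist
      (lp.single (E := fun _ : Fin m × G => ℂ) 2 (i, (1 : G)) (1 : ℂ))
      (kerV A : Set (lp (fun _ : Fin m × G => ℂ) 2)) ^ 2) := by
  set T : Finset G := univ.biUnion fun i : Fin m => univ.biUnion fun j : Fin l => (A i j).support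
    with hT
  have hsub : ∀ k j, (A k j).support ⊆ T := by
    intro k j x hx
    rw [hT]
    simp only [mem_biUnion, mem_univ, true_and]
    exact ⟨k, j, hx⟩
  have h1 := W649.ZL.matM_coefT T A hsub
  have h2 := W649.ZL.kd_ge (fun i : T × Fin m × Fin l => (i.1 : G)) (fun i => i.2.1)
    (fun i => i.2.2) univ univ (fun _ _ => mem_univ _) (W649.ZL.coefT T A)
  rw [← W649.ZL.kerDimM_eq, h1, card_univ, card_univ, Fintype.card_fin, Fintype.card_fin] at h2
  refine h2.trans (le_of_eq ?_)
  unfold W649.ZL.kerDimM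
  refine sum_congr rfl fun i _ => ?_
  congr 3
  ext x
  exact (mem_kerV A x).symm

end

end Pool.Agent.Q91.TE
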