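import Pool.Agent.W649.ZL.Acc
import Pool.Agent.W649.ZL.Conv

set_option autoImplicit false
set_option linter.unusedSectionVars false

/-! Restriction of kernels to finitely many cosets of a subgroup. -/

namespace Pool.Agent.Q91.TE

open Pool.Agent.W649.ZL Filter Topology
open scoped InnerProductSpace InnerProduct ENNReal

universe u v w z

section
variable {G : Type u} [Group G] (K : Subgroup G) (F : Finset (G ⧸ K)) (r : G ⧸ K → G)

/-- the points `r x * k` -/
def pt (p : K × F) : G := r p.2 * p.1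

theorem coe_pt (hr : ∀ x, (r x : G ⧸ K) = x) (p : K × F) :
    ((pt K F r p : G) : G ⧸ K) = p.2 := by
  unfold pt
  rw [QuotientGroup.mk_mul_of_mem _ p.1.2, hr]

theorem pt_injective (hr : ∀ x, (r x : G ⧸ K) = x) : Function.Injective (pt K F r) := by
  intro p q h
  have h1 : (p.2 : G ⧸ K) = q.2 := by
    rw [← coe_pt K F r hr p, ← coe_pt K F r hr q, h]
  have h2 : p.2 = q.2 := Subtype.ext h1
  have h3 : (p.1 : G) = q.1 := by
    unfold pt at h
    rw [h2] at h
    exact mul_left_cancel h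
  exact Prod.ext (Subtype.ext h3) h2

theorem memlp_R (hr : ∀ x, (r x : G ⧸ K) = x) (f : EE G Unit) :
    Memℓp (fun p : K × F => f (pt K F r p, ())) 2 := by
  rw [memlp_two_iff]
  have h := (memlp_two_iff _).1 f.2
  exact h.comp_injective (i := fun p : K × F => ((pt K F r p, ()) : G × Unit))
    (fun p q hpq => pt_injective K F r hr (Prod.mk.inj hpq).1)

/-- the restriction -/
noncomputable def Rf (hr : ∀ x, (r x : G ⧸ K) = x) : EE G Unit →L[ℂ] EE K F :=
  LinearMap.mkContinuous
    { toFun := fun f => ⟨fun p => f (pt K F r p, ()), memlp_R K F r hr f⟩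
      map_add' := fun f g => by ext x; rfl
      map_smul' := fun c f => by ext x; rfl } 1
    (fun f => by
      rw [one_mul]
      have h := (memlp_two_iff _).1 f.2
      have hi : Function.Injective (fun p : K × F => ((pt K F r p, ()) : G × Unit)) :=
        fun p q hpq => pt_injective K F r hr (Prod.mk.inj hpq).1
      refine (sq_le_sq₀ (norm_nonneg _) (norm_nonneg _)).1 ?_
      rw [norm_sq_tsum, norm_sq_tsum]
      exact tsum_comp_le_tsum_of_inj h (fun _ => by positivity) hi)

theorem Rf_apply (hr : ∀ x, (r x : G ⧸ K) = x) (f : EE G Unit) (p : K × F) :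
    Rf K F r hr f p = f (pt K F r p, ()) := rfl

theorem norm_Rf_le (hr : ∀ x, (r x : G ⧸ K) = x) (f : EE G Unit) : ‖Rf K F r hr f‖ ≤ ‖f‖ := by
  have h := ContinuousLinearMap.le_opNorm (Rf K F r hr) f
  refine h.trans ?_
  have h1 : ‖Rf K F r hr‖ ≤ 1 := LinearMap.mkContinuous_norm_le _ zero_le_one _
  calc ‖Rf K F r hr‖ * ‖f‖ ≤ 1 * ‖f‖ := by gcongr
    _ = ‖f‖ := one_mul _

theorem Rf_tr (hr : ∀ x, (r x : G ⧸ K) = x) (k : K) (f : EE G Unit) :
    Rf K F r hr (tr (k : G) f) = tr k (Rf K F r hr f) := by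
  ext ⟨k', x⟩
  rw [Rf_apply, tr_apply, tr_apply, Rf_apply]
  unfold pt
  change f (r x * (k' : G) * (k : G), ()) = f (r x * ((k' * k : K) : G), ())
  rw [Subgroup.coe_mul, mul_assoc]

variable [DecidableEq (G ⧸ K)]

/-- the images of the cosets in `F` -/
def imF (S : Finset G) : Finset (G ⧸ K) := (S ×ˢ F).image fun p => p.1 • p.2

theorem mem_imF {S : Finset G} {s : G} {x : G ⧸ K} (hs : s ∈ S) (hx : x ∈ F) :
    s • x ∈ imF K F S :=
  Finset.mem_image.2 ⟨(s, x), Finset.mem_product.2 ⟨hs, hx⟩, rfl⟩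

/-- the element of `K` -/
def tau (hr : ∀ x, (r x : G ⧸ K) = x) (s : G) (x : G ⧸ K) : K :=
  ⟨(r (s • x))⁻¹ * (s * r x), by
    rw [← QuotientGroup.eq, hr]
    have : ((s * r x : G) : G ⧸ K) = s • (r x : G ⧸ K) := rfl
    rw [this, hr]⟩

/-- the operator -/
noncomputable def TF (hr : ∀ x, (r x : G ⧸ K) = x) (α : G →₀ ℂ) :
    EE K F →L[ℂ] EE K (imF K F α.support) :=
  lin (fun i : α.support × F => elem (tau K r hr i.1 i.2)
    (⟨(i.1 : G) • (i.2 : G ⧸ K), mem_imF K F i.1.2 i.2.2⟩ : imF K F α.support) i.2)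
    (fun i => α i.1)

theorem TF_eqv (hr : ∀ x, (r x : G ⧸ K) = x) (α : G →₀ ℂ) : Eqv (TF K F r hr α) :=
  lin_eqv _ (fun _ => elem_eqv _ _ _) _

theorem TF_apply (hr : ∀ x, (r x : G ⧸ K) = x) (α : G →₀ ℂ) (f : EE G Unit) (k : K)
    (y : imF K F α.support) :
    TF K F r hr α (Rf K F r hr f) (k, y)
      = ∑ s ∈ α.support, if s⁻¹ • (y : G ⧸ K) ∈ F then α s * f (s⁻¹ * (r y * k), ()) else 0 := by
  unfold TF
  rw [lin_apply, sum_apply_EE, Fintype.sum_prod_type, ← Finset.sum_coe_sort α.support]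
  refine Finset.sum_congr rfl fun s _ => ?_
  have key : ∀ x : F, ((fun i : α.support × F => α i.1) (s, x) •
      (elem (tau K r hr s x) (⟨(s : G) • (x : G ⧸ K), mem_imF K F s.2 x.2⟩ :
        imF K F α.support) x) (Rf K F r hr f)) (k, y)
      = if (s : G)⁻¹ • (y : G ⧸ K) = x then α s * f ((s : G)⁻¹ * (r y * k), ()) else 0 := by
    intro x
    change α s * (if y = _ then (Rf K F r hr f) ((tau K r hr s x)⁻¹ * k, x) else 0) = _
    by_cases h : (s : G)⁻¹ • (y : G ⧸ K) = x
    · have h2 : (y : G ⧸ K) = (s : G) • (x : G ⧸ K) := by rw [← h, smul_inv_smul]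
      rw [if_pos h, if_pos (Subtype.ext h2), Rf_apply]
      have h3 : pt K F r ((tau K r hr s x)⁻¹ * k, x) = (s : G)⁻¹ * (r y * k) := by
        unfold pt tau
        change r x * (((r ((s : G) • (x : G ⧸ K)))⁻¹ * ((s : G) * r x))⁻¹ * (k : G)) = _
        rw [← h2]
        group
      rw [h3]
    · rw [if_neg h, if_neg, mul_zero]
      intro h2
      apply h
      have h3 : (y : G ⧸ K) = (s : G) • (x : G ⧸ K) := congrArg Subtype.val h2
      rw [h3, inv_smul_smul]
  rw [Finset.sum_congr rfl fun x _ => key x]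
  by_cases hF : (s : G)⁻¹ • (y : G ⧸ K) ∈ F
  · rw [if_pos hF, Finset.sum_eq_single (⟨(s : G)⁻¹ • (y : G ⧸ K), hF⟩ : F)]
    · rw [if_pos rfl]
    · intro x _ hx
      rw [if_neg]
      intro h
      exact hx (Subtype.ext h.symm)
    · intro h; exact absurd (Finset.mem_univ _) h
  · rw [if_neg hF]
    refine Finset.sum_eq_zero fun x _ => ?_
    rw [if_neg]
    intro h
    exact hF (by rw [h]; exact x.2)

/-- the boundary -/
def bdF (α : G →₀ ℂ) : Finset (imF K F α.support) :=
  Finset.univ.filter fun y => ∃ s ∈ α.support, s⁻¹ • (y : G ⧸ K) ∉ F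

theorem TF_bd (hr : ∀ x, (r x : G ⧸ K) = x) (α : G →₀ ℂ) (f : EE G Unit) (hf : cop α f = 0) :
    TF K F r hr α (Rf K F r hr f) ∈ cosub K (bdF K F α) := by
  intro k y hy
  rw [TF_apply]
  have h1 : ∀ s ∈ α.support, s⁻¹ • (y : G ⧸ K) ∈ F := by
    intro s hs
    by_contra hcon
    exact hy (Finset.mem_filter.2 ⟨Finset.mem_univ _, s, hs, hcon⟩)
  rw [Finset.sum_congr rfl fun s hs => if_pos (h1 s hs)]
  have h2 := cop_apply α f (r y * k)
  rw [hf] at h2
  have h3 : (0 : EE G Unit) (r y * k, ()) = 0 := rfl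
  rw [h3] at h2
  exact h2.symm

/-- **Lower bound.** -/
theorem coset_lower (hr : ∀ x, (r x : G ⧸ K) = x) (α : G →₀ ℂ) :
    F.card * vd (LinearMap.ker (cop α : EE G Unit →ₗ[ℂ] EE G Unit)) - (bdF K F α).card
      ≤ vd (LinearMap.ker (TF K F r hr α : EE K F →ₗ[ℂ] EE K (imF K F α.support))) := by
  set V : Submodule ℂ (EE G Unit) := LinearMap.ker (cop α : EE G Unit →ₗ[ℂ] EE G Unit) with hV
  have hVc : IsClosed (V : Set (EE G Unit)) := (cop α).isClosed_ker
  have hVcs : CompleteSpace V := hVc.completeSpace_coe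
  have hVi : W649.ZL.Inv V := inv_ker (cop α) (cop_eqv α)
  set R := Rf K F r hr with hR
  set T := TF K F r hr α with hT
  let W : Submodule ℂ (EE K F) := V.map (R : EE G Unit →ₗ[ℂ] EE K F)
  have hWi : W649.ZL.Inv W := by
    rintro k _ ⟨f, hf, rfl⟩
    refine ⟨tr (k : G) f, hVi k f hf, ?_⟩
    exact Rf_tr K F r hr k f
  let U := W.topologicalClosure
  have hUc : IsClosed (U : Set (EE K F)) := W.isClosed_topologicalClosure
  have hUcs : CompleteSpace U := hUc.completeSpace_coe
  have hUi : W649.ZL.Inv U := hWi.topologicalClosure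
  -- the dimension of `U`
  have h1 : F.card * vd V ≤ vd U := by
    rw [vd_eq V V (topcl_eq hVc), vd_eq U U (topcl_eq hUc)]
    simp only [Finset.univ_unique, PUnit.default_eq_unit, Finset.sum_singleton]
    have h2 : ∀ x : F, ‖V.starProjection (dl ((1 : G), ()))‖ ^ 2
        ≤ ‖U.starProjection (dl ((1 : K), x))‖ ^ 2 := by
      intro x
      have h3 : ‖V.starProjection (dl ((1 : G), ()))‖ = ‖V.starProjection (dl (r x, ()))‖ := by
        have h4 : dl (r x, ()) = tr (r x)⁻¹ (dl ((1 : G), ())) := by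
          rw [tr_dl, one_mul, inv_inv]
        rw [h4, proj_tr hVi, norm_tr]
      rw [h3]
      set p := V.starProjection (dl (r x, ())) with hp
      have hpV : p ∈ V := Submodule.starProjection_apply_mem _ _
      have hRU : R p ∈ U := W.le_topologicalClosure ⟨p, hpV, rfl⟩
      have h5 : ⟪(dl ((1 : K), x) : EE K F), R p⟫_ℂ = ((‖p‖ ^ 2 : ℝ) : ℂ) := by
        rw [inner_dl_left, hR, Rf_apply]
        have h6 : (pt K F r ((1 : K), x), ()) = (r x, ()) := by
          unfold pt
          rw [Subgroup.coe_one, mul_one]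
        rw [h6, ← inner_dl_left (r x, ()) p]
        have h7 : ⟪(dl (r x, ()) : EE G Unit) - p, p⟫_ℂ = 0 :=
          Submodule.starProjection_inner_eq_zero _ _ hpV
        rw [inner_sub_left, sub_eq_zero] at h7
        rw [h7, inner_self_eq_norm_sq_to_K]
        norm_cast
      have h8 : ⟪(dl ((1 : K), x) : EE K F), R p⟫_ℂ
          = ⟪U.starProjection (dl ((1 : K), x)), R p⟫_ℂ := by
        have h9 : ⟪(dl ((1 : K), x) : EE K F) - U.starProjection (dl ((1 : K), x)), R p⟫_ℂ = 0 :=
          Submodule.starProjection_inner_eq_zero _ _ hRU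
        rwa [inner_sub_left, sub_eq_zero] at h9
      have h10 : ‖p‖ ^ 2 ≤ ‖U.starProjection (dl ((1 : K), x))‖ * ‖p‖ := by
        have h11 := norm_inner_le_norm (𝕜 := ℂ) (U.starProjection (dl ((1 : K), x))) (R p)
        rw [← h8, h5, Complex.norm_real, Real.norm_of_nonneg (by positivity)] at h11
        refine h11.trans ?_
        gcongr
        exact norm_Rf_le K F r hr p
      rcases (norm_nonneg p).eq_or_lt' with h0 | h0
      · rw [h0]
        have := sq_nonneg ‖U.starProjection (dl ((1 : K), x))‖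
        linarith
      · have h12 : ‖p‖ ≤ ‖U.starProjection (dl ((1 : K), x))‖ := by
          rw [sq] at h10
          exact le_of_mul_le_mul_right h10 h0
        gcongr
    calc (F.card : ℝ) * ‖V.starProjection (dl ((1 : G), ()))‖ ^ 2
        = ∑ _x : F, ‖V.starProjection (dl ((1 : G), ()))‖ ^ 2 := by simp
      _ ≤ _ := Finset.sum_le_sum fun x _ => h2 x
  have h2 := rank_nullity T (TF_eqv K F r hr α) hUi hUc
  have h3 : vd (U ⊓ LinearMap.ker (T : EE K F →ₗ[ℂ] EE K (imF K F α.support)))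
      ≤ vd (LinearMap.ker (T : EE K F →ₗ[ℂ] EE K (imF K F α.support))) := vd_mono inf_le_right
  have h4 : vd (U.map (T : EE K F →ₗ[ℂ] EE K (imF K F α.support))) ≤ (bdF K F α).card := by
    rw [← vd_cosub (G := K) (bdF K F α)]
    apply vd_mono
    rintro _ ⟨f, hf, rfl⟩
    have hcl : IsClosed {f : EE K F | T f ∈ cosub K (bdF K F α)} :=
      (cosub_closed (G := K) (bdF K F α)).preimage T.continuous
    have hsub : closure (W : Set (EE K F)) ⊆ {f : EE K F | T f ∈ cosub K (bdF K F α)} := by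
      refine closure_minimal ?_ hcl
      rintro _ ⟨g, hg, rfl⟩
      exact TF_bd K F r hr α g hg
    have hf' : f ∈ closure (W : Set (EE K F)) := by
      rw [← Submodule.topologicalClosure_coe]; exact hf
    exact hsub hf'
  linarith

end

end Pool.Agent.Q91.TE
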