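import Pool.Agent.Q91.TE.Coset
import Pool.Agent.H61R3.NG1

set_option autoImplicit false
set_option linter.unusedSectionVars false

/-! Kernel elements supported on finitely many cosets of a subgroup. -/

namespace Pool.Agent.Q91.TE

open Pool.Agent.W649.ZL Filter Topology
open scoped InnerProductSpace InnerProduct ENNReal

universe u v w z

section
variable {G : Type u} [Group G] (K : Subgroup G) (F : Finset (G ⧸ K)) (r : G ⧸ K → G)

/-- the elements of the kernel supported on the cosets in `F` -/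
def kernF (α : G →₀ ℂ) : Set (lp (fun _ : G => ℂ) 2) :=
  {f | f ∈ kern α ∧ ∀ g : G, (g : G ⧸ K) ∉ F → f g = 0}

theorem mem_K (hr : ∀ x, (r x : G ⧸ K) = x) (g : G) : (r (g : G ⧸ K))⁻¹ * g ∈ K := by
  rw [← QuotientGroup.eq, hr]

theorem pt_surj (hr : ∀ x, (r x : G ⧸ K) = x) (g : G) (hg : (g : G ⧸ K) ∈ F) :
    pt K F r (⟨(r (g : G ⧸ K))⁻¹ * g, mem_K K r hr g⟩, ⟨g, hg⟩) = g := by
  unfold pt
  change r (g : G ⧸ K) * ((r (g : G ⧸ K))⁻¹ * g) = g
  rw [mul_inv_cancel_left]

variable [DecidableEq (G ⧸ K)]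

/-- extension by zero -/
def exFun (hr : ∀ x, (r x : G ⧸ K) = x) (h : EE K F) : G → ℂ := fun g =>
  if hg : (g : G ⧸ K) ∈ F then h (⟨(r (g : G ⧸ K))⁻¹ * g, mem_K K r hr g⟩, ⟨g, hg⟩) else 0

theorem exFun_pt (hr : ∀ x, (r x : G ⧸ K) = x) (h : EE K F) (p : K × F) :
    exFun K F r hr h (pt K F r p) = h p := by
  unfold exFun
  have h1 : ((pt K F r p : G) : G ⧸ K) = p.2 := coe_pt K F r hr p
  have hg : ((pt K F r p : G) : G ⧸ K) ∈ F := by rw [h1]; exact p.2.2
  rw [dif_pos hg]
  have h2 := pt_injective K F r hr (pt_surj K F r hr _ hg)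
  rw [h2]

theorem exFun_zero (hr : ∀ x, (r x : G ⧸ K) = x) (h : EE K F) (g : G) (hg : (g : G ⧸ K) ∉ F) :
    exFun K F r hr h g = 0 := by
  unfold exFun
  rw [dif_neg hg]

theorem not_range (hr : ∀ x, (r x : G ⧸ K) = x) (g : G) (hg : g ∉ Set.range (pt K F r)) :
    (g : G ⧸ K) ∉ F := fun h => hg ⟨_, pt_surj K F r hr g h⟩

theorem memlp_ex (hr : ∀ x, (r x : G ⧸ K) = x) (h : EE K F) : Memℓp (exFun K F r hr h) 2 := by
  rw [memlp_two_iff]
  have h1 := (memlp_two_iff _).1 h.2
  refine ((pt_injective K F r hr).summable_iff ?_).1 ?_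
  · intro g hg
    rw [exFun_zero K F r hr h g (not_range K F r hr g hg), norm_zero]
    norm_num
  · refine h1.congr fun p => ?_
    change _ = ‖exFun K F r hr h (pt K F r p)‖ ^ 2
    rw [exFun_pt]

/-- extension by zero -/
noncomputable def exF (hr : ∀ x, (r x : G ⧸ K) = x) (h : EE K F) : lp (fun _ : G => ℂ) 2 :=
  ⟨exFun K F r hr h, memlp_ex K F r hr h⟩

theorem exF_apply (hr : ∀ x, (r x : G ⧸ K) = x) (h : EE K F) (g : G) :
    exF K F r hr h g = exFun K F r hr h g := rfl

theorem isometry_exF (hr : ∀ x, (r x : G ⧸ K) = x) : Isometry (exF K F r hr) := by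
  apply Isometry.of_dist_eq
  intro f g
  rw [dist_eq_norm, dist_eq_norm]
  have e1 : exF K F r hr f - exF K F r hr g = exF K F r hr (f - g) := by
    ext x
    change exFun K F r hr f x - exFun K F r hr g x = exFun K F r hr (f - g) x
    unfold exFun
    split_ifs
    · rfl
    · rw [sub_zero]
  rw [e1]
  have e2 : ‖exF K F r hr (f - g)‖ ^ 2 = ‖f - g‖ ^ 2 := by
    rw [norm_sq_tsum, norm_sq_tsum]
    have h1 : Function.support (fun x : G => ‖exF K F r hr (f - g) x‖ ^ 2)
        ⊆ Set.range (pt K F r) := by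
      intro x hx
      by_contra hcon
      apply hx
      change ‖exFun K F r hr (f - g) x‖ ^ 2 = 0
      rw [exFun_zero K F r hr _ x (not_range K F r hr x hcon), norm_zero]
      norm_num
    rw [← (pt_injective K F r hr).tsum_eq h1]
    refine tsum_congr fun p => ?_
    rw [exF_apply, exFun_pt]
  exact (sq_eq_sq₀ (norm_nonneg _) (norm_nonneg _)).1 e2

theorem Rf_exF (hr : ∀ x, (r x : G ⧸ K) = x) (h : EE K F) :
    Rf K F r hr (toU (exF K F r hr h)) = h := by
  ext p
  rw [Rf_apply, toU_apply, exF_apply, exFun_pt]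

theorem exF_Rf (hr : ∀ x, (r x : G ⧸ K) = x) (f : lp (fun _ : G => ℂ) 2)
    (hf : ∀ g : G, (g : G ⧸ K) ∉ F → f g = 0) : exF K F r hr (Rf K F r hr (toU f)) = f := by
  ext g
  rw [exF_apply]
  by_cases hg : (g : G ⧸ K) ∈ F
  · unfold exFun
    rw [dif_pos hg, Rf_apply, toU_apply, pt_surj K F r hr g hg]
  · rw [exFun_zero K F r hr _ g hg, hf g hg]

/-- for functions supported on `F` the operator is convolution -/
theorem TF_conv (hr : ∀ x, (r x : G ⧸ K) = x) (α : G →₀ ℂ) (f : lp (fun _ : G => ℂ) 2)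
    (hf : ∀ g : G, (g : G ⧸ K) ∉ F → f g = 0) (k : K) (y : imF K F α.support) :
    TF K F r hr α (Rf K F r hr (toU f)) (k, y)
      = ∑ s ∈ α.support, α s * f (s⁻¹ * (r y * k)) := by
  rw [TF_apply]
  refine Finset.sum_congr rfl fun s _ => ?_
  split_ifs with h
  · rfl
  · rw [hf, mul_zero]
    intro h2
    apply h
    have h3 : ((s⁻¹ * (r y * k) : G) : G ⧸ K) = s⁻¹ • (y : G ⧸ K) := by
      change s⁻¹ • ((r y * (k : G) : G) : G ⧸ K) = _
      rw [QuotientGroup.mk_mul_of_mem _ k.2, hr]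
    rwa [h3] at h2

theorem exF_image (hr : ∀ x, (r x : G ⧸ K) = x) (α : G →₀ ℂ) :
    exF K F r hr '' (LinearMap.ker (TF K F r hr α : EE K F →ₗ[ℂ] EE K (imF K F α.support)) :
      Set (EE K F)) = kernF K F α := by
  have key : ∀ f : lp (fun _ : G => ℂ) 2, (∀ g : G, (g : G ⧸ K) ∉ F → f g = 0) →
      (TF K F r hr α (Rf K F r hr (toU f)) = 0 ↔ f ∈ kern α) := by
    intro f hf
    constructor
    · intro h g
      by_cases hg : (g : G ⧸ K) ∈ imF K F α.support
      · have h1 := TF_conv K F r hr α f hf ⟨(r (g : G ⧸ K))⁻¹ * g, mem_K K r hr g⟩ ⟨g, hg⟩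
        rw [h] at h1
        change (0 : ℂ) = ∑ s ∈ α.support, α s * f (s⁻¹ * (r (g : G ⧸ K) *
          ((r (g : G ⧸ K))⁻¹ * g))) at h1
        rw [mul_inv_cancel_left] at h1
        exact h1.symm
      · refine Finset.sum_eq_zero fun s hs => ?_
        rw [hf, mul_zero]
        intro h2
        apply hg
        have h3 := mem_imF K F hs h2
        have h4 : s • ((s⁻¹ * g : G) : G ⧸ K) = (g : G ⧸ K) := by
          change ((s * (s⁻¹ * g) : G) : G ⧸ K) = _
          rw [mul_inv_cancel_left]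
        rwa [h4] at h3
    · intro h
      ext ⟨k, y⟩
      rw [TF_conv K F r hr α f hf]
      exact h _
  ext f
  constructor
  · rintro ⟨h, hh, rfl⟩
    have hs : ∀ g : G, (g : G ⧸ K) ∉ F → exF K F r hr h g = 0 := fun g hg =>
      exFun_zero K F r hr h g hg
    refine ⟨(key _ hs).1 ?_, hs⟩
    rw [Rf_exF]
    exact hh
  · rintro ⟨h1, h2⟩
    refine ⟨Rf K F r hr (toU f), (key f h2).2 h1, exF_Rf K F r hr f h2⟩

open Classical in
theorem exF_dl (hr : ∀ x, (r x : G ⧸ K) = x) (x : F) :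
    exF K F r hr (dl ((1 : K), x)) = lp.single (E := fun _ : G => ℂ) 2 (r x) (1 : ℂ) := by
  ext g
  rw [exF_apply]
  have hpt : pt K F r ((1 : K), x) = r x := by
    unfold pt
    rw [Subgroup.coe_one, mul_one]
  by_cases hg : g = r x
  · subst hg
    rw [lp.single_apply_self, ← hpt, exFun_pt, dl_apply_self]
  · rw [lp.single_apply_ne (E := fun _ : G => ℂ) 2 (r x) (1 : ℂ) hg]
    by_cases hgF : (g : G ⧸ K) ∈ F
    · have h1 := pt_surj K F r hr g hgF
      rw [← h1, exFun_pt, dl_apply_ne]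
      intro h2
      apply hg
      rw [← h1, h2, hpt]
    · exact exFun_zero K F r hr _ g hgF

open Classical in
/-- the dimension of the space of kernel elements supported on `F` -/
noncomputable def dimF (α : G →₀ ℂ) : ℝ :=
  ∑ x ∈ F, (1 - Metric.infDist (lp.single (E := fun _ : G => ℂ) 2 (r x) (1 : ℂ))
    (kernF K F α) ^ 2)

theorem dimF_eq (hr : ∀ x, (r x : G ⧸ K) = x) (α : G →₀ ℂ) :
    dimF K F r α = vd (LinearMap.ker (TF K F r hr α : EE K F →ₗ[ℂ] EE K (imF K F α.support))) := by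
  rw [vd_eq_infDist _ (ContinuousLinearMap.isClosed_ker (TF K F r hr α))]
  unfold dimF
  rw [← Finset.sum_coe_sort F]
  refine Finset.sum_congr rfl fun x _ => ?_
  rw [← exF_image K F r hr α, ← exF_dl K F r hr, Metric.infDist_image (isometry_exF K F r hr)]

end

section
variable {G : Type u} [Group G] (K : Subgroup G) (F : Finset (G ⧸ K)) (r : G ⧸ K → G)

open Classical in
/-- the kernel dimension -/
noncomputable def kDim (α : G →₀ ℂ) : ℝ :=
  1 - Metric.infDist (lp.single (E := fun _ : G => ℂ) 2 (1 : G) (1 : ℂ)) (kern α) ^ 2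

open Classical in
theorem infDist_translate (α : G →₀ ℂ) (g : G) :
    Metric.infDist (lp.single (E := fun _ : G => ℂ) 2 g (1 : ℂ)) (kern α)
      = Metric.infDist (lp.single (E := fun _ : G => ℂ) 2 (1 : G) (1 : ℂ)) (kern α) := by
  have h1 : H61R3NG.Rt g '' kern α = kern α := by
    ext f
    constructor
    · rintro ⟨f, hf, rfl⟩ x
      have := hf (x * g)
      rw [← this]
      refine Finset.sum_congr rfl fun s _ => ?_
      rw [H61R3NG.Rt_apply, mul_assoc]
    · intro hf
      refine ⟨H61R3NG.Rt g⁻¹ f, fun x => ?_, ?_⟩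
      · have := hf (x * g⁻¹)
        rw [← this]
        refine Finset.sum_congr rfl fun s _ => ?_
        rw [H61R3NG.Rt_apply, mul_assoc]
      · rw [H61R3NG.Rt_Rt, mul_inv_cancel, H61R3NG.Rt_one]
  have h2 : H61R3NG.Rt g (lp.single (E := fun _ : G => ℂ) 2 g (1 : ℂ))
      = lp.single (E := fun _ : G => ℂ) 2 (1 : G) (1 : ℂ) := by
    ext x
    rw [H61R3NG.Rt_apply]
    by_cases hx : x = 1
    · subst hx
      rw [one_mul, lp.single_apply_self, lp.single_apply_self]
    · rw [lp.single_apply_ne (E := fun _ : G => ℂ) 2 (1 : G) (1 : ℂ) hx,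
        lp.single_apply_ne (E := fun _ : G => ℂ) 2 g (1 : ℂ)]
      intro h
      exact hx (mul_eq_right.1 h)
  rw [← h2, ← Metric.infDist_image (H61R3NG.Rt g).isometry, h1]

/-- **Upper bound.** -/
theorem coset_upper (α : G →₀ ℂ) : dimF K F r α ≤ F.card * kDim α := by
  classical
  have h0 : (0 : lp (fun _ : G => ℂ) 2) ∈ kernF K F α := by
    refine ⟨fun g => ?_, fun _ _ => rfl⟩
    refine Finset.sum_eq_zero fun s _ => ?_
    have : (0 : lp (fun _ : G => ℂ) 2) (s⁻¹ * g) = 0 := rfl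
    rw [this, mul_zero]
  unfold dimF kDim
  rw [← nsmul_eq_mul, ← Finset.sum_const]
  refine Finset.sum_le_sum fun x _ => ?_
  have h1 : Metric.infDist (lp.single (E := fun _ : G => ℂ) 2 (r x) (1 : ℂ)) (kern α)
      ≤ Metric.infDist (lp.single (E := fun _ : G => ℂ) 2 (r x) (1 : ℂ)) (kernF K F α) :=
    Metric.infDist_le_infDist_of_subset (fun f hf => hf.1) ⟨0, h0⟩
  rw [infDist_translate] at h1
  have h2 := Metric.infDist_nonneg
    (x := lp.single (E := fun _ : G => ℂ) 2 (1 : G) (1 : ℂ)) (s := kern α)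
  have h3 := pow_le_pow_left₀ h2 h1 2
  linarith

theorem kDim_eq (α : G →₀ ℂ) :
    kDim α = vd (LinearMap.ker (cop α : EE G Unit →ₗ[ℂ] EE G Unit)) := kerDim_eq_vd α

/-- if the dimension is positive there are nonzero elements -/
theorem exists_of_pos (α : G →₀ ℂ) (h : 0 < dimF K F r α) : ∃ f ∈ kernF K F α, f ≠ 0 := by
  classical
  by_contra hcon
  push Not at hcon
  have h0 : (0 : lp (fun _ : G => ℂ) 2) ∈ kernF K F α := by
    refine ⟨fun g => ?_, fun _ _ => rfl⟩
    refine Finset.sum_eq_zero fun s _ => ?_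
    have : (0 : lp (fun _ : G => ℂ) 2) (s⁻¹ * g) = 0 := rfl
    rw [this, mul_zero]
  have h1 : kernF K F α = {0} := by
    ext f
    constructor
    · intro hf; exact hcon f hf
    · intro hf
      have : f = 0 := hf
      rw [this]; exact h0
  have h2 : dimF K F r α = 0 := by
    unfold dimF
    refine Finset.sum_eq_zero fun x _ => ?_
    rw [h1, Metric.infDist_singleton, dist_zero_right, lp.norm_single (by norm_num)]
    simp
  linarith

end

end Pool.Agent.Q91.TE
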