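import Pool.Agent.Q91.TE.Proj
import Pool.Agent.W649.ZL.Generic
import Pool.Agent.W649.ZL.Supp

set_option autoImplicit false
set_option linter.unusedSectionVars false

/-! Specialisation of kernel dimensions and initial parts with respect to homomorphisms of
subgroups to the integers. -/

namespace Pool.Agent.Q91.TE

open MvPolynomial Pool.Agent.W649.ZL
open scoped Pointwise

universe u v w z

section
variable {G : Type u} [Group G] {I : Type v} {J : Type w} {ι : Type z} [Fintype ι] [Fintype I]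
  [Fintype J] [DecidableEq I] [DecidableEq J]

theorem spec (A : ι → EE G J →L[ℂ] EE G I) (hA : ∀ i, Eqv (A i)) (a : ι → ℂ) (e : ι → ℕ) (d : ℝ)
    (h : ∀ c : ℂ, ‖c‖ = 1 → d ≤ kd A (fun i => a i * c ^ e i)) :
    d ≤ kd A (fun i => if e i = 0 then a i else 0) := by
  have hzero : (fun i => a i * (0 : ℂ) ^ e i) ∈ locus A d := by
    rw [← locus_closed A hA d]
    intro f hf
    rw [aeval_ev]
    let p : Polynomial ℂ := aeval (fun t : ι => Polynomial.C (a t) * Polynomial.X ^ e t) f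
    have hp : ∀ c : ℂ, p.eval c = eval (fun i => a i * c ^ e i) f := by
      intro c
      simp only [p]
      rw [← Polynomial.coe_aeval_eq_eval, aeval_def, ← aeval_ev, aeval_def]
      have := MvPolynomial.hom_eval₂ f (algebraMap ℂ (Polynomial ℂ))
        ((Polynomial.aeval c).toRingHom)
        (fun t : ι => Polynomial.C (a t) * Polynomial.X ^ e t)
      refine Eq.trans this ?_
      congr 1
      · ext z; simp
      · funext t
        simp
    have hp0 : p = 0 := by
      apply Polynomial.eq_zero_of_infinite_isRoot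
      refine circle_infinite.mono ?_
      intro c hc
      change p.eval c = 0
      rw [hp, ← aeval_ev]
      exact hf _ (h c hc)
    rw [← hp, hp0, Polynomial.eval_zero]
  have h1 : d ≤ kd A (fun i => a i * (0 : ℂ) ^ e i) := hzero
  have h2 : (fun i => a i * (0 : ℂ) ^ e i) = fun i => if e i = 0 then a i else 0 := by
    funext i
    split_ifs with hi
    · rw [hi, pow_zero, mul_one]
    · rw [zero_pow hi, mul_zero]
  rwa [h2] at h1

end

section
variable {X : Type u}

theorem memlp_mul (c : X → ℂ) (hc : ∀ x, ‖c x‖ = 1) (f : lp (fun _ : X => ℂ) 2) :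
    Memℓp (fun x => c x * f x) 2 := by
  apply memℓp_gen
  have e : ENNReal.toReal 2 = ((2 : ℕ) : ℝ) := by norm_num
  rw [e]
  simp only [Real.rpow_natCast]
  refine (summable_sq_lp f).congr fun x => ?_
  rw [norm_mul, hc, one_mul]

/-- multiplication by a unimodular function -/
noncomputable def mu (c : X → ℂ) (hc : ∀ x, ‖c x‖ = 1) (f : lp (fun _ : X => ℂ) 2) :
    lp (fun _ : X => ℂ) 2 := ⟨fun x => c x * f x, memlp_mul c hc f⟩

theorem mu_apply (c : X → ℂ) (hc : ∀ x, ‖c x‖ = 1) (f : lp (fun _ : X => ℂ) 2) (x : X) :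
    mu c hc f x = c x * f x := rfl

theorem isometry_mu (c : X → ℂ) (hc : ∀ x, ‖c x‖ = 1) : Isometry (mu c hc) := by
  apply Isometry.of_dist_eq
  intro f g
  rw [dist_eq_norm, dist_eq_norm]
  have e1 : mu c hc f - mu c hc g = mu c hc (f - g) := by
    ext x
    change c x * f x - c x * g x = c x * (f - g) x
    rw [← mul_sub]; rfl
  rw [e1]
  have e2 : ‖mu c hc (f - g)‖ ^ 2 = ‖f - g‖ ^ 2 := by
    rw [norm_sq_lp, norm_sq_lp]
    refine tsum_congr fun x => ?_
    rw [mu_apply, norm_mul, hc, one_mul]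
  exact (sq_eq_sq₀ (norm_nonneg _) (norm_nonneg _)).1 e2

open Classical in
theorem infDist_twist {ι κ : Type*} (S : ι → Finset κ) (a a' : ι → κ → ℂ) (p : ι → κ → X)
    (c : X → ℂ) (hc : ∀ x, ‖c x‖ = 1) (w : ι → ℂ) (hw : ∀ i, w i ≠ 0)
    (h : ∀ i, ∀ k ∈ S i, a' i k * c (p i k) = w i * a i k) (x : X) :
    Metric.infDist (lp.single (E := fun _ : X => ℂ) 2 x (1 : ℂ))
        (VS S a' p : Set (lp (fun _ : X => ℂ) 2))
      = Metric.infDist (lp.single (E := fun _ : X => ℂ) 2 x (1 : ℂ))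
        (VS S a p : Set (lp (fun _ : X => ℂ) 2)) := by
  have hcx : c x ≠ 0 := by
    intro h0
    have := hc x
    rw [h0, norm_zero] at this
    exact zero_ne_one this
  have hkey : ∀ f : lp (fun _ : X => ℂ) 2, mu c hc f ∈ VS S a' p ↔ f ∈ VS S a p := by
    intro f
    have h1 : ∀ i, ∑ k ∈ S i, a' i k * mu c hc f (p i k)
        = w i * ∑ k ∈ S i, a i k * f (p i k) := by
      intro i
      rw [Finset.mul_sum]
      refine Finset.sum_congr rfl fun k hk => ?_
      rw [mu_apply, ← mul_assoc, h i k hk, mul_assoc]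
    constructor
    · intro hf i
      have h2 := hf i
      rw [h1] at h2
      exact (mul_eq_zero.1 h2).resolve_left (hw i)
    · intro hf i
      rw [h1, hf i, mul_zero]
  have hinv : ∀ y, ‖(c y)⁻¹‖ = 1 := fun y => by rw [norm_inv, hc, inv_one]
  have hc0 : ∀ y, c y ≠ 0 := by
    intro y h0
    have := hc y
    rw [h0, norm_zero] at this
    exact zero_ne_one this
  have himg : mu c hc '' (VS S a p : Set (lp (fun _ : X => ℂ) 2))
      = (VS S a' p : Set (lp (fun _ : X => ℂ) 2)) := by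
    ext F
    constructor
    · rintro ⟨f, hf, rfl⟩
      exact (hkey f).2 hf
    · intro hF
      have hback : mu c hc (mu (fun y => (c y)⁻¹) hinv F) = F := by
        ext y
        rw [mu_apply, mu_apply, ← mul_assoc, mul_inv_cancel₀ (hc0 y), one_mul]
      exact ⟨_, (hkey _).1 (by rw [hback]; exact hF), hback⟩
  -- scale the basis vector
  have hsc : mu c hc (lp.single (E := fun _ : X => ℂ) 2 x (1 : ℂ))
      = c x • lp.single (E := fun _ : X => ℂ) 2 x (1 : ℂ) := by
    ext y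
    rw [mu_apply, lp.coeFn_smul, Pi.smul_apply, smul_eq_mul]
    by_cases hy : y = x
    · rw [hy]
    · rw [lp.single_apply_ne (E := fun _ : X => ℂ) 2 x (1 : ℂ) hy, mul_zero, mul_zero]
  have h3 : Metric.infDist (c x • lp.single (E := fun _ : X => ℂ) 2 x (1 : ℂ))
      (VS S a' p : Set (lp (fun _ : X => ℂ) 2))
      = Metric.infDist (lp.single (E := fun _ : X => ℂ) 2 x (1 : ℂ))
        (VS S a p : Set (lp (fun _ : X => ℂ) 2)) := by
    rw [← hsc, ← himg, Metric.infDist_image (isometry_mu c hc)]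
  rw [← h3]
  have h4 : c x • (VS S a' p : Set (lp (fun _ : X => ℂ) 2)) = VS S a' p := by
    ext F
    rw [Set.mem_smul_set_iff_inv_smul_mem₀ hcx]
    constructor
    · intro hF
      have := (VS S a' p).smul_mem (c x) hF
      rwa [smul_inv_smul₀ hcx] at this
    · intro hF
      exact (VS S a' p).smul_mem _ hF
  conv_rhs => rw [← h4]
  rw [infDist_smul₀ hcx, hc, one_mul]

theorem infDist_twist' [inst : DecidableEq X] {ι κ : Type*} (S : ι → Finset κ)
    (a a' : ι → κ → ℂ) (p : ι → κ → X)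
    (c : X → ℂ) (hc : ∀ x, ‖c x‖ = 1) (w : ι → ℂ) (hw : ∀ i, w i ≠ 0)
    (h : ∀ i, ∀ k ∈ S i, a' i k * c (p i k) = w i * a i k) (x : X) :
    Metric.infDist (lp.single (E := fun _ : X => ℂ) 2 x (1 : ℂ))
        (VS S a' p : Set (lp (fun _ : X => ℂ) 2))
      = Metric.infDist (lp.single (E := fun _ : X => ℂ) 2 x (1 : ℂ))
        (VS S a p : Set (lp (fun _ : X => ℂ) 2)) := by
  have h1 : inst = fun a b => Classical.propDecidable (a = b) := Subsingleton.elim _ _
  subst h1
  exact infDist_twist S a a' p c hc w hw h x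

end

section
variable {G : Type u} [Group G]

/-- an extension of `φ` to a left equivariant function -/
theorem exists_left (K : Subgroup G) (φ : K →* Multiplicative ℤ) :
    ∃ ε : G → ℤ, ∀ (κ : K) (x : G), ε (κ * x) = Multiplicative.toAdd (φ κ) + ε x := by
  let s := QuotientGroup.rightRel K
  let rep : G → G := fun x => (Quotient.mk s x).out
  have hrep : ∀ x, x * (rep x)⁻¹ ∈ K := by
    intro x
    have h1 : (Quotient.mk s (rep x)) = Quotient.mk s x := Quotient.out_eq _
    have h2 := Quotient.exact h1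
    exact (QuotientGroup.rightRel_apply.1 h2)
  refine ⟨fun x => Multiplicative.toAdd (φ ⟨x * (rep x)⁻¹, hrep x⟩), ?_⟩
  intro κ x
  have h1 : rep (κ * x) = rep x := by
    have : (Quotient.mk s (κ * x)) = Quotient.mk s x := by
      apply Quotient.sound
      refine QuotientGroup.rightRel_apply.2 ?_
      rw [mul_inv_rev, mul_inv_cancel_left]
      exact K.inv_mem κ.2
    simp only [rep, this]
  have h2 : (⟨κ * x * (rep (κ * x))⁻¹, hrep (κ * x)⟩ : K) = κ * ⟨x * (rep x)⁻¹, hrep x⟩ := by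
    apply Subtype.ext
    change (κ : G) * x * (rep (κ * x))⁻¹ = κ * (x * (rep x)⁻¹)
    rw [h1, mul_assoc]
  simp only [h2, map_mul, toAdd_mul]

theorem exists_right (K : Subgroup G) (φ : K →* Multiplicative ℤ) :
    ∃ ε : G → ℤ, ∀ (κ : K) (x : G), ε (x * κ) = Multiplicative.toAdd (φ κ) + ε x := by
  obtain ⟨ε, h⟩ := exists_left K φ
  refine ⟨fun x => - ε x⁻¹, fun κ x => ?_⟩
  have h1 := h κ⁻¹ x⁻¹
  have h2 : (x * (κ : G))⁻¹ = ((κ⁻¹ : K) : G) * x⁻¹ := by
    rw [mul_inv_rev, Subgroup.coe_inv]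
  simp only [h2, h1, map_inv, toAdd_inv]
  ring

open Classical in
/-- kernel dimension of a group algebra element -/
noncomputable def kD (α : G →₀ ℂ) : ℝ :=
  1 - Metric.infDist (lp.single 2 (1 : G) (1 : ℂ)) (kern α) ^ 2

theorem kD_eq (α : G →₀ ℂ) : kD α = vd (LinearMap.ker (cop α : EE G Unit →ₗ[ℂ] EE G Unit)) :=
  kerDim_eq_vd α

theorem kD_ofF (T : Finset G) (a : T → ℂ) :
    kD (ofF T a) = kd (fun t : T => Ltr (t : G)) a := by
  rw [kD_eq, cop_ofF]
  rfl

theorem kern_ofF (T : Finset G) (a : T → ℂ) :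
    kern (ofF T a) = (VS (fun _ : G => (Finset.univ : Finset T)) (fun _ t => a t)
      (fun g t => (t : G)⁻¹ * g) : Set (lp (fun _ : G => ℂ) 2)) := by
  ext f
  have h1 : ∀ g : G, ∑ t : T, a t * f ((t : G)⁻¹ * g)
      = ∑ k ∈ (ofF T a).support, (ofF T a) k * f (k⁻¹ * g) := by
    intro g
    rw [Finset.sum_subset (ofF_support T a) (by
      intro x _ hx
      rw [Finsupp.notMem_support_iff.1 hx, zero_mul]),
      ← Finset.sum_coe_sort T]
    exact Finset.sum_congr rfl fun t _ => by rw [ofF_apply]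
  constructor
  · intro hf g
    rw [h1]; exact hf g
  · intro hf g
    rw [← h1]; exact hf g

theorem face_aux (T : Finset G) (a : T → ℂ) (K : Subgroup G) (φ : K →* Multiplicative ℤ) (g : G)
    (hK : ∀ t : T, g⁻¹ * (t : G) ∈ K) (m : ℤ)
    (hm : ∀ t : T, m ≤ Multiplicative.toAdd (φ ⟨g⁻¹ * t, hK t⟩)) :
    kD (ofF T a) ≤ kD (ofF T (fun t => if Multiplicative.toAdd (φ ⟨g⁻¹ * t, hK t⟩) = m
      then a t else 0)) := by
  obtain ⟨ε, hε⟩ := exists_left K φ
  have key := spec (fun t : T => Ltr (t : G)) (fun t => elem_eqv _ _ _) a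
    (fun t => (Multiplicative.toAdd (φ ⟨g⁻¹ * t, hK t⟩) - m).toNat) (kD (ofF T a)) (by
      intro c hc
      have hc0 : c ≠ 0 := by
        intro h0; rw [h0, norm_zero] at hc; exact zero_ne_one hc
      rw [← kD_ofF]
      unfold kD
      rw [kern_ofF, kern_ofF]
      apply le_of_eq
      congr 2
      symm
      refine infDist_twist (fun _ : G => (Finset.univ : Finset T)) (fun _ t => a t)
        (fun _ t => a t * c ^ (Multiplicative.toAdd (φ ⟨g⁻¹ * t, hK t⟩) - m).toNat)
        (fun g t => (t : G)⁻¹ * g) (fun x => c ^ ε x)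
        (fun x => by rw [norm_zpow, hc, one_zpow]) (fun x => c ^ (ε (g⁻¹ * x) - m))
        (fun x => zpow_ne_zero _ hc0) ?_ 1
      intro x t _
      have h1 : ε ((t : G)⁻¹ * x) = - Multiplicative.toAdd (φ ⟨g⁻¹ * t, hK t⟩) + ε (g⁻¹ * x) := by
        have h2 := hε (⟨g⁻¹ * t, hK t⟩⁻¹) (g⁻¹ * x)
        rw [map_inv, toAdd_inv] at h2
        rw [← h2]
        congr 1
        change (t : G)⁻¹ * x = (g⁻¹ * (t : G))⁻¹ * (g⁻¹ * x)
        group
      change a t * c ^ (Multiplicative.toAdd (φ ⟨g⁻¹ * t, hK t⟩) - m).toNat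
        * c ^ ε ((t : G)⁻¹ * x) = c ^ (ε (g⁻¹ * x) - m) * a t
      rw [mul_assoc, ← zpow_natCast, Int.toNat_of_nonneg (by have := hm t; omega),
        ← zpow_add₀ hc0, h1, mul_comm]
      congr 2
      ring)
  rw [kD_ofF T (fun t => if Multiplicative.toAdd (φ ⟨g⁻¹ * t, hK t⟩) = m then a t else 0)]
  refine key.trans (le_of_eq ?_)
  congr 1
  funext t
  have := hm t
  by_cases h : Multiplicative.toAdd (φ ⟨g⁻¹ * t, hK t⟩) = m
  · rw [if_pos h, if_pos (by rw [h]; simp)]
  · rw [if_neg h, if_neg (by omega)]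

open Classical in
/-- **Faces.** -/
theorem face (α : G →₀ ℂ) (K : Subgroup G) (φ : K →* Multiplicative ℤ) (g : G)
    (hK : ∀ t ∈ α.support, g⁻¹ * t ∈ K) (m : ℤ)
    (hm : ∀ t (ht : t ∈ α.support), m ≤ Multiplicative.toAdd (φ ⟨g⁻¹ * t, hK t ht⟩)) :
    kD α ≤ kD (α.filter fun t => ∃ h : g⁻¹ * t ∈ K, Multiplicative.toAdd (φ ⟨g⁻¹ * t, h⟩) = m) := by
  have h1 := face_aux α.support (fun t => α t) K φ g (fun t => hK t t.2) m (fun t => hm t t.2)
  rw [ofF_eq α.support α subset_rfl] at h1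
  refine h1.trans (le_of_eq ?_)
  congr 1
  ext x
  by_cases hx : x ∈ α.support
  · have h2 := ofF_apply α.support (fun t => if Multiplicative.toAdd
      (φ ⟨g⁻¹ * t, hK t t.2⟩) = m then α t else 0) ⟨x, hx⟩
    rw [h2, Finsupp.filter_apply]
    by_cases h : Multiplicative.toAdd (φ ⟨g⁻¹ * x, hK x hx⟩) = m
    · rw [if_pos h, if_pos ⟨hK x hx, h⟩]
    · rw [if_neg h, if_neg (fun ⟨_, h'⟩ => h h')]
  · have h3 : α x = 0 := Finsupp.notMem_support_iff.1 hx
    have h4 : ofF α.support (fun t => if Multiplicative.toAdd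
      (φ ⟨g⁻¹ * t, hK t t.2⟩) = m then α t else 0) x = 0 := by
      by_contra hne
      exact hx (ofF_support _ _ (Finsupp.mem_support_iff.2 hne))
    rw [h4, Finsupp.filter_apply, h3]
    split_ifs <;> rfl

end

/-! ### Matrices -/

section
variable {G : Type u} [Group G] {m l : ℕ} {ι : Type z} [Fintype ι]

theorem kernM_matM (h : ι → G) (k : ι → Fin m) (j : ι → Fin l) (a : ι → ℂ) :
    kernM (matM h k j a) = (VS (fun p : Fin l × G => Finset.univ.filter fun i => j i = p.1)
      (fun _ i => a i) (fun p i => (k i, p.2 * (h i)⁻¹)) :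
        Set (lp (fun _ : Fin m × G => ℂ) 2)) := by
  ext x
  have key : ∀ (j' : Fin l) (g : G), ∑ i ∈ Finset.univ.filter (fun i => j i = j'),
      a i * x (k i, g * (h i)⁻¹) = ∑ k' : Fin m, ∑ y ∈ (matM h k j a k' j').support,
        x (k', g * y⁻¹) * matM h k j a k' j' y := by
    intro j' g
    rw [sum_matM, Finset.sum_filter]
    refine Finset.sum_congr rfl fun i _ => ?_
    by_cases hi : j i = j'
    · rw [if_pos hi, if_pos hi.symm]
    · rw [if_neg hi, if_neg (fun hh => hi hh.symm), mul_zero]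
  constructor
  · intro hx p
    have := hx p.1 p.2
    rw [← key] at this
    exact this
  · intro hx j' g
    rw [← key]
    exact hx (j', g)

open Classical in
theorem twistM (h : ι → G) (k : ι → Fin m) (j : ι → Fin l) (a a' : ι → ℂ)
    (c : Fin m × G → ℂ) (hc : ∀ x, ‖c x‖ = 1) (w : Fin l × G → ℂ) (hw : ∀ x, w x ≠ 0)
    (H : ∀ i g, a' i * c (k i, g * (h i)⁻¹) = w (j i, g) * a i) :
    kerDimM (matM h k j a') = kerDimM (matM h k j a) := by
  unfold kerDimM
  refine Finset.sum_congr rfl fun i _ => ?_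
  rw [kernM_matM, kernM_matM]
  congr 2
  refine infDist_twist' (X := Fin m × G)
    (fun p : Fin l × G => Finset.univ.filter fun i => j i = p.1) (fun _ i => a i)
    (fun _ i => a' i) (fun p i => (k i, p.2 * (h i)⁻¹)) c hc w hw ?_ (i, 1)
  rintro ⟨j', g⟩ t ht
  have hj : j t = j' := (Finset.mem_filter.1 ht).2
  subst hj
  exact H t g

theorem faceF (h : ι → G) (k : ι → Fin m) (j : ι → Fin l) (a : ι → ℂ) (e : ι → ℕ)
    (E : Fin m × G → ℤ) (F : Fin l × G → ℤ)
    (H : ∀ i g, a i ≠ 0 → (e i : ℤ) + E (k i, g * (h i)⁻¹) = F (j i, g)) :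
    kerDimM (matM h k j a) ≤ kerDimM (matM h k j fun i => if e i = 0 then a i else 0) := by
  rw [kerDimM_eq, kerDimM_eq]
  refine spec (famR h k j) (famR_eqv h k j) a e _ fun z hz => ?_
  have hz0 : z ≠ 0 := by
    intro h0; rw [h0, norm_zero] at hz; exact zero_ne_one hz
  rw [← kerDimM_eq, ← kerDimM_eq]
  apply le_of_eq
  symm
  refine twistM h k j a _ (fun x => z ^ E x) (fun x => by rw [norm_zpow, hz, one_zpow])
    (fun x => z ^ F x) (fun x => zpow_ne_zero _ hz0) fun i g => ?_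
  by_cases h0 : a i = 0
  · simp only [h0, zero_mul, mul_zero]
  · rw [← H i g h0, zpow_add₀ hz0, zpow_natCast]
    ring

open Classical in
/-- degree of a term -/
noncomputable def dg (K : Subgroup G) (φ : K →* Multiplicative ℤ) (x : Fin m → G) (y : Fin l → G)
    (r : Fin m → ℤ) (c : Fin l → ℤ) (i : Fin m) (j : Fin l) (t : G) : ℕ :=
  if hh : x i * t * (y j)⁻¹ ∈ K then (Multiplicative.toAdd (φ ⟨_, hh⟩) + r i - c j).toNat else 0

open Classical in
/-- **Initial matrices.** -/
theorem faceM (A : Fin m → Fin l → (G →₀ ℂ)) (K : Subgroup G) (φ : K →* Multiplicative ℤ)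
    (x : Fin m → G) (y : Fin l → G) (r : Fin m → ℤ) (c : Fin l → ℤ)
    (hK : ∀ i j, ∀ t ∈ (A i j).support, x i * t * (y j)⁻¹ ∈ K)
    (hm : ∀ i j t (ht : t ∈ (A i j).support),
      c j ≤ Multiplicative.toAdd (φ ⟨x i * t * (y j)⁻¹, hK i j t ht⟩) + r i) :
    kerDimM A ≤ kerDimM (fun i j => (A i j).filter fun t =>
      ∃ h : x i * t * (y j)⁻¹ ∈ K,
        Multiplicative.toAdd (φ ⟨x i * t * (y j)⁻¹, h⟩) + r i = c j) := by
  obtain ⟨ε, hε⟩ := exists_right K φ
  obtain ⟨T, hsub⟩ : ∃ T : Finset G, ∀ k j, (A k j).support ⊆ T := by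
    refine ⟨Finset.univ.biUnion fun i : Fin m =>
      Finset.univ.biUnion fun j : Fin l => (A i j).support, fun k j x hx => ?_⟩
    simp only [Finset.mem_biUnion, Finset.mem_univ, true_and]
    exact ⟨k, j, hx⟩
  have key := faceF (fun i : T × Fin m × Fin l => (i.1 : G)) (fun i => i.2.1) (fun i => i.2.2)
    (coefT T A) (fun i => dg K φ x y r c i.2.1 i.2.2 i.1)
    (fun p => ε (p.2 * (x p.1)⁻¹) - r p.1) (fun p => ε (p.2 * (y p.1)⁻¹) - c p.1) (by
      rintro ⟨t, i, j⟩ g h0
      have hmem : (t : G) ∈ (A i j).support := Finsupp.mem_support_iff.2 h0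
      have hK' := hK i j t hmem
      have hm' := hm i j t hmem
      have h1 : ε (g * (t : G)⁻¹ * (x i)⁻¹)
          = - Multiplicative.toAdd (φ ⟨_, hK'⟩) + ε (g * (y j)⁻¹) := by
        have h2 := hε (⟨_, hK'⟩⁻¹) (g * (y j)⁻¹)
        rw [map_inv, toAdd_inv] at h2
        rw [← h2]
        congr 1
        change g * (t : G)⁻¹ * (x i)⁻¹ = g * (y j)⁻¹ * (x i * t * (y j)⁻¹)⁻¹
        group
      change ((dg K φ x y r c i j t : ℕ) : ℤ) + (ε (g * (t : G)⁻¹ * (x i)⁻¹) - r i)
        = ε (g * (y j)⁻¹) - c j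
      unfold dg
      rw [dif_pos hK', Int.toNat_of_nonneg (by omega), h1]
      ring)
  rw [matM_coefT T A hsub] at key
  refine key.trans (le_of_eq ?_)
  congr 1
  have hsubB : ∀ k j, ((A k j).filter fun t =>
      ∃ h : x k * t * (y j)⁻¹ ∈ K,
        Multiplicative.toAdd (φ ⟨x k * t * (y j)⁻¹, h⟩) + r k = c j).support ⊆ T := by
    intro k j
    refine Finset.Subset.trans ?_ (hsub k j)
    rw [Finsupp.support_filter]
    exact Finset.filter_subset _ _
  refine Eq.trans ?_ (matM_coefT T _ hsubB)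
  congr 1
  funext t
  obtain ⟨t, i, j⟩ := t
  change (if dg K φ x y r c i j t = 0 then A i j t else 0) = ((A i j).filter fun t =>
      ∃ h : x i * t * (y j)⁻¹ ∈ K,
        Multiplicative.toAdd (φ ⟨x i * t * (y j)⁻¹, h⟩) + r i = c j) t
  rw [Finsupp.filter_apply]
  by_cases h0 : A i j t = 0
  · rw [h0]
    split_ifs <;> rfl
  · have hmem : (t : G) ∈ (A i j).support := Finsupp.mem_support_iff.2 h0
    have hK' := hK _ _ _ hmem
    have hm' := hm _ _ _ hmem
    have he : dg K φ x y r c i j t = (Multiplicative.toAdd (φ ⟨_, hK'⟩) + r i - c j).toNat := by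
      unfold dg
      rw [dif_pos hK']
    by_cases h1 : Multiplicative.toAdd (φ ⟨_, hK'⟩) + r i = c j
    · rw [if_pos (by rw [he, h1]; simp), if_pos ⟨hK', h1⟩]
    · rw [if_neg (by rw [he]; omega), if_neg (fun ⟨_, h'⟩ => h1 h')]

end

end Pool.Agent.Q91.TE
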