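import Pool.Agent.Q91.TE.Face

set_option autoImplicit false
set_option linter.unusedSectionVars false

/-! Restriction of an element of the group algebra to a fibre of a homomorphism to a locally
indicable group. -/

namespace Pool.Agent.Q91.TE

open Pool.Agent.W649.ZL

universe u v

theorem halfFace {X : Type*} (S : Finset X) (v : X → ℤ) (s t : X) (hs : s ∈ S) (ht : t ∈ S)
    (hne : v s ≠ v t) :
    ∃ ε : ℤ, (ε = 1 ∨ ε = -1) ∧ ∃ m : ℤ, (∀ x ∈ S, m ≤ ε * v x) ∧ (∃ x ∈ S, ε * v x = m) ∧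
      2 * (S.filter fun x => ε * v x = m).card ≤ S.card := by
  classical
  obtain ⟨a, ha, hamin⟩ := S.exists_min_image v ⟨s, hs⟩
  obtain ⟨b, hb, hbmax⟩ := S.exists_max_image v ⟨s, hs⟩
  have hab : v a < v b := by
    rcases lt_or_gt_of_ne hne with h | h
    · exact lt_of_le_of_lt (hamin s hs) (lt_of_lt_of_le h (hbmax t ht))
    · exact lt_of_le_of_lt (hamin t ht) (lt_of_lt_of_le h (hbmax s hs))
  have hdisj : Disjoint (S.filter fun x => 1 * v x = v a) (S.filter fun x => -1 * v x = - v b) := by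
    rw [Finset.disjoint_left]
    intro x h1 h2
    have h3 := (Finset.mem_filter.1 h1).2
    have h4 := (Finset.mem_filter.1 h2).2
    omega
  have hcard := Finset.card_union_of_disjoint hdisj
  have hle : ((S.filter fun x => 1 * v x = v a) ∪ (S.filter fun x => -1 * v x = - v b)).card
      ≤ S.card := Finset.card_le_card (Finset.union_subset (Finset.filter_subset _ _)
        (Finset.filter_subset _ _))
  by_cases h : 2 * (S.filter fun x => 1 * v x = v a).card ≤ S.card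
  · exact ⟨1, Or.inl rfl, v a, fun x hx => by have := hamin x hx; omega, ⟨a, ha, by ring⟩, h⟩
  · refine ⟨-1, Or.inr rfl, - v b, fun x hx => by have := hbmax x hx; omega, ⟨b, hb, by ring⟩, ?_⟩
    omega

variable {G : Type u} [Group G]

open Classical in
theorem fiber (K : Subgroup G) {Q : Type v} [Group Q] (q : K →* Q)
    (hQ : ∀ L : Subgroup Q, L.FG → L ≠ ⊥ → ∃ φ : L →* Multiplicative ℤ, ∃ k, φ k ≠ 1) (g : G)
    (n : ℕ) : ∀ α : G →₀ ℂ, α.support.card = n → α ≠ 0 → ∀ hK : (∀ t ∈ α.support, g⁻¹ * t ∈ K),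
      ∃ γ : Q, (α.filter fun t => ∃ h : g⁻¹ * t ∈ K, q ⟨g⁻¹ * t, h⟩ = γ) ≠ 0 ∧
        kD α ≤ kD (α.filter fun t => ∃ h : g⁻¹ * t ∈ K, q ⟨g⁻¹ * t, h⟩ = γ) ∧
        ((∃ s, ∃ hs : s ∈ α.support, ∃ t, ∃ ht : t ∈ α.support,
            q ⟨g⁻¹ * s, hK s hs⟩ ≠ q ⟨g⁻¹ * t, hK t ht⟩) →
          2 * (α.filter fun t => ∃ h : g⁻¹ * t ∈ K, q ⟨g⁻¹ * t, h⟩ = γ).support.card
            ≤ α.support.card) := by
  induction n using Nat.strong_induction_on with
  | _ n ih =>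
  intro α hn hα hK
  obtain ⟨s0, hs0⟩ := Finsupp.support_nonempty_iff.2 hα
  by_cases hall : ∀ t (ht : t ∈ α.support), q ⟨g⁻¹ * t, hK t ht⟩ = q ⟨g⁻¹ * s0, hK s0 hs0⟩
  · -- all values are equal
    refine ⟨q ⟨g⁻¹ * s0, hK s0 hs0⟩, ?_⟩
    have h1 : (α.filter fun t => ∃ h : g⁻¹ * t ∈ K, q ⟨g⁻¹ * t, h⟩
        = q ⟨g⁻¹ * s0, hK s0 hs0⟩) = α := by
      rw [Finsupp.filter_eq_self_iff]
      intro x hx
      have hx' := Finsupp.mem_support_iff.2 hx
      exact ⟨hK x hx', hall x hx'⟩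
    rw [h1]
    refine ⟨hα, le_refl _, ?_⟩
    rintro ⟨s, hs, t, ht, hne⟩
    exact absurd ((hall s hs).trans (hall t ht).symm) hne
  · push Not at hall
    obtain ⟨s1, hs1, hne1⟩ := hall
    -- the subgroup of `Q` generated by the values
    let vq : α.support → Q := fun t => (q ⟨g⁻¹ * s0, hK s0 hs0⟩)⁻¹ * q ⟨g⁻¹ * t, hK t t.2⟩
    let L : Subgroup Q := Subgroup.closure (Set.range vq)
    have hLmem : ∀ t : α.support, vq t ∈ L := fun t => Subgroup.subset_closure ⟨t, rfl⟩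
    have hLfg : L.FG := by
      rw [Subgroup.fg_iff]
      exact ⟨Set.range vq, rfl, Set.finite_range vq⟩
    have hLne : L ≠ ⊥ := by
      intro h0
      have h1 : vq ⟨s1, hs1⟩ ∈ (⊥ : Subgroup Q) := by rw [← h0]; exact hLmem _
      rw [Subgroup.mem_bot] at h1
      apply hne1
      have h2 : (q ⟨g⁻¹ * s0, hK s0 hs0⟩)⁻¹ * q ⟨g⁻¹ * s1, hK s1 hs1⟩ = 1 := h1
      rw [inv_mul_eq_one] at h2
      exact h2.symm
    obtain ⟨ψ, k, hk⟩ := hQ L hLfg hLne
    have hex : ∃ t : α.support, ψ ⟨vq t, hLmem t⟩ ≠ 1 := by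
      by_contra hcon
      push Not at hcon
      apply hk
      have h1 : ∀ x (hx : x ∈ L), ψ ⟨x, hx⟩ = 1 := by
        intro x hx
        refine Subgroup.closure_induction (p := fun x hx => ψ ⟨x, hx⟩ = 1) ?_ ?_ ?_ ?_ hx
        · rintro _ ⟨t, rfl⟩
          exact hcon t
        · exact map_one ψ
        · intro x y hx hy h1 h2
          have : (⟨x * y, mul_mem hx hy⟩ : L) = ⟨x, hx⟩ * ⟨y, hy⟩ := rfl
          rw [this, map_mul, h1, h2, one_mul]
        · intro x hx h1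
          have : (⟨x⁻¹, inv_mem hx⟩ : L) = ⟨x, hx⟩⁻¹ := rfl
          rw [this, map_inv, h1, inv_one]
      exact h1 k.1 k.2
    obtain ⟨s2, hs2⟩ := hex
    -- integer values
    let v : G → ℤ := fun t => if h : t ∈ α.support then
      Multiplicative.toAdd (ψ ⟨vq ⟨t, h⟩, hLmem _⟩) else 0
    have hv : ∀ t (h : t ∈ α.support), v t = Multiplicative.toAdd (ψ ⟨vq ⟨t, h⟩, hLmem _⟩) :=
      fun t h => dif_pos h
    have hv0 : v s0 = 0 := by
      rw [hv s0 hs0]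
      have : (⟨vq ⟨s0, hs0⟩, hLmem _⟩ : L) = 1 := by
        apply Subtype.ext
        exact inv_mul_cancel _
      rw [this, map_one, toAdd_one]
    have hv2 : v s2 ≠ 0 := by
      rw [hv s2 s2.2]
      intro h
      apply hs2
      exact toAdd_eq_zero.1 h
    obtain ⟨ε, hε, m, hmin, ⟨s3, hs3, hs3m⟩, hhalf⟩ :=
      halfFace α.support v s0 s2 hs0 s2.2 (by rw [hv0]; exact hv2.symm)
    -- the subgroup of `G`
    let K2 : Subgroup K := L.comap q
    let K1 : Subgroup G := K2.map K.subtype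
    let e : K2 ≃* K1 := Subgroup.equivMapOfInjective K2 K.subtype K.subtype_injective
    let q2 : K2 →* L := q.subgroupComap L
    let φ : K1 →* Multiplicative ℤ := (ψ.comp (q2.comp e.symm.toMonoidHom)) ^ ε
    have hvmem : ∀ t (ht : t ∈ α.support), s0⁻¹ * t ∈ K := by
      intro t ht
      have h1 : s0⁻¹ * t = (g⁻¹ * s0)⁻¹ * (g⁻¹ * t) := by group
      rw [h1]
      exact mul_mem (inv_mem (hK s0 hs0)) (hK t ht)
    have hqv : ∀ t (ht : t ∈ α.support), q ⟨s0⁻¹ * t, hvmem t ht⟩ = vq ⟨t, ht⟩ := by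
      intro t ht
      have h1 : (⟨s0⁻¹ * t, hvmem t ht⟩ : K) = ⟨g⁻¹ * s0, hK s0 hs0⟩⁻¹ * ⟨g⁻¹ * t, hK t ht⟩ := by
        apply Subtype.ext
        change s0⁻¹ * t = (g⁻¹ * s0)⁻¹ * (g⁻¹ * t)
        group
      rw [h1, map_mul, map_inv]
    have hK2mem : ∀ t (ht : t ∈ α.support), (⟨s0⁻¹ * t, hvmem t ht⟩ : K) ∈ K2 := by
      intro t ht
      rw [Subgroup.mem_comap, hqv t ht]
      exact hLmem _
    have hK1 : ∀ t ∈ α.support, s0⁻¹ * t ∈ K1 := fun t ht =>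
      ⟨⟨s0⁻¹ * t, hvmem t ht⟩, hK2mem t ht, rfl⟩
    have hφ : ∀ t (ht : t ∈ α.support) (h : s0⁻¹ * t ∈ K1),
        Multiplicative.toAdd (φ ⟨s0⁻¹ * t, h⟩) = ε * v t := by
      intro t ht h
      have h1 : e.symm ⟨s0⁻¹ * t, h⟩ = ⟨⟨s0⁻¹ * t, hvmem t ht⟩, hK2mem t ht⟩ := by
        rw [MulEquiv.symm_apply_eq]
        rfl
      have h2 : φ ⟨s0⁻¹ * t, h⟩ = (ψ (q2 (e.symm ⟨s0⁻¹ * t, h⟩))) ^ ε := rfl
      have h3 : q2 ⟨⟨s0⁻¹ * t, hvmem t ht⟩, hK2mem t ht⟩ = ⟨vq ⟨t, ht⟩, hLmem _⟩ :=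
        Subtype.ext (hqv t ht)
      rw [h2, h1, h3, toAdd_zpow, hv t ht, smul_eq_mul]
    have hface := face α K1 φ s0 hK1 m (fun t ht => by rw [hφ t ht]; exact hmin t ht)
    set β := α.filter fun t => ∃ h : s0⁻¹ * t ∈ K1, Multiplicative.toAdd (φ ⟨s0⁻¹ * t, h⟩) = m
      with hβ
    have hβval : ∀ t (h : s0⁻¹ * t ∈ K1), Multiplicative.toAdd (φ ⟨s0⁻¹ * t, h⟩) = m →
        β t = α t := by
      intro t h h'
      rw [hβ, Finsupp.filter_apply, if_pos ⟨h, h'⟩]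
    have hβzero : ∀ t, α t = 0 → β t = 0 := by
      intro t h
      rw [hβ, Finsupp.filter_apply, h]
      split_ifs <;> rfl
    have hβsupp : ∀ t, t ∈ β.support ↔ t ∈ α.support ∧ ε * v t = m := by
      intro t
      rw [hβ, Finsupp.support_filter, Finset.mem_filter]
      constructor
      · rintro ⟨h1, h2, h3⟩
        exact ⟨h1, by rw [← hφ t h1 h2]; exact h3⟩
      · rintro ⟨h1, h2⟩
        exact ⟨h1, hK1 t h1, by rw [hφ t h1]; exact h2⟩
    clear_value β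
    have hβeq : β.support = α.support.filter fun x => ε * v x = m := by
      ext t
      rw [hβsupp, Finset.mem_filter]
    have hβ0 : β ≠ 0 := by
      intro h0
      have : s3 ∈ β.support := (hβsupp s3).2 ⟨hs3, hs3m⟩
      rw [h0] at this
      simp at this
    have hβcard : 2 * β.support.card ≤ α.support.card := by rw [hβeq]; exact hhalf
    have hβpos : 0 < β.support.card := Finset.card_pos.2 (Finsupp.support_nonempty_iff.2 hβ0)
    have hβle : β.support ⊆ α.support := by rw [hβeq]; exact Finset.filter_subset _ _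
    obtain ⟨γ, h1, h2, _⟩ := ih β.support.card (by omega) β rfl hβ0
      (fun t ht => hK t (hβle ht))
    have hsame : (β.filter fun t => ∃ h : g⁻¹ * t ∈ K, q ⟨g⁻¹ * t, h⟩ = γ)
        = α.filter fun t => ∃ h : g⁻¹ * t ∈ K, q ⟨g⁻¹ * t, h⟩ = γ := by
      obtain ⟨t1, ht1⟩ := Finsupp.support_nonempty_iff.2 h1
      rw [Finsupp.support_filter, Finset.mem_filter] at ht1
      obtain ⟨ht1, hk1, hq1⟩ := ht1
      have ht1' := (hβsupp t1).1 ht1
      ext t
      rw [Finsupp.filter_apply, Finsupp.filter_apply]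
      split_ifs with h
      · obtain ⟨hk, hqt⟩ := h
        by_cases htα : t ∈ α.support
        · have hvt : v t = v t1 := by
            rw [hv t htα, hv t1 ht1'.1]
            congr 3
            change (q ⟨g⁻¹ * s0, hK s0 hs0⟩)⁻¹ * q ⟨g⁻¹ * t, hk⟩
              = (q ⟨g⁻¹ * s0, hK s0 hs0⟩)⁻¹ * q ⟨g⁻¹ * t1, hk1⟩
            rw [hqt, hq1]
          exact hβval t (hK1 t htα) (by rw [hφ t htα, hvt]; exact ht1'.2)
        · have h3 : α t = 0 := Finsupp.notMem_support_iff.1 htα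
          rw [hβzero t h3, h3]
      · rfl
    rw [hsame] at h1 h2
    refine ⟨γ, h1, hface.trans h2, fun _ => ?_⟩
    have h3 : (α.filter fun t => ∃ h : g⁻¹ * t ∈ K, q ⟨g⁻¹ * t, h⟩ = γ).support ⊆ β.support := by
      rw [← hsame, Finsupp.support_filter]
      exact Finset.filter_subset _ _
    have := Finset.card_le_card h3
    omega

/-- `t` is in `g K` and `q (g⁻¹ t) = γ` -/
def InFib {K : Subgroup G} {Q : Type v} [Group Q] (q : K →* Q) (g : G) (γ : Q) (t : G) : Prop :=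
  ∃ h : g⁻¹ * t ∈ K, q ⟨g⁻¹ * t, h⟩ = γ

theorem filter_inst (P : G → Prop) (i1 i2 : DecidablePred P) (α : G →₀ ℂ) :
    @Finsupp.filter G ℂ _ P i1 α = @Finsupp.filter G ℂ _ P i2 α := by
  have : i1 = i2 := Subsingleton.elim _ _
  subst this
  rfl

open Classical in
theorem fiber' (K : Subgroup G) {Q : Type v} [Group Q] (q : K →* Q)
    (hQ : ∀ L : Subgroup Q, L.FG → L ≠ ⊥ → ∃ φ : L →* Multiplicative ℤ, ∃ k, φ k ≠ 1) (g : G)
    (α : G →₀ ℂ) (hα : α ≠ 0) (hK : ∀ t ∈ α.support, g⁻¹ * t ∈ K) :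
      ∃ γ : Q, α.filter (InFib q g γ) ≠ 0 ∧ kD α ≤ kD (α.filter (InFib q g γ)) ∧
        ((∃ s, ∃ hs : s ∈ α.support, ∃ t, ∃ ht : t ∈ α.support,
            q ⟨g⁻¹ * s, hK s hs⟩ ≠ q ⟨g⁻¹ * t, hK t ht⟩) →
          2 * (α.filter (InFib q g γ)).support.card ≤ α.support.card) := by
  obtain ⟨γ, h1, h2, h3⟩ := fiber K q hQ g _ α rfl hα hK
  have e : (α.filter fun t => ∃ h : g⁻¹ * t ∈ K, q ⟨g⁻¹ * t, h⟩ = γ) = α.filter (InFib q g γ) :=
    filter_inst _ _ _ _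
  rw [e] at h1 h2 h3
  exact ⟨γ, h1, h2, h3⟩

end Pool.Agent.Q91.TE
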