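import Pool.Agent.Q91.TE.One
import Mathlib.Analysis.Complex.Cardinality

set_option autoImplicit false
set_option linter.unusedSectionVars false

/-! Kernel dimensions under injective homomorphisms and over products with free abelian groups. -/

namespace Pool.Agent.Q91.TE

open Pool.Agent.W649.ZL Filter Topology

universe u v w z u'

section
variable {G : Type u} [Group G] {G' : Type u'} [Group G'] {K : Type v} {L : Type w} {ι : Type z}
  [Fintype K] [Fintype L] [DecidableEq K] [DecidableEq L] [Fintype ι]

/-- induction of finitely supported vectors -/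
noncomputable def ind (φ : G →* G') (K : Type v) : ((G × K) →₀ ℂ) →ₗ[ℂ] ((G' × K) →₀ ℂ) :=
  Finsupp.linearCombination ℂ fun x => Finsupp.single (φ x.1, x.2) 1

theorem ind_single (φ : G →* G') (x : G × K) (c : ℂ) :
    ind φ K (Finsupp.single x c) = Finsupp.single (φ x.1, x.2) c := by
  unfold ind
  rw [Finsupp.linearCombination_single, Finsupp.smul_single, smul_eq_mul, mul_one]

theorem ind_apply (φ : G →* G') (hφ : Function.Injective φ) (v : (G × K) →₀ ℂ) (x : G × K) :
    ind φ K v (φ x.1, x.2) = v x := by
  classical
  induction v using Finsupp.induction_linear with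
  | zero => rw [map_zero]; rfl
  | add f g hf hg => rw [map_add, Finsupp.add_apply, Finsupp.add_apply, hf, hg]
  | single y c =>
    rw [ind_single, Finsupp.single_apply, Finsupp.single_apply]
    by_cases h : y = x
    · rw [if_pos h, if_pos (by rw [h])]
    · rw [if_neg h, if_neg]
      intro h2
      apply h
      obtain ⟨h3, h4⟩ := Prod.mk.inj h2
      exact Prod.ext (hφ h3) h4

theorem ind_T0 (φ : G →* G') (h : ι → G) (k : ι → K) (j : ι → L) (a : ι → ℂ)
    (v : (G × K) →₀ ℂ) :
    ind φ L (T0 h k j a v) = T0 (fun i => φ (h i)) k j a (ind φ K v) := by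
  induction v using Finsupp.induction_linear with
  | zero => simp only [map_zero]
  | add f g hf hg => simp only [map_add, hf, hg]
  | single x c =>
    rw [ind_single, T0, Finsupp.linearCombination_single, T0, Finsupp.linearCombination_single,
      map_smul, map_sum]
    congr 1
    refine Finset.sum_congr rfl fun i _ => ?_
    change ind φ L (if x.2 = k i then _ else 0) = (if x.2 = k i then _ else 0)
    split_ifs with hi
    · rw [ind_single, map_mul, map_inv]
    · rw [map_zero]

theorem ind_S0 (φ : G →* G') (h : ι → G) (k : ι → K) (j : ι → L) (b : ι → ℂ)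
    (v : (G × L) →₀ ℂ) :
    ind φ K (S0 h k j b v) = S0 (fun i => φ (h i)) k j b (ind φ L v) := by
  induction v using Finsupp.induction_linear with
  | zero => simp only [map_zero]
  | add f g hf hg => simp only [map_add, hf, hg]
  | single x c =>
    rw [ind_single, S0, Finsupp.linearCombination_single, S0, Finsupp.linearCombination_single,
      map_smul, map_sum]
    congr 1
    refine Finset.sum_congr rfl fun i _ => ?_
    change ind φ K (if x.2 = j i then _ else 0) = (if x.2 = j i then _ else 0)
    split_ifs with hi
    · rw [ind_single, map_mul]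
    · rw [map_zero]

theorem ind_C0_pow (φ : G →* G') (h : ι → G) (k : ι → K) (j : ι → L) (a : ι → ℂ) (c : ℝ) (n : ℕ)
    (v : (G × K) →₀ ℂ) :
    ind φ K ((C0 h k j a c ^ n) v) = (C0 (fun i => φ (h i)) k j a c ^ n) (ind φ K v) := by
  have h1 : ∀ v : (G × K) →₀ ℂ, ind φ K (C0 h k j a c v)
      = C0 (fun i => φ (h i)) k j a c (ind φ K v) := by
    intro v
    unfold C0
    simp only [LinearMap.sub_apply, LinearMap.id_apply, LinearMap.smul_apply,
      LinearMap.comp_apply, map_sub, map_smul]
    rw [ind_S0, ind_T0]
  induction n with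
  | zero => rfl
  | succ n ih =>
    rw [pow_succ', pow_succ']
    change ind φ K (C0 h k j a c ((C0 h k j a c ^ n) v))
      = C0 (fun i => φ (h i)) k j a c ((C0 (fun i => φ (h i)) k j a c ^ n) (ind φ K v))
    rw [h1, ih]

/-- Kernel dimensions do not change under injective homomorphisms of groups. -/
theorem inj_hom (φ : G →* G') (hφ : Function.Injective φ) (h : ι → G) (k : ι → K) (j : ι → L)
    (a : ι → ℂ) : kerDimM (matM (fun i => φ (h i)) k j a) = kerDimM (matM h k j a) := by
  set M : ℝ := ∑ i, ‖a i‖ with hM
  set c : ℝ := 1 / (M ^ 2 + 1) with hcdef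
  have hpos : 0 < M ^ 2 + 1 := by positivity
  have hc : 0 < c := by positivity
  have hc2 : c * M ^ 2 ≤ 1 := by
    rw [hcdef, one_div, inv_mul_le_iff₀ hpos]
    linarith
  have h1 := trace_lim h k j a c hc hc2
  have h2 := trace_lim (fun i => φ (h i)) k j a c hc hc2
  have h3 : ∀ n (k' : K), ((C0 (fun i => φ (h i)) k j a c ^ n)
      (Finsupp.single ((1 : G'), k') 1)) (1, k')
      = ((C0 h k j a c ^ n) (Finsupp.single ((1 : G), k') 1)) (1, k') := by
    intro n k'
    have h4 : Finsupp.single ((1 : G'), k') (1 : ℂ) = ind φ K (Finsupp.single ((1 : G), k') 1) := by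
      rw [ind_single, map_one]
    rw [h4, ← ind_C0_pow]
    have h5 := ind_apply φ hφ ((C0 h k j a c ^ n) (Finsupp.single ((1 : G), k') 1)) (1, k')
    change ind φ K _ (φ 1, k') = _ at h5
    rw [map_one] at h5
    exact h5
  simp only [h3] at h2
  have h6 := tendsto_nhds_unique h1 h2
  rw [kerDimM_eq, kerDimM_eq]
  exact_mod_cast h6.symm

end

section
variable {G : Type u} [Group G] {m l : ℕ} {ι : Type z} [Fintype ι]

/-- the elements of the product with a free abelian group -/
def prR {r : ℕ} (h : ι → G) (e : ι → Fin r → ℤ) : ι → G × Multiplicative (Fin r → ℤ) :=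
  fun i => (h i, Multiplicative.ofAdd (e i))

/-- evaluation of monomials -/
noncomputable def evR {r : ℕ} (a : ι → ℂ) (e : ι → Fin r → ℤ) (c : Fin r → ℂ) : ι → ℂ :=
  fun i => a i * ∏ s, c s ^ e i s

/-- splitting off the last coordinate -/
def lastHom (G : Type u) [Group G] (r : ℕ) :
    (G × Multiplicative (Fin r → ℤ)) × Multiplicative ℤ →* G × Multiplicative (Fin (r + 1) → ℤ) where
  toFun x := (x.1.1, Multiplicative.ofAdd (Fin.snoc (α := fun _ => ℤ)
    (Multiplicative.toAdd x.1.2) (Multiplicative.toAdd x.2)))
  map_one' := by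
    refine Prod.ext rfl ?_
    apply Multiplicative.toAdd.injective
    funext s
    refine Fin.lastCases ?_ (fun s => ?_) s
    · simp
    · simp
  map_mul' x y := by
    refine Prod.ext rfl ?_
    apply Multiplicative.toAdd.injective
    funext s
    refine Fin.lastCases ?_ (fun s => ?_) s
    · simp
    · simp

theorem lastHom_injective (G : Type u) [Group G] (r : ℕ) : Function.Injective (lastHom G r) := by
  intro x y hxy
  obtain ⟨h1, h2⟩ := Prod.mk.inj hxy
  have h3 := Multiplicative.ofAdd.injective h2
  have h4 : Multiplicative.toAdd x.2 = Multiplicative.toAdd y.2 := by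
    have := congrFun h3 (Fin.last r)
    simpa using this
  have h5 : Multiplicative.toAdd x.1.2 = Multiplicative.toAdd y.1.2 := by
    funext s
    have := congrFun h3 (Fin.castSucc s)
    simpa using this
  exact Prod.ext (Prod.ext h1 (Multiplicative.toAdd.injective h5))
    (Multiplicative.toAdd.injective h4)

/-- **Kernel dimensions over products with free abelian groups.** -/
theorem many : ∀ (r : ℕ) (h : ι → G) (e : ι → Fin r → ℤ) (k : ι → Fin m) (j : ι → Fin l)
    (a : ι → ℂ),
    (∀ c : Fin r → ℂ, (∀ s, c s ≠ 0) →
      kerDimM (matM (prR h e) k j a) ≤ kerDimM (matM h k j (evR a e c))) ∧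
    ∃ c : Fin r → ℂ, (∀ s, c s ≠ 0) ∧
      kerDimM (matM (prR h e) k j a) = kerDimM (matM h k j (evR a e c))
  | 0, h, e, k, j, a => by
    have h1 : ∀ c : Fin 0 → ℂ, evR a e c = a := by
      intro c; funext i; unfold evR; simp
    let φ : G →* G × Multiplicative (Fin 0 → ℤ) := MonoidHom.inl _ _
    have h2 : kerDimM (matM (prR h e) k j a) = kerDimM (matM h k j a) := by
      rw [← inj_hom φ (fun x y hxy => (Prod.mk.inj hxy).1) h k j a]
      congr 2
      funext i
      refine Prod.ext rfl ?_
      apply Multiplicative.toAdd.injective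
      funext s
      exact s.elim0
    refine ⟨fun c _ => by rw [h1, h2], fun _ => 1, fun _ => one_ne_zero, by rw [h1, h2]⟩
  | r + 1, h, e, k, j, a => by
    let h' : ι → G × Multiplicative (Fin r → ℤ) := prR h fun i => Fin.init (e i)
    have h1 : kerDimM (matM (prR h e) k j a)
        = kerDimM (matM (pr h' fun i => e i (Fin.last r)) k j a) := by
      rw [← inj_hom (lastHom G r) (lastHom_injective G r) (pr h' fun i => e i (Fin.last r)) k j a]
      congr 2
      funext i
      refine Prod.ext rfl ?_
      apply Multiplicative.toAdd.injective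
      funext s
      refine Fin.lastCases ?_ (fun s => ?_) s
      · simp [pr, h', prR, lastHom]
      · simp [pr, h', prR, lastHom]
    have hev : ∀ (c : Fin r → ℂ) (c' : ℂ), evR (evC a (fun i => e i (Fin.last r)) c')
        (fun i => Fin.init (e i)) c = evR a e (Fin.snoc (α := fun _ => ℂ) c c') := by
      intro c c'
      funext i
      unfold evR evC
      rw [Fin.prod_univ_castSucc, mul_assoc]
      congr 1
      rw [mul_comm]
      congr 1
      · refine Finset.prod_congr rfl fun s _ => ?_
        rw [Fin.snoc_castSucc]
        rfl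
      · rw [Fin.snoc_last]
    obtain ⟨h2, S, hS, h3⟩ := one h' (fun i => e i (Fin.last r)) k j a
    constructor
    · intro c hc
      rw [h1]
      refine (h2 (c (Fin.last r)) (hc _)).trans ?_
      have h4 := (many r h (fun i => Fin.init (e i)) k j
        (evC a (fun i => e i (Fin.last r)) (c (Fin.last r)))).1 (Fin.init c) (fun s => hc _)
      rw [hev, Fin.snoc_init_self] at h4
      exact h4
    · obtain ⟨c', hc'0, hc'S⟩ : ∃ c' : ℂ, c' ≠ 0 ∧ c' ∉ S := by
        by_contra hcon
        push Not at hcon
        have : (Set.univ : Set ℂ).Countable := by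
          refine (hS.union (Set.countable_singleton (0 : ℂ))).mono fun x _ => ?_
          by_cases hx : x = 0
          · exact Or.inr hx
          · exact Or.inl (hcon x hx)
        exact not_countable_complex this
      obtain ⟨c, hc, h4⟩ := (many r h (fun i => Fin.init (e i)) k j
        (evC a (fun i => e i (Fin.last r)) c')).2
      refine ⟨Fin.snoc (α := fun _ => ℂ) c c', ?_, ?_⟩
      · intro s
        refine Fin.lastCases ?_ (fun s => ?_) s
        · rw [Fin.snoc_last]; exact hc'0
        · rw [Fin.snoc_castSucc]; exact hc s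
      · rw [h1, ← h3 c' hc'0 hc'S]
        rw [hev] at h4
        exact h4

end

end Pool.Agent.Q91.TE
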