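import Pool.Agent.Q91.TE.Trc

set_option autoImplicit false
set_option linter.unusedSectionVars false

/-! Kernel dimensions over the product with the integers. -/

namespace Pool.Agent.Q91.TE

open Pool.Agent.W649.ZL Filter Topology MeasureTheory
open scoped InnerProductSpace InnerProduct ENNReal

universe u v w z

section
variable {G : Type u} [Group G] {m l : ℕ} {ι : Type z} [Fintype ι]

theorem int_kd (h : ι → G) (e : ι → ℤ) (k : ι → Fin m) (j : ι → Fin l) (a : ι → ℂ) :
    ∫ θ in (0 : ℝ)..(2 * Real.pi), ((kerDimM (matM h k j (evC a e (cz θ))) : ℝ) : ℂ)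
      = 2 * Real.pi * ((kerDimM (matM (pr h e) k j a) : ℝ) : ℂ) := by
  set M : ℝ := ∑ i, ‖a i‖ with hM
  have hM0 : 0 ≤ M := Finset.sum_nonneg fun _ _ => norm_nonneg _
  set c : ℝ := 1 / (M ^ 2 + 1) with hcdef
  have hpos : 0 < M ^ 2 + 1 := by positivity
  have hc : 0 < c := by positivity
  have hc2 : c * M ^ 2 ≤ 1 := by
    rw [hcdef, one_div, inv_mul_le_iff₀ hpos]
    linarith
  have hMy : ∀ θ : ℝ, ∑ i, ‖evC a e (cz θ) i‖ = M := by
    intro θ
    refine Finset.sum_congr rfl fun i _ => ?_
    unfold evC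
    rw [norm_mul, norm_zpow, norm_cz, one_zpow, mul_one]
  let v : ℕ → Fin m → (((G × Multiplicative ℤ) × Fin m) →₀ ℂ) := fun n k' =>
    (C0 (pr h e) k j a c ^ n) (Finsupp.single (((1 : G), (1 : Multiplicative ℤ)), k') 1)
  let F : ℕ → ℝ → ℂ := fun N θ => (N : ℂ)⁻¹ * ∑ n ∈ Finset.range N, ∑ k' : Fin m,
    push G (Fin m) (cz θ) (v n k') (1, k')
  have hF : ∀ N θ, F N θ = (N : ℂ)⁻¹ * ∑ n ∈ Finset.range N, ∑ k' : Fin m,
      ((C0 h k j (evC a e (cz θ)) c ^ n) (Finsupp.single ((1 : G), k') 1)) (1, k') := by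
    intro N θ
    simp only [F, v]
    congr 1
    refine Finset.sum_congr rfl fun n _ => Finset.sum_congr rfl fun k' _ => ?_
    rw [push_C0_pow h e k j a c (cz θ) (norm_cz θ), push_single]
    congr 3
    simp
  have hlim : ∀ θ : ℝ, Tendsto (fun N => F N θ) atTop
      (𝓝 ((kerDimM (matM h k j (evC a e (cz θ))) : ℝ) : ℂ)) := by
    intro θ
    rw [kerDimM_eq]
    have h1 := trace_lim h k j (evC a e (cz θ)) c hc (by rw [hMy]; exact hc2)
    exact h1.congr fun N => (hF N θ).symm
  have hbd : ∀ N θ, ‖F N θ‖ ≤ m := by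
    intro N θ
    rw [hF, norm_mul, norm_inv, Complex.norm_natCast]
    have h1 : ‖∑ n ∈ Finset.range N, ∑ k' : Fin m,
        ((C0 h k j (evC a e (cz θ)) c ^ n) (Finsupp.single ((1 : G), k') 1)) (1, k')‖
        ≤ N * m := by
      refine (norm_sum_le _ _).trans ?_
      refine (Finset.sum_le_sum fun n _ => trace_bound h k j (evC a e (cz θ)) c hc
        (by rw [hMy]; exact hc2) n).trans ?_
      simp
    rcases Nat.eq_zero_or_pos N with hN | hN
    · subst hN
      simp
    · have hN' : (0 : ℝ) < N := by exact_mod_cast hN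
      rw [inv_mul_le_iff₀ hN']
      exact h1
  have hcont : ∀ N, Continuous (F N) := by
    intro N
    refine continuous_const.mul (continuous_finsetSum _ fun n _ =>
      continuous_finsetSum _ fun k' _ => cont_push _ _)
  have hI : Tendsto (fun N => ∫ θ in (0 : ℝ)..(2 * Real.pi), F N θ) atTop
      (𝓝 (∫ θ in (0 : ℝ)..(2 * Real.pi), ((kerDimM (matM h k j (evC a e (cz θ))) : ℝ) : ℂ))) := by
    refine intervalIntegral.tendsto_integral_filter_of_dominated_convergence (fun _ => (m : ℝ))
      (Eventually.of_forall fun N => (hcont N).aestronglyMeasurable)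
      (Eventually.of_forall fun N => Eventually.of_forall fun θ _ => hbd N θ)
      intervalIntegrable_const (Eventually.of_forall fun θ _ => hlim θ)
  have hval : ∀ N, ∫ θ in (0 : ℝ)..(2 * Real.pi), F N θ
      = 2 * Real.pi * ((N : ℂ)⁻¹ * ∑ n ∈ Finset.range N, ∑ k' : Fin m,
        ((C0 (pr h e) k j a c ^ n) (Finsupp.single ((1 : G × Multiplicative ℤ), k') 1))
          (1, k')) := by
    intro N
    simp only [F]
    rw [intervalIntegral.integral_const_mul, intervalIntegral.integral_finsetSum]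
    · have h1 : ∀ n, ∫ θ in (0 : ℝ)..(2 * Real.pi), ∑ k' : Fin m,
          push G (Fin m) (cz θ) (v n k') (1, k') = ∑ k' : Fin m, 2 * Real.pi *
            ((C0 (pr h e) k j a c ^ n) (Finsupp.single ((1 : G × Multiplicative ℤ), k') 1))
              (1, k') := by
        intro n
        rw [intervalIntegral.integral_finsetSum]
        · refine Finset.sum_congr rfl fun k' _ => ?_
          rw [int_push]
          rfl
        · intro k' _
          exact (cont_push _ _).intervalIntegrable _ _
      simp only [h1]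
      simp only [← Finset.mul_sum]
      ring
    · intro n _
      exact (continuous_finsetSum _ fun k' _ => cont_push _ _).intervalIntegrable _ _
  have hJ : Tendsto (fun N => ∫ θ in (0 : ℝ)..(2 * Real.pi), F N θ) atTop
      (𝓝 (2 * Real.pi * ((kerDimM (matM (pr h e) k j a) : ℝ) : ℂ))) := by
    simp only [hval]
    refine Tendsto.const_mul _ ?_
    rw [kerDimM_eq]
    exact trace_lim (pr h e) k j a c hc hc2
  exact tendsto_nhds_unique hI hJ

/-- **Kernel dimensions over the product with the integers.** -/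
theorem one (h : ι → G) (e : ι → ℤ) (k : ι → Fin m) (j : ι → Fin l) (a : ι → ℂ) :
    (∀ c, c ≠ 0 → kerDimM (matM (pr h e) k j a) ≤ kerDimM (matM h k j (evC a e c))) ∧
    ∃ S : Set ℂ, S.Countable ∧ ∀ c, c ≠ 0 → c ∉ S →
      kerDimM (matM h k j (evC a e c)) = kerDimM (matM (pr h e) k j a) := by
  obtain ⟨μ, S, hS, hle, heq⟩ := exists_min h k j a e
  have hμ : kerDimM (matM (pr h e) k j a) = μ := by
    have h1 := int_kd h e k j a
    have h2 : ∫ θ in (0 : ℝ)..(2 * Real.pi), ((kerDimM (matM h k j (evC a e (cz θ))) : ℝ) : ℂ)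
        = ∫ θ in (0 : ℝ)..(2 * Real.pi), (μ : ℂ) := by
      apply intervalIntegral.integral_congr_ae
      have hcnt : (circleMap 0 1 ⁻¹' S).Countable := hS.preimage_circleMap 0 one_ne_zero
      have hz := hcnt.measure_zero (volume : Measure ℝ)
      have h3 : ∀ᵐ θ ∂(volume : Measure ℝ), θ ∉ (circleMap 0 1 ⁻¹' S) :=
        measure_eq_zero_iff_ae_notMem.1 hz
      filter_upwards [h3] with θ hθ _
      rw [heq (cz θ) (cz_ne θ) hθ]
    rw [h2] at h1
    simp only [intervalIntegral.integral_const, sub_zero] at h1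
    rw [Complex.real_smul] at h1
    push_cast at h1
    have h4 : (2 * Real.pi : ℂ) ≠ 0 :=
      mul_ne_zero two_ne_zero (by exact_mod_cast Real.pi_ne_zero)
    have h5 := mul_left_cancel₀ h4 h1
    exact_mod_cast h5.symm
  refine ⟨fun c hc => by rw [hμ]; exact hle c hc, S, hS, fun c hc hcS => by
    rw [hμ]; exact heq c hc hcS⟩

end

end Pool.Agent.Q91.TE
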