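import Pool.Agent.Q91.TE.Coset2
import Pool.Agent.Q91.LB.Res

set_option autoImplicit false
set_option linter.unusedSectionVars false

/-! Kernels on finitely many cosets when some coset is hit only once. -/

namespace Pool.Agent.Q91.TE

open Pool.Agent.W649.ZL Filter Topology
open scoped InnerProductSpace InnerProduct ENNReal

universe u v w z

section
variable {G : Type u} [Group G] (K : Subgroup G)

open Classical in
/-- the part of `α` which maps the coset `x` to the coset `y` -/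
noncomputable def cpart (α : G →₀ ℂ) (x y : G ⧸ K) : G →₀ ℂ := α.filter fun s => s • x = y

theorem mem_cpart (α : G →₀ ℂ) (x y : G ⧸ K) (s : G) :
    s ∈ (cpart K α x y).support ↔ s ∈ α.support ∧ s • x = y := by
  classical
  unfold cpart
  rw [Finsupp.support_filter, Finset.mem_filter]

theorem cpart_apply (α : G →₀ ℂ) (x y : G ⧸ K) (s : G) (h : s • x = y) :
    cpart K α x y s = α s := by
  classical
  unfold cpart
  exact Finsupp.filter_apply_pos (fun s => s • x = y) α h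

variable [DecidableEq (G ⧸ K)] (F : Finset (G ⧸ K)) (r : G ⧸ K → G)

/-- the coordinate at the coset `x` -/
noncomputable def T1 (x : F) : EE K F →L[ℂ] EE K (({(x : G ⧸ K)} : Finset (G ⧸ K)) × Unit) :=
  elem (1 : K) (⟨(x : G ⧸ K), Finset.mem_singleton_self _⟩, ()) x

theorem T1_apply (x : F) (h : EE K F) (k : K)
    (z : ({(x : G ⧸ K)} : Finset (G ⧸ K)) × Unit) : T1 K F x h (k, z) = h (k, x) := by
  unfold T1
  rw [elem_apply]
  have hz : z = (⟨(x : G ⧸ K), Finset.mem_singleton_self _⟩, ()) := by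
    obtain ⟨⟨z, hz⟩, ⟨⟩⟩ := z
    have := Finset.mem_singleton.1 hz
    subst this
    rfl
  rw [if_pos hz, inv_one, one_mul]

theorem exF_T1 (hr : ∀ x, (r x : G ⧸ K) = x) (x : F) (h : EE K F) (g : G)
    (hg : (g : G ⧸ K) = x) :
    LB.exF K {(x : G ⧸ K)} r hr (T1 K F x h) (g, ()) = exF K F r hr h g := by
  rw [LB.exF_apply, exF_apply]
  unfold LB.exFun exFun
  rw [dif_pos (show ((g : G) : G ⧸ K) ∈ ({(x : G ⧸ K)} : Finset (G ⧸ K)) from by
    rw [hg]; exact Finset.mem_singleton_self _),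
    dif_pos (show (g : G ⧸ K) ∈ F from by rw [hg]; exact x.2), T1_apply]
  have e : x = ⟨(g : G ⧸ K), by rw [hg]; exact x.2⟩ := Subtype.ext hg.symm
  exact congrArg (fun z : F => h ((⟨(r (g : G ⧸ K))⁻¹ * g, mem_K K r hr g⟩ : K), z)) e

theorem exF_T1_zero (hr : ∀ x, (r x : G ⧸ K) = x) (x : F) (h : EE K F) (g : G)
    (hg : (g : G ⧸ K) ≠ x) :
    LB.exF K {(x : G ⧸ K)} r hr (T1 K F x h) (g, ()) = 0 := by
  rw [LB.exF_apply]
  apply LB.exFun_zero
  intro h2
  exact hg (Finset.mem_singleton.1 h2)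

/-- the image of the coordinate at `x` is in the kernel of the part -/
theorem T1_mem (hr : ∀ x, (r x : G ⧸ K) = x) (α : G →₀ ℂ) (Z : Finset F) (x : F) (y : G ⧸ K)
    (s0 : G) (hs0 : s0 ∈ α.support) (hs0y : s0 • (x : G ⧸ K) = y)
    (huniq : ∀ z ∈ Z, ∀ s ∈ α.support, s • (z : G ⧸ K) = y → z = x) (h : EE K F)
    (h1 : TF K F r hr α h = 0) (h2 : h ∈ cosub K Z) :
    cop (cpart K α x y) (LB.exF K {(x : G ⧸ K)} r hr (T1 K F x h)) = 0 := by
  ext ⟨g, ⟨⟩⟩
  rw [cop_apply]
  change _ = (0 : ℂ)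
  have hco : ∀ s : G, ((s⁻¹ * g : G) : G ⧸ K) = s⁻¹ • (g : G ⧸ K) := fun s => rfl
  by_cases hg : (g : G ⧸ K) = y
  · -- the coset `y`
    have hy : y ∈ imF K F α.support := by rw [← hs0y]; exact mem_imF K F hs0 x.2
    have hk : (r y)⁻¹ * g ∈ K := by rw [← QuotientGroup.eq, hr, hg]
    have h3 := TF_conv K F r hr α (exF K F r hr h) (fun g hg => by
      rw [exF_apply, exFun_zero K F r hr h g hg]) ⟨(r y)⁻¹ * g, hk⟩ ⟨y, hy⟩
    rw [Rf_exF, h1] at h3
    have h4 : (0 : EE K (imF K F α.support)) (⟨(r y)⁻¹ * g, hk⟩, ⟨y, hy⟩) = 0 := rfl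
    rw [h4] at h3
    have h5 : r y * ((r y)⁻¹ * g) = g := by group
    have h6 : ∑ s ∈ α.support, α s * exF K F r hr h (s⁻¹ * g) = 0 := by
      rw [h3]
      refine Finset.sum_congr rfl fun s _ => ?_
      change _ = α s * exF K F r hr h (s⁻¹ * (r y * ((r y)⁻¹ * g)))
      rw [h5]
    rw [← h6]
    have hsub : (cpart K α x y).support ⊆ α.support := fun s hs =>
      ((mem_cpart K α x y s).1 hs).1
    rw [← Finset.sum_subset hsub (f := fun s => α s * exF K F r hr h (s⁻¹ * g))]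
    · refine Finset.sum_congr rfl fun s hs => ?_
      have hsx := ((mem_cpart K α x y s).1 hs).2
      rw [cpart_apply K α x y s hsx, exF_T1]
      rw [hco, hg, ← hsx, inv_smul_smul]
    · intro s hs hns
      by_cases hF : s⁻¹ • y ∈ F
      · have hne : (⟨s⁻¹ • y, hF⟩ : F) ∉ Z := by
          intro hZ
          have h7 := huniq _ hZ s hs (smul_inv_smul s y)
          apply hns
          refine (mem_cpart K α x y s).2 ⟨hs, ?_⟩
          rw [← h7]
          exact smul_inv_smul s y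
        have h8 : exF K F r hr h (s⁻¹ * g) = 0 := by
          rw [exF_apply]
          unfold exFun
          have hm : ((s⁻¹ * g : G) : G ⧸ K) ∈ F := by rw [hco, hg]; exact hF
          rw [dif_pos hm]
          apply h2
          intro hZ
          apply hne
          have h9 : (⟨s⁻¹ • y, hF⟩ : F) = ⟨((s⁻¹ * g : G) : G ⧸ K), hm⟩ := by
            apply Subtype.ext
            change s⁻¹ • y = s⁻¹ • (g : G ⧸ K)
            rw [hg]
          rw [h9]; exact hZ
        rw [h8, mul_zero]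
      · rw [exF_apply, exFun_zero K F r hr h, mul_zero]
        rw [hco, hg]; exact hF
  · refine Finset.sum_eq_zero fun s hs => ?_
    rw [exF_T1_zero, mul_zero]
    intro h3
    apply hg
    rw [hco] at h3
    rw [← ((mem_cpart K α x y s).1 hs).2, ← h3, smul_inv_smul]

/-- **The bound.** -/
theorem peak_bound (hr : ∀ x, (r x : G ⧸ K) = x) (α : G →₀ ℂ) (d : ℝ)
    (hd : ∀ x y : G ⧸ K, cpart K α x y ≠ 0 → kDim (cpart K α x y) ≤ d)
    (hpeak : ∀ Z : Finset (G ⧸ K), Z.Nonempty → ∃ x ∈ Z, ∃ s0 ∈ α.support,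
      ∀ z ∈ Z, ∀ s ∈ α.support, s • z = s0 • x → z = x) :
    ∀ (n : ℕ) (Z : Finset F), Z.card = n →
      vd (LinearMap.ker (TF K F r hr α : EE K F →ₗ[ℂ] EE K (imF K F α.support)) ⊓ cosub K Z)
        ≤ n * d := by
  intro n
  induction n with
  | zero =>
    intro Z hZ
    have h1 : vd (LinearMap.ker (TF K F r hr α : EE K F →ₗ[ℂ] EE K (imF K F α.support))
        ⊓ cosub K Z) ≤ vd (cosub K Z) := vd_mono inf_le_right
    rw [vd_cosub, hZ] at h1
    simpa using h1
  | succ n ih =>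
    intro Z hZ
    have hne : (Z.image (Subtype.val : F → G ⧸ K)).Nonempty := by
      rw [Finset.image_nonempty]
      exact Finset.card_pos.1 (by omega)
    obtain ⟨x0, hx0, s0, hs0, huniq⟩ := hpeak _ hne
    obtain ⟨x, hx, rfl⟩ := Finset.mem_image.1 hx0
    have huniq' : ∀ z ∈ Z, ∀ s ∈ α.support, s • (z : G ⧸ K) = s0 • (x : G ⧸ K) → z = x :=
      fun z hz s hs h => Subtype.ext (huniq z (Finset.mem_image_of_mem _ hz) s hs h)
    set U := LinearMap.ker (TF K F r hr α : EE K F →ₗ[ℂ] EE K (imF K F α.support)) ⊓ cosub K Z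
      with hU
    have hUi : W649.ZL.Inv U := inv_inf (inv_ker _ (TF_eqv K F r hr α)) (cosub_inv Z)
    have hUc : IsClosed (U : Set (EE K F)) := by
      rw [hU, Submodule.coe_inf]
      exact (TF K F r hr α).isClosed_ker.inter (cosub_closed Z)
    have hrn := rank_nullity (T1 K F x) (elem_eqv _ _ _) hUi hUc
    have h1 : vd (U ⊓ LinearMap.ker (T1 K F x : EE K F →ₗ[ℂ]
        EE K (({(x : G ⧸ K)} : Finset (G ⧸ K)) × Unit))) ≤ n * d := by
      refine (vd_mono ?_).trans (ih (Z.erase x) (by rw [Finset.card_erase_of_mem hx, hZ]; rfl))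
      rintro h ⟨⟨ha, hb⟩, hc⟩
      refine ⟨ha, ?_⟩
      intro k j hj
      by_cases hjx : j = x
      · subst hjx
        have hc' : T1 K F j h = 0 := hc
        rw [← T1_apply K F j h k (⟨(j : G ⧸ K), Finset.mem_singleton_self _⟩, ()), hc']
        rfl
      · exact hb k j (fun hjZ => hj (Finset.mem_erase.2 ⟨hjx, hjZ⟩))
    have h2 : vd (U.map (T1 K F x : EE K F →ₗ[ℂ]
        EE K (({(x : G ⧸ K)} : Finset (G ⧸ K)) × Unit))) ≤ d := by
      have h3 : U.map (T1 K F x : EE K F →ₗ[ℂ]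
          EE K (({(x : G ⧸ K)} : Finset (G ⧸ K)) × Unit))
          ≤ LB.pb K {(x : G ⧸ K)} r hr (LinearMap.ker
            (cop (cpart K α x (s0 • (x : G ⧸ K))) : EE G Unit →ₗ[ℂ] EE G Unit)) := by
        rintro _ ⟨h, ⟨ha, hb⟩, rfl⟩
        rw [LB.mem_pb]
        exact T1_mem K F r hr α Z x _ s0 hs0 rfl huniq' h ha hb
      refine (vd_mono h3).trans ?_
      refine (LB.vd_pb_le K _ r hr _ (ContinuousLinearMap.isClosed_ker _)
        (inv_ker _ (cop_eqv _))).trans ?_
      rw [Finset.card_singleton, Nat.cast_one, one_mul, ← kDim_eq]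
      apply hd
      intro h0
      have h4 : s0 ∈ (cpart K α x (s0 • (x : G ⧸ K))).support :=
        (mem_cpart K α x _ s0).2 ⟨hs0, rfl⟩
      rw [h0] at h4
      simp at h4
    rw [hrn]
    push_cast
    linarith

/-- the bound for the whole kernel on `F` -/
theorem peak_lower (hr : ∀ x, (r x : G ⧸ K) = x) (α : G →₀ ℂ) (d : ℝ)
    (hd : ∀ x y : G ⧸ K, cpart K α x y ≠ 0 → kDim (cpart K α x y) ≤ d)
    (hpeak : ∀ Z : Finset (G ⧸ K), Z.Nonempty → ∃ x ∈ Z, ∃ s0 ∈ α.support,
      ∀ z ∈ Z, ∀ s ∈ α.support, s • z = s0 • x → z = x) :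
    F.card * kDim α - (bdF K F α).card ≤ F.card * d := by
  have h1 := coset_lower K F r hr α
  rw [← kDim_eq] at h1
  have h2 := peak_bound K F r hr α d hd hpeak F.card Finset.univ (by
    rw [Finset.card_univ, Fintype.card_coe])
  refine h1.trans (le_trans (vd_mono ?_) h2)
  intro h hh
  exact ⟨hh, fun k j hj => absurd (Finset.mem_univ j) hj⟩

end

end Pool.Agent.Q91.TE
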