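import Pool.Agent.Q91.TE.PeakM

set_option autoImplicit false
set_option linter.unusedSectionVars false

/-! Matrices: kernels on finitely many cosets when some block of outputs is reached only once. -/

namespace Pool.Agent.Q91.TE.PM

open Pool.Agent.W649.ZL Filter Topology
open Pool.Agent.Q91
open scoped InnerProductSpace InnerProduct ENNReal

universe u v w z

section
variable {G : Type u} [Group G] {I : Type v} {J : Type w} [Fintype I] [Fintype J] [DecidableEq I]
  [DecidableEq J]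
variable (K : Subgroup G)

/-- the kernel of the block with the rows `O` and the columns `P` of the parts from `x` to `y` -/
noncomputable def BK (A : I → J → (G →₀ ℂ)) (x y : G ⧸ K) (O : Finset I) (P : Finset J) :
    Submodule ℂ (EE G J) :=
  cosub G P ⊓ LinearMap.ker (LB.opM (fun i j => if i ∈ O ∧ j ∈ P then cpart K (A i j) x y else 0) :
    EE G J →ₗ[ℂ] EE G I)

theorem BK_closed (A : I → J → (G →₀ ℂ)) (x y : G ⧸ K) (O : Finset I) (P : Finset J) :
    IsClosed (BK K A x y O P : Set (EE G J)) := by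
  unfold BK
  rw [Submodule.coe_inf]
  exact (cosub_closed P).inter (ContinuousLinearMap.isClosed_ker _)

theorem BK_inv (A : I → J → (G →₀ ℂ)) (x y : G ⧸ K) (O : Finset I) (P : Finset J) :
    W649.ZL.Inv (BK K A x y O P) :=
  inv_inf (cosub_inv P) (inv_ker _ (LB.opM_eqv _))

theorem mem_BK (A : I → J → (G →₀ ℂ)) (x y : G ⧸ K) (O : Finset I) (P : Finset J) (f : EE G J) :
    f ∈ BK K A x y O P ↔ (∀ (g : G) (j : J), j ∉ P → f (g, j) = 0) ∧
      ∀ (g : G), ∀ i ∈ O, ∑ j ∈ P, ∑ s ∈ (cpart K (A i j) x y).support,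
        cpart K (A i j) x y s * f (s⁻¹ * g, j) = 0 := by
  have key : ∀ (g : G) (i : I), LB.opM (fun i j => if i ∈ O ∧ j ∈ P then cpart K (A i j) x y else 0)
      f (g, i) = if i ∈ O then ∑ j ∈ P, ∑ s ∈ (cpart K (A i j) x y).support,
        cpart K (A i j) x y s * f (s⁻¹ * g, j) else 0 := by
    intro g i
    rw [LB.opM_apply]
    change ∑ j, ∑ s ∈ (if i ∈ O ∧ j ∈ P then cpart K (A i j) x y else 0).support,
      (if i ∈ O ∧ j ∈ P then cpart K (A i j) x y else 0) s * f (s⁻¹ * g, j) = _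
    by_cases hi : i ∈ O
    · rw [if_pos hi, ← Finset.sum_subset (Finset.subset_univ P)]
      · refine Finset.sum_congr rfl fun j hj => ?_
        rw [if_pos ⟨hi, hj⟩]
      · intro j _ hj
        rw [if_neg (fun h => hj h.2)]
        simp
    · rw [if_neg hi]
      refine Finset.sum_eq_zero fun j _ => ?_
      rw [if_neg (fun h => hi h.1)]
      simp
  constructor
  · rintro ⟨h1, h2⟩
    refine ⟨h1, fun g i hi => ?_⟩
    have h3 := key g i
    have h4 : LB.opM (fun i j => if i ∈ O ∧ j ∈ P then cpart K (A i j) x y else 0) f = 0 := h2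
    rw [h4, if_pos hi] at h3
    exact h3.symm
  · rintro ⟨h1, h2⟩
    refine ⟨h1, ?_⟩
    change LB.opM (fun i j => if i ∈ O ∧ j ∈ P then cpart K (A i j) x y else 0) f = 0
    ext ⟨g, i⟩
    rw [key]
    split_ifs with hi
    · exact h2 g i hi
    · rfl

variable [DecidableEq (G ⧸ K)] (F : Finset (G ⧸ K)) (r : G ⧸ K → G)

/-- the coordinates in `P` at the coset `x` -/
noncomputable def E1 (x : F) (P : Finset J) :
    EE K (F × J) →L[ℂ] EE K (({(x : G ⧸ K)} : Finset (G ⧸ K)) × J) :=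
  ∑ j ∈ P, elem (1 : K) ((⟨(x : G ⧸ K), Finset.mem_singleton_self _⟩ :
    ({(x : G ⧸ K)} : Finset (G ⧸ K))), j) (x, j)

theorem E1_apply (x : F) (P : Finset J) (h : EE K (F × J)) (k : K)
    (z : ({(x : G ⧸ K)} : Finset (G ⧸ K))) (j : J) :
    E1 K F x P h (k, (z, j)) = if j ∈ P then h (k, (x, j)) else 0 := by
  have hz : z = ⟨(x : G ⧸ K), Finset.mem_singleton_self _⟩ := by
    obtain ⟨z, hz⟩ := z
    have := Finset.mem_singleton.1 hz
    subst this
    rfl
  subst hz
  unfold E1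
  rw [LB.clm_sum_apply]
  rw [← Finset.sum_ite_eq P j (fun j' => h (k, (x, j')))]
  refine Finset.sum_congr rfl fun j' _ => ?_
  rw [elem_apply]
  by_cases hj : j = j'
  · subst hj
    rw [if_pos rfl, if_pos rfl, inv_one, one_mul]
  · rw [if_neg hj, if_neg]
    intro h2
    exact hj (congrArg Prod.snd h2)

theorem E1_eqv (x : F) (P : Finset J) : Eqv (E1 K F x P) := by
  intro k f
  ext ⟨k', ⟨z, j⟩⟩
  change E1 K F x P (tr k f) (k', (z, j)) = E1 K F x P f (k' * k, (z, j))
  rw [E1_apply, E1_apply]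
  rfl

theorem exF_E1 (hr : ∀ x, (r x : G ⧸ K) = x) (x : F) (P : Finset J) (h : EE K (F × J)) (g : G)
    (hg : (g : G ⧸ K) = x) (j : J) (hj : j ∈ P) :
    LB.exF K {(x : G ⧸ K)} r hr (E1 K F x P h) (g, j) = LB.exF K F r hr h (g, j) := by
  rw [LB.exF_apply, LB.exF_apply]
  unfold LB.exFun
  rw [dif_pos (show (((g, j) : G × J).1 : G ⧸ K) ∈ ({(x : G ⧸ K)} : Finset (G ⧸ K)) from by
    change (g : G ⧸ K) ∈ ({(x : G ⧸ K)} : Finset (G ⧸ K))
    rw [hg]; exact Finset.mem_singleton_self _),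
    dif_pos (show (((g, j) : G × J).1 : G ⧸ K) ∈ F from by
      change (g : G ⧸ K) ∈ F
      rw [hg]; exact x.2), E1_apply, if_pos hj]
  have e : x = ⟨(g : G ⧸ K), by rw [hg]; exact x.2⟩ := Subtype.ext hg.symm
  exact congrArg (fun z : F => h ((⟨(r (g : G ⧸ K))⁻¹ * g, LB.mem_K K r hr g⟩ : K), (z, j))) e

/-- the coordinates at the block are in the kernel of the block -/
theorem E1_mem (hr : ∀ x, (r x : G ⧸ K) = x) (A : I → J → (G →₀ ℂ)) (Z : Finset (F × J))
    (x : F) (y : G ⧸ K) (O : Finset I) (P : Finset J)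
    (huniq : ∀ q ∈ Z, (q.1 = x ∧ q.2 ∈ P) ∨
      ∀ i ∈ O, ∀ s ∈ (A i q.2).support, s • (q.1 : G ⧸ K) ≠ y)
    (h : EE K (F × J)) (h1 : LB.opM A (LB.exF K F r hr h) = 0) (h2 : h ∈ cosub K Z) :
    LB.exF K {(x : G ⧸ K)} r hr (E1 K F x P h) ∈ BK K A x y O P := by
  rw [mem_BK]
  constructor
  · intro g j hj
    rw [LB.exF_apply]
    unfold LB.exFun
    split_ifs with hm
    · rw [E1_apply, if_neg hj]
    · rfl
  intro g i hi
  have hco : ∀ s : G, ((s⁻¹ * g : G) : G ⧸ K) = s⁻¹ • (g : G ⧸ K) := fun s => rfl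
  by_cases hg : (g : G ⧸ K) = y
  · have h3 : LB.opM A (LB.exF K F r hr h) (g, i) = 0 := by rw [h1]; rfl
    rw [LB.opM_apply] at h3
    have hz : ∀ (k : J) (s : G), s ∈ (A i k).support →
        ¬ (k ∈ P ∧ s • (x : G ⧸ K) = y) → LB.exF K F r hr h (s⁻¹ * g, k) = 0 := by
      intro k s hs hn
      rw [LB.exF_apply]
      by_cases hF : s⁻¹ • y ∈ F
      · unfold LB.exFun
        have hm : (((s⁻¹ * g, k) : G × J).1 : G ⧸ K) ∈ F := by
          change ((s⁻¹ * g : G) : G ⧸ K) ∈ F
          rw [hco, hg]; exact hF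
        rw [dif_pos hm]
        apply h2
        intro hZ
        have h9 : (((⟨s⁻¹ • y, hF⟩ : F), k) : F × J)
            = (⟨(((s⁻¹ * g, k) : G × J).1 : G ⧸ K), hm⟩, ((s⁻¹ * g, k) : G × J).2) := by
          apply Prod.ext
          · apply Subtype.ext
            change s⁻¹ • y = s⁻¹ • (g : G ⧸ K)
            rw [hg]
          · rfl
        rw [← h9] at hZ
        rcases huniq _ hZ with h7 | h7
        · apply hn
          have h8 : (⟨s⁻¹ • y, hF⟩ : F) = x := h7.1
          refine ⟨h7.2, ?_⟩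
          rw [← h8]
          exact smul_inv_smul s y
        · exact h7 i hi s hs (smul_inv_smul s y)
      · apply LB.exFun_zero
        change ((s⁻¹ * g : G) : G ⧸ K) ∉ F
        rw [hco, hg]; exact hF
    rw [← Finset.sum_subset (Finset.subset_univ P)] at h3
    · rw [← h3]
      refine Finset.sum_congr rfl fun j hj => ?_
      change ∑ s ∈ (cpart K (A i j) x y).support, cpart K (A i j) x y s *
          LB.exF K {(x : G ⧸ K)} r hr (E1 K F x P h) (s⁻¹ * g, j)
        = ∑ s ∈ (A i j).support, A i j s * LB.exF K F r hr h (s⁻¹ * g, j)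
      have hsub : (cpart K (A i j) x y).support ⊆ (A i j).support := fun s hs =>
        ((mem_cpart K (A i j) x y s).1 hs).1
      rw [← Finset.sum_subset hsub
        (f := fun s => A i j s * LB.exF K F r hr h (s⁻¹ * g, j))]
      · refine Finset.sum_congr rfl fun s hs => ?_
        have hsx := ((mem_cpart K (A i j) x y s).1 hs).2
        rw [cpart_apply K (A i j) x y s hsx]
        congr 1
        apply exF_E1 K F r hr x P h _ _ j hj
        rw [hco, hg, ← hsx, inv_smul_smul]
      · intro s hs hns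
        rw [hz j s hs (fun hh => hns ((mem_cpart K (A i j) x y s).2 ⟨hs, hh.2⟩)), mul_zero]
    · intro j _ hj
      refine Finset.sum_eq_zero fun s hs => ?_
      change A i j s * LB.exF K F r hr h (s⁻¹ * g, j) = 0
      rw [hz j s hs (fun hh => hj hh.1), mul_zero]
  · refine Finset.sum_eq_zero fun j _ => Finset.sum_eq_zero fun s hs => ?_
    rw [LB.exF_zero, mul_zero]
    change ((s⁻¹ * g : G) : G ⧸ K) ∉ ({(x : G ⧸ K)} : Finset (G ⧸ K))
    intro h3
    apply hg
    have h4 := Finset.mem_singleton.1 h3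
    rw [hco] at h4
    have h5 := ((mem_cpart K (A i j) x y s).1 hs).2
    rw [← h5, ← h4, smul_inv_smul]

/-- the condition on the blocks -/
def Cond (A : I → J → (G →₀ ℂ)) (d : J → ℝ) : Prop :=
  ∀ Z : Finset ((G ⧸ K) × J), Z.Nonempty → (∃ p ∈ Z, 1 ≤ d p.2) ∨
    ∃ (x y : G ⧸ K) (O : Finset I) (P : Finset J), P.Nonempty ∧ (∀ j ∈ P, (x, j) ∈ Z) ∧
      (∀ q ∈ Z, (q.1 = x ∧ q.2 ∈ P) ∨ ∀ i ∈ O, ∀ s ∈ (A i q.2).support, s • q.1 ≠ y) ∧
      vd (BK K A x y O P) ≤ ∑ j ∈ P, d j

/-- **The bound by blocks.** -/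
theorem boundG (hr : ∀ x, (r x : G ⧸ K) = x) (A : I → J → (G →₀ ℂ)) (d : J → ℝ)
    (hpeak : Cond K A d) :
    ∀ (n : ℕ) (Z : Finset (F × J)), Z.card ≤ n →
      vd (LB.pb K F r hr (LinearMap.ker (LB.opM A : EE G J →ₗ[ℂ] EE G I)) ⊓ cosub K Z)
        ≤ ∑ p ∈ Z, d p.2 := by
  intro n
  induction n with
  | zero =>
    intro Z hZ
    have h1 : vd (LB.pb K F r hr (LinearMap.ker (LB.opM A : EE G J →ₗ[ℂ] EE G I)) ⊓ cosub K Z)
        ≤ vd (cosub K Z) := vd_mono inf_le_right
    have h2 : Z = ∅ := Finset.card_eq_zero.1 (Nat.le_zero.1 hZ)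
    subst h2
    rw [vd_cosub] at h1
    simpa using h1
  | succ n ih =>
    intro Z hZ
    by_cases hemp : Z = ∅
    · exact ih Z (by rw [hemp]; simp)
    have hne : (Z.image (fun p : F × J => ((p.1 : G ⧸ K), p.2))).Nonempty := by
      rw [Finset.image_nonempty]
      exact Finset.nonempty_iff_ne_empty.2 hemp
    set V := LB.pb K F r hr (LinearMap.ker (LB.opM A : EE G J →ₗ[ℂ] EE G I)) with hV
    set U := V ⊓ cosub K Z with hU
    have hkc : IsClosed (LinearMap.ker (LB.opM A : EE G J →ₗ[ℂ] EE G I) : Set (EE G J)) :=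
      (LB.opM A).isClosed_ker
    have hUi : W649.ZL.Inv U := inv_inf
      (LB.pb_inv K F r hr _ fun k f hf => inv_ker (LB.opM A) (LB.opM_eqv A) (k : G) f hf)
      (cosub_inv Z)
    have hUc : IsClosed (U : Set (EE K (F × J))) := by
      rw [hU, Submodule.coe_inf]
      exact (LB.pb_closed K F r hr _ hkc).inter (cosub_closed Z)
    -- one step, for a set of columns at one coset
    have step : ∀ (x : F) (P : Finset J), P.Nonempty → (∀ j ∈ P, (x, j) ∈ Z) →
        vd (U.map (E1 K F x P : EE K (F × J) →ₗ[ℂ]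
          EE K (({(x : G ⧸ K)} : Finset (G ⧸ K)) × J))) ≤ ∑ j ∈ P, d j →
        vd U ≤ ∑ p ∈ Z, d p.2 := by
      intro x P hP hPZ hle
      have hrn := rank_nullity (E1 K F x P) (E1_eqv K F x P) hUi hUc
      set Q : Finset (F × J) := P.image (fun j => (x, j)) with hQ
      have hQZ : Q ⊆ Z := by
        intro q hq
        obtain ⟨j, hj, rfl⟩ := Finset.mem_image.1 hq
        exact hPZ j hj
      have hQc : Q.card = P.card :=
        Finset.card_image_of_injective _ fun a b hab => congrArg Prod.snd hab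
      have hQs : ∑ q ∈ Q, d q.2 = ∑ j ∈ P, d j := by
        rw [hQ, Finset.sum_image fun a _ b _ hab => congrArg Prod.snd hab]
      have h1 : vd (U ⊓ LinearMap.ker (E1 K F x P : EE K (F × J) →ₗ[ℂ]
          EE K (({(x : G ⧸ K)} : Finset (G ⧸ K)) × J))) ≤ ∑ q ∈ Z \ Q, d q.2 := by
        refine (vd_mono ?_).trans (ih (Z \ Q) ?_)
        · rintro h ⟨⟨ha, hb⟩, hc⟩
          refine ⟨ha, ?_⟩
          rintro k ⟨x', j⟩ hj
          by_cases hjx : (x', j) ∈ Q
          · obtain ⟨j', hj', he⟩ := Finset.mem_image.1 hjx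
            have he1 : x = x' := congrArg Prod.fst he
            have he2 : j' = j := congrArg Prod.snd he
            subst he1
            subst he2
            have hc' : E1 K F x P h = 0 := hc
            have h5 := E1_apply K F x P h k ⟨(x : G ⧸ K), Finset.mem_singleton_self _⟩ j'
            rw [hc', if_pos hj'] at h5
            exact h5.symm
          · exact hb k (x', j) (fun hjZ => hj (Finset.mem_sdiff.2 ⟨hjZ, hjx⟩))
        · rw [Finset.card_sdiff_of_subset hQZ]
          have := hP.card_pos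
          omega
      rw [hrn, ← Finset.sum_sdiff hQZ, hQs]
      linarith
    rcases hpeak _ hne with ⟨p0, hp0, hd1⟩ | ⟨x0, y, O, P, hP, hPZ, huniq, hle⟩
    · obtain ⟨p, hp, rfl⟩ := Finset.mem_image.1 hp0
      apply step p.1 {p.2} (Finset.singleton_nonempty _)
      · intro j hj
        rw [Finset.mem_singleton.1 hj]
        exact hp
      · rw [Finset.sum_singleton]
        refine le_trans ?_ hd1
        have h6 : U.map (E1 K F p.1 {p.2} : EE K (F × J) →ₗ[ℂ]
            EE K (({(p.1 : G ⧸ K)} : Finset (G ⧸ K)) × J))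
            ≤ cosub K ({((⟨(p.1 : G ⧸ K), Finset.mem_singleton_self _⟩ :
              ({(p.1 : G ⧸ K)} : Finset (G ⧸ K))), p.2)} : Finset _) := by
          rintro _ ⟨h, -, rfl⟩
          rintro k ⟨z, j⟩ hzj
          change E1 K F p.1 {p.2} h (k, (z, j)) = 0
          rw [E1_apply, if_neg]
          intro hj
          apply hzj
          rw [Finset.mem_singleton] at hj ⊢
          subst hj
          congr 1
          obtain ⟨z, hz⟩ := z
          have := Finset.mem_singleton.1 hz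
          subst this
          rfl
        refine (vd_mono h6).trans ?_
        rw [vd_cosub, Finset.card_singleton]
        simp
    · obtain ⟨j0, hj0⟩ := hP
      obtain ⟨p, hp, hpe⟩ := Finset.mem_image.1 (hPZ j0 hj0)
      have hx0 : (p.1 : G ⧸ K) = x0 := (Prod.mk.inj hpe).1
      subst hx0
      have hPZ' : ∀ j ∈ P, (p.1, j) ∈ Z := by
        intro j hj
        obtain ⟨q, hq, hqe⟩ := Finset.mem_image.1 (hPZ j hj)
        have h1 : q.1 = p.1 := Subtype.ext (Prod.mk.inj hqe).1
        have h2 : q.2 = j := (Prod.mk.inj hqe).2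
        rw [← h1, ← h2]
        exact hq
      apply step p.1 P ⟨j0, hj0⟩ hPZ'
      have h3 : U.map (E1 K F p.1 P : EE K (F × J) →ₗ[ℂ]
          EE K (({(p.1 : G ⧸ K)} : Finset (G ⧸ K)) × J))
          ≤ LB.pb K {(p.1 : G ⧸ K)} r hr (BK K A p.1 y O P) := by
        rintro _ ⟨h, ⟨ha, hb⟩, rfl⟩
        rw [LB.mem_pb]
        apply E1_mem K F r hr A Z p.1 y O P _ h ha hb
        intro q hq
        rcases huniq ((q.1 : G ⧸ K), q.2) (Finset.mem_image_of_mem
          (fun p : F × J => ((p.1 : G ⧸ K), p.2)) hq) with h | h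
        · exact Or.inl ⟨Subtype.ext h.1, h.2⟩
        · exact Or.inr h
      refine (vd_mono h3).trans ?_
      refine (LB.vd_pb_le K _ r hr _ (BK_closed K A _ _ _ _) (BK_inv K A _ _ _ _)).trans ?_
      rw [Finset.card_singleton, Nat.cast_one, one_mul]
      exact hle

/-- the bound for the kernel of the matrix -/
theorem totalG (hr : ∀ x, (r x : G ⧸ K) = x) (A : I → J → (G →₀ ℂ)) (d : J → ℝ)
    (hpeak : Cond K A d) (S : Finset G) (hS : ∀ i j, (A i j).support ⊆ S) :
    F.card * vd (LinearMap.ker (LB.opM A : EE G J →ₗ[ℂ] EE G I))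
      - (Fintype.card I : ℝ) * (LB.bd K F S).card ≤ F.card * ∑ j, d j := by
  have hkc : IsClosed (LinearMap.ker (LB.opM A : EE G J →ₗ[ℂ] EE G I) : Set (EE G J)) :=
    (LB.opM A).isClosed_ker
  have h1 := LB.lower K F r hr A S hS (LinearMap.ker (LB.opM A : EE G J →ₗ[ℂ] EE G I)) ⊥ hkc
    (inv_ker (LB.opM A) (LB.opM_eqv A)) (fun f hf => hf) (by
      rw [Submodule.bot_coe]; exact isClosed_singleton) (fun f hf => by
      rw [(Submodule.mem_bot ℂ).1 hf, map_zero]) (fun f hf h _ => by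
      rw [(Submodule.mem_bot ℂ).1 hf, inner_zero_left])
  have h2 := vd_nonneg (LB.pb K F r hr (⊥ : Submodule ℂ (EE G J)))
  have h3 := boundG K F r hr A d hpeak (Finset.univ : Finset (F × J)).card Finset.univ le_rfl
  have h4 : vd (LB.pb K F r hr (LinearMap.ker (LB.opM A : EE G J →ₗ[ℂ] EE G I)))
      ≤ vd (LB.pb K F r hr (LinearMap.ker (LB.opM A : EE G J →ₗ[ℂ] EE G I))
        ⊓ cosub K (Finset.univ : Finset (F × J))) :=
    vd_mono fun h hh => ⟨hh, fun k j hj => absurd (Finset.mem_univ j) hj⟩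
  have h5 : ∑ p : F × J, d p.2 = F.card * ∑ j, d j := by
    rw [Fintype.sum_prod_type]
    simp
  rw [h5] at h3
  linarith

/-- **The bound over the group.** -/
theorem mainG (hK : ∀ (S : Finset G) (ε : ℝ), 0 < ε → ∃ F : Finset (G ⧸ K), F.Nonempty ∧
      (({x | x ∈ F ∧ ∃ s ∈ S, s • x ∉ F} : Set (G ⧸ K)).ncard : ℝ) ≤ ε * F.card)
    (A : I → J → (G →₀ ℂ)) (d : J → ℝ) (hpeak : Cond K A d) :
    vd (LinearMap.ker (LB.opM A : EE G J →ₗ[ℂ] EE G I)) ≤ ∑ j, d j := by
  classical
  by_contra hcon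
  push Not at hcon
  set κ := vd (LinearMap.ker (LB.opM A : EE G J →ₗ[ℂ] EE G I)) with hκ
  set S : Finset G := Finset.univ.biUnion fun i => Finset.univ.biUnion fun j => (A i j).support
    with hS
  have hSs : ∀ i j, (A i j).support ⊆ S := by
    intro i j s hs
    rw [hS]
    simp only [Finset.mem_biUnion, Finset.mem_univ, true_and]
    exact ⟨i, j, hs⟩
  set ε : ℝ := (κ - ∑ j, d j) / (2 * (Fintype.card I + 1)) with hε
  have hε0 : 0 < ε := by
    rw [hε]
    apply div_pos (by linarith)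
    positivity
  obtain ⟨F, hF, hb⟩ := bd_small K hK S ε hε0
  have h1 := totalG K F Quotient.out (fun x => Quotient.out_eq x) A d hpeak S hSs
  rw [← hκ] at h1
  have hFc : (0 : ℝ) < F.card := by exact_mod_cast hF.card_pos
  have hI : (0 : ℝ) ≤ Fintype.card I := by positivity
  have h2 : (Fintype.card I : ℝ) * (LB.bd K F S).card ≤ (Fintype.card I : ℝ) * (ε * F.card) :=
    mul_le_mul_of_nonneg_left hb hI
  have h3 : (Fintype.card I : ℝ) * ε < κ - ∑ j, d j := by
    rw [hε, mul_div_assoc', div_lt_iff₀ (by positivity)]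
    nlinarith
  nlinarith

end

end Pool.Agent.Q91.TE.PM
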