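import Pool.Agent.Q91.TE.Face

set_option autoImplicit false
set_option linter.unusedSectionVars false

/-! Elements with at most two terms, one-by-one matrices and monomial matrices. -/

namespace Pool.Agent.Q91.TE

open Pool.Agent.W649.ZL Finset

universe u

section
variable {G : Type u} [Group G]

/-- cyclic groups generated by elements of infinite order are locally indicable -/
theorem li_zpowers (x : G) (hx : ∀ n : ℕ, 0 < n → x ^ n ≠ 1) : LI (Subgroup.zpowers x) := by
  have hinj : Function.Injective (fun n : ℤ => x ^ n) := by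
    have : ¬ IsOfFinOrder x := by
      rw [isOfFinOrder_iff_pow_eq_one]
      rintro ⟨n, hn, h⟩
      exact hx n hn h
    exact injective_zpow_iff_not_isOfFinOrder.2 this
  let e : Multiplicative ℤ →* Subgroup.zpowers x :=
    { toFun := fun n => ⟨x ^ (Multiplicative.toAdd n), ⟨_, rfl⟩⟩
      map_one' := by apply Subtype.ext; simp
      map_mul' := by intro a b; apply Subtype.ext; simp [zpow_add] }
  have hbij : Function.Bijective e := by
    constructor
    · intro a b hab
      exact hinj (congrArg Subtype.val hab)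
    · rintro ⟨_, n, rfl⟩
      exact ⟨Multiplicative.ofAdd n, rfl⟩
  let E := MulEquiv.ofBijective e hbij
  intro K _ hne
  refine ⟨E.symm.toMonoidHom.comp K.subtype, ?_⟩
  obtain ⟨k, hk⟩ := (K.ne_bot_iff_exists_ne_one).1 hne
  refine ⟨k, fun h => hk ?_⟩
  have h1 : E.symm (k : Subgroup.zpowers x) = 1 := h
  rw [MulEquiv.map_eq_one_iff] at h1
  exact Subtype.ext h1

theorem injective_le_two (htf : ∀ g : G, ∀ n : ℕ, 0 < n → g ^ n = 1 → g = 1) (α : G →₀ ℂ)
    (h0 : α ≠ 0) (h2 : α.support.card ≤ 2) : Function.Injective (cop α) := by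
  classical
  obtain ⟨x, hx⟩ := Finsupp.support_nonempty_iff.2 h0
  by_cases h : ∃ y ∈ α.support, y ≠ x
  · obtain ⟨y, hy, hyx⟩ := h
    have hne : x⁻¹ * y ≠ 1 := by
      intro h1
      exact hyx (inv_mul_eq_one.1 h1).symm
    refine LI_coset_injective x (Subgroup.zpowers (x⁻¹ * y))
      (li_zpowers _ fun n hn h1 => hne (htf _ n hn h1)) α ?_ h0
    intro z hz
    have hsub : ({x, y} : Finset G) ⊆ α.support := by
      intro w hw
      rw [Finset.mem_insert, Finset.mem_singleton] at hw
      rcases hw with rfl | rfl <;> assumption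
    have heq : ({x, y} : Finset G) = α.support := by
      apply Finset.eq_of_subset_of_card_le hsub
      rw [Finset.card_pair hyx.symm]
      exact h2
    rw [← heq] at hz
    rw [Finset.mem_insert, Finset.mem_singleton] at hz
    rcases hz with rfl | rfl
    · rw [inv_mul_cancel]; exact one_mem _
    · exact Subgroup.mem_zpowers _
  · push Not at h
    have hbot : LI (⊥ : Subgroup G) := by
      intro K _ hne
      exact absurd (Subsingleton.elim K ⊥) hne
    refine LI_coset_injective x ⊥ hbot α ?_ h0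
    intro z hz
    rw [h z hz, inv_mul_cancel]
    exact one_mem _

/-- the one-by-one matrix of an element -/
def ent (α : G →₀ ℂ) : Fin 1 → Fin 1 → (G →₀ ℂ) := fun _ _ => α

theorem mem_kernM_ent (α : G →₀ ℂ) (x : lp (fun _ : Fin 1 × G => ℂ) 2) :
    x ∈ kernM (ent α) ↔ ∀ g : G, ∑ h ∈ α.support, x (0, g * h⁻¹) * α h = 0 := by
  constructor
  · intro hx g
    have := hx 0 g
    simpa [ent] using this
  · intro hx j g
    have := hx g
    simpa [ent] using this

/-- an element with at most two terms has no kernel, for right multiplication -/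
theorem kernM_le_two (htf : ∀ g : G, ∀ n : ℕ, 0 < n → g ^ n = 1 → g = 1) (α : G →₀ ℂ)
    (h0 : α ≠ 0) (h2 : α.support.card ≤ 2) (x : lp (fun _ : Fin 1 × G => ℂ) 2)
    (hx : x ∈ kernM (ent α)) : x = 0 := by
  classical
  rw [mem_kernM_ent] at hx
  -- the element with the inverted group elements
  let e : G ≃ G := Equiv.inv G
  set β : G →₀ ℂ := α.equivMapDomain e with hβ
  have hβ0 : β ≠ 0 := by
    intro h
    apply h0
    ext g
    have := congrArg (fun f : G →₀ ℂ => f g⁻¹) h
    simp only [hβ, Finsupp.equivMapDomain_apply] at this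
    have h1 : e.symm g⁻¹ = g := inv_inv g
    rw [h1] at this
    exact this
  have hβc : β.support.card ≤ 2 := by
    have : β.support = α.support.map e.toEmbedding := rfl
    rw [this, card_map]
    exact h2
  have hinj := injective_le_two htf β hβ0 hβc
  have hreg := (regular_iff β).2 hinj
  by_contra hne
  have hmem : Memℓp (fun g : G => x (0, g⁻¹)) 2 := by
    apply memℓp_gen
    have e2 : ENNReal.toReal 2 = ((2 : ℕ) : ℝ) := by norm_num
    rw [e2]
    simp only [Real.rpow_natCast]
    exact (summable_sq_lp x).comp_injective (i := fun g : G => ((0 : Fin 1), g⁻¹)) (by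
      intro a b hab
      exact inv_injective (congrArg Prod.snd hab))
  have hf0 : (fun g : G => x (0, g⁻¹)) ≠ 0 := by
    intro h
    apply hne
    ext ⟨i, g⟩
    have h1 := congrFun h g⁻¹
    simp only [inv_inv] at h1
    have hi : i = 0 := Subsingleton.elim _ _
    rw [hi]
    exact h1
  obtain ⟨g, hg⟩ := hreg _ hmem hf0
  apply hg
  have h1 := hx g⁻¹
  have h3 : β.support = α.support.map e.toEmbedding := rfl
  rw [h3, sum_map]
  refine Eq.trans ?_ h1
  refine sum_congr rfl fun h _ => ?_
  have h4 : β (e.toEmbedding h) = α h := by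
    rw [hβ, Finsupp.equivMapDomain_apply]
    congr 1
    exact e.symm_apply_apply h
  have h5 : ((e.toEmbedding h)⁻¹ * g)⁻¹ = g⁻¹ * h⁻¹ := by
    change ((h⁻¹)⁻¹ * g)⁻¹ = _
    rw [inv_inv, mul_inv_rev]
  simp only [h4, h5]
  ring

theorem kerDimM_zero (α : G →₀ ℂ) (h : ∀ x ∈ kernM (ent α), x = 0) : kerDimM (ent α) = 0 := by
  classical
  have hk : kernM (ent α) = {0} := by
    ext x
    constructor
    · intro hx; exact h x hx
    · rintro rfl
      rw [mem_kernM_ent]
      intro g
      exact sum_eq_zero fun h _ => by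
        rw [lp.coeFn_zero, Pi.zero_apply, zero_mul]
  unfold kerDimM
  rw [hk]
  simp

/-- monomial matrices -/
theorem monomial {n : ℕ} (σ : Equiv.Perm (Fin n)) (b : Fin n → (G →₀ ℂ))
    (B : Fin n → Fin n → (G →₀ ℂ)) (hB1 : ∀ i, B i (σ i) = b i)
    (hB0 : ∀ i j, j ≠ σ i → B i j = 0) :
    kerDimM B ≤ ∑ i, kerDimM (ent (b i)) := by
  classical
  unfold kerDimM
  refine sum_le_sum fun i _ => ?_
  rw [Fin.sum_univ_one]
  apply sub_le_sub_left
  apply pow_le_pow_left₀ Metric.infDist_nonneg
  have hne : (kernM B).Nonempty := ⟨0, fun j g => sum_eq_zero fun k _ => sum_eq_zero fun h _ => by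
    rw [lp.coeFn_zero, Pi.zero_apply, zero_mul]⟩
  rw [Metric.le_infDist hne]
  intro x hx
  have hmem : Memℓp (fun p : Fin 1 × G => x (i, p.2)) 2 := by
    apply memℓp_gen
    have e2 : ENNReal.toReal 2 = ((2 : ℕ) : ℝ) := by norm_num
    rw [e2]
    simp only [Real.rpow_natCast]
    exact (summable_sq_lp x).comp_injective (i := fun p : Fin 1 × G => (i, p.2)) (by
      rintro ⟨a, g⟩ ⟨b, g'⟩ hab
      have h3 : (i, g) = (i, g') := hab
      have h4 : g = g' := congrArg Prod.snd h3
      exact Prod.ext (Subsingleton.elim _ _) h4)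
  set x' : lp (fun _ : Fin 1 × G => ℂ) 2 := ⟨fun p => x (i, p.2), hmem⟩ with hx'
  have hx'k : x' ∈ kernM (ent (b i)) := by
    rw [mem_kernM_ent]
    intro g
    have h1 := hx (σ i) g
    rw [sum_eq_single i] at h1
    · rw [hB1] at h1
      exact h1
    · intro k _ hk
      rw [hB0 k (σ i) (fun h => hk (σ.injective h).symm)]
      simp
    · intro h; exact absurd (mem_univ i) h
  refine (Metric.infDist_le_dist_of_mem hx'k).trans ?_
  rw [dist_eq_norm, dist_eq_norm]
  apply le_of_sq_le_sq _ (norm_nonneg _)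
  rw [norm_sq_lp, norm_sq_lp]
  have hinj : Function.Injective (fun p : Fin 1 × G => (i, p.2)) := by
    rintro ⟨a, g⟩ ⟨b, g'⟩ hab
    have h3 : (i, g) = (i, g') := hab
    have h4 : g = g' := congrArg Prod.snd h3
    exact Prod.ext (Subsingleton.elim _ _) h4
  refine Summable.tsum_le_tsum_of_inj (fun p : Fin 1 × G => (i, p.2)) hinj
    (fun _ _ => sq_nonneg _) (fun p => le_of_eq ?_) (summable_sq_lp _) (summable_sq_lp _)
  obtain ⟨a, g⟩ := p
  have ha : a = 0 := Subsingleton.elim _ _
  subst ha
  change ‖(lp.single (E := fun _ : Fin 1 × G => ℂ) 2 ((0 : Fin 1), (1 : G)) (1 : ℂ)) (0, g)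
    - x (i, g)‖ ^ 2 = ‖(lp.single (E := fun _ : Fin n × G => ℂ) 2 (i, (1 : G)) (1 : ℂ)) (i, g)
    - x (i, g)‖ ^ 2
  congr 3
  by_cases hg : g = 1
  · subst hg
    rw [lp.single_apply_self, lp.single_apply_self]
  · rw [lp.single_apply_ne, lp.single_apply_ne]
    · intro h; exact hg (congrArg Prod.snd h)
    · intro h; exact hg (congrArg Prod.snd h)

theorem kernM_zero {m l : ℕ} (A : Fin m → Fin l → (G →₀ ℂ)) (h : kerDimM A ≤ 0)
    (x : lp (fun _ : Fin m × G => ℂ) 2) (hx : x ∈ kernM A) : x = 0 := by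
  obtain ⟨T, hsub⟩ : ∃ T : Finset G, ∀ k j, (A k j).support ⊆ T := by
    classical
    refine ⟨Finset.univ.biUnion fun i : Fin m =>
      Finset.univ.biUnion fun j : Fin l => (A i j).support, fun k j x hx => ?_⟩
    simp only [Finset.mem_biUnion, Finset.mem_univ, true_and]
    exact ⟨k, j, hx⟩
  have hA := matM_coefT T A hsub
  rw [← hA, kerDimM_eq] at h
  have hinj := injective_of_vd_eq_zero _ (lin_eqv _ (famR_eqv _ _ _) (coefT T A)) h
  rw [← hA] at hx
  have h1 : flp x ∈ flp '' kernM (matM (fun i : T × Fin m × Fin l => (i.1 : G)) (fun i => i.2.1)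
      (fun i => i.2.2) (coefT T A)) := ⟨x, hx, rfl⟩
  rw [flp_image] at h1
  have h2 : flp x = 0 := hinj (by rw [map_zero]; exact h1)
  have h3 : flp x = flp 0 := by
    rw [h2]; ext y; rfl
  exact isometry_flp.injective h3

end

end Pool.Agent.Q91.TE
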