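import Pool.Agent.Q91.TE.Peak
import Pool.Agent.Q91.TE.Two
import Pool.Agent.Q91.LB.Op
import Pool.Agent.W649.ZL.Lead
import Pool.Agent.W649.ZL.Fam

set_option autoImplicit false
set_option linter.unusedSectionVars false

/-! Matrices: kernels on finitely many cosets when some output is hit only once. -/

namespace Pool.Agent.Q91.TE.PM

open Pool.Agent.W649.ZL Filter Topology
open Pool.Agent.Q91
open scoped InnerProductSpace InnerProduct ENNReal

universe u v w z

section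
variable {G : Type u} [Group G] {I : Type v} {J : Type w} [Fintype I] [Fintype J] [DecidableEq I]
  [DecidableEq J]
variable (K : Subgroup G) [DecidableEq (G ⧸ K)] (F : Finset (G ⧸ K)) (r : G ⧸ K → G)

/-- the coordinate at `p` -/
noncomputable def C1 (p : F × J) :
    EE K (F × J) →L[ℂ] EE K (({(p.1 : G ⧸ K)} : Finset (G ⧸ K)) × Unit) :=
  elem (1 : K) (⟨(p.1 : G ⧸ K), Finset.mem_singleton_self _⟩, ()) p

theorem C1_apply (p : F × J) (h : EE K (F × J)) (k : K)
    (z : ({(p.1 : G ⧸ K)} : Finset (G ⧸ K)) × Unit) : C1 K F p h (k, z) = h (k, p) := by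
  unfold C1
  rw [elem_apply]
  have hz : z = (⟨(p.1 : G ⧸ K), Finset.mem_singleton_self _⟩, ()) := by
    obtain ⟨⟨z, hz⟩, ⟨⟩⟩ := z
    have := Finset.mem_singleton.1 hz
    subst this
    rfl
  rw [if_pos hz, inv_one, one_mul]

theorem exF_C1 (hr : ∀ x, (r x : G ⧸ K) = x) (p : F × J) (h : EE K (F × J)) (g : G)
    (hg : (g : G ⧸ K) = p.1) :
    LB.exF K {(p.1 : G ⧸ K)} r hr (C1 K F p h) (g, ()) = LB.exF K F r hr h (g, p.2) := by
  rw [LB.exF_apply, LB.exF_apply]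
  unfold LB.exFun
  rw [dif_pos (show ((g : G) : G ⧸ K) ∈ ({(p.1 : G ⧸ K)} : Finset (G ⧸ K)) from by
    rw [hg]; exact Finset.mem_singleton_self _),
    dif_pos (show (((g, p.2) : G × J).1 : G ⧸ K) ∈ F from by
      change (g : G ⧸ K) ∈ F
      rw [hg]; exact p.1.2), C1_apply]
  have e : p.1 = ⟨(g : G ⧸ K), by rw [hg]; exact p.1.2⟩ := Subtype.ext hg.symm
  exact congrArg (fun z : F => h ((⟨(r (g : G ⧸ K))⁻¹ * g, LB.mem_K K r hr g⟩ : K), (z, p.2))) e

theorem exF_C1_zero (hr : ∀ x, (r x : G ⧸ K) = x) (p : F × J) (h : EE K (F × J)) (g : G)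
    (hg : (g : G ⧸ K) ≠ p.1) :
    LB.exF K {(p.1 : G ⧸ K)} r hr (C1 K F p h) (g, ()) = 0 := by
  rw [LB.exF_apply]
  apply LB.exFun_zero
  intro h2
  exact hg (Finset.mem_singleton.1 h2)

/-- the coordinate at `p` is in the kernel of the part -/
theorem C1_mem (hr : ∀ x, (r x : G ⧸ K) = x) (A : I → J → (G →₀ ℂ)) (Z : Finset (F × J))
    (p : F × J) (i : I) (t : G)
    (huniq : ∀ q ∈ Z, ∀ s ∈ (A i q.2).support, s • (q.1 : G ⧸ K) = t • (p.1 : G ⧸ K) → q = p)
    (h : EE K (F × J)) (h1 : LB.opM A (LB.exF K F r hr h) = 0) (h2 : h ∈ cosub K Z) :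
    cop (cpart K (A i p.2) p.1 (t • (p.1 : G ⧸ K)))
      (LB.exF K {(p.1 : G ⧸ K)} r hr (C1 K F p h)) = 0 := by
  ext ⟨g, ⟨⟩⟩
  rw [cop_apply]
  change _ = (0 : ℂ)
  have hco : ∀ s : G, ((s⁻¹ * g : G) : G ⧸ K) = s⁻¹ • (g : G ⧸ K) := fun s => rfl
  set y : G ⧸ K := t • (p.1 : G ⧸ K) with hy
  by_cases hg : (g : G ⧸ K) = y
  · have h3 : LB.opM A (LB.exF K F r hr h) (g, i) = 0 := by rw [h1]; rfl
    rw [LB.opM_apply] at h3
    -- terms outside the peak vanish
    have hz : ∀ (k : J) (s : G), s ∈ (A i k).support →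
        ¬ (k = p.2 ∧ s • (p.1 : G ⧸ K) = y) → LB.exF K F r hr h (s⁻¹ * g, k) = 0 := by
      intro k s hs hn
      rw [LB.exF_apply]
      by_cases hF : s⁻¹ • y ∈ F
      · unfold LB.exFun
        have hm : (((s⁻¹ * g, k) : G × J).1 : G ⧸ K) ∈ F := by
          change ((s⁻¹ * g : G) : G ⧸ K) ∈ F
          rw [hco, hg]; exact hF
        rw [dif_pos hm]
        apply h2
        intro hZ
        have h9 : (((⟨s⁻¹ • y, hF⟩ : F), k) : F × J)
            = (⟨(((s⁻¹ * g, k) : G × J).1 : G ⧸ K), hm⟩, ((s⁻¹ * g, k) : G × J).2) := by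
          apply Prod.ext
          · apply Subtype.ext
            change s⁻¹ • y = s⁻¹ • (g : G ⧸ K)
            rw [hg]
          · rfl
        rw [← h9] at hZ
        have h7 := huniq _ hZ s hs (smul_inv_smul s y)
        apply hn
        have h8 : ((⟨s⁻¹ • y, hF⟩ : F), k) = p := h7
        refine ⟨congrArg Prod.snd h8, ?_⟩
        rw [← congrArg Prod.fst h8]
        exact smul_inv_smul s y
      · apply LB.exFun_zero
        change ((s⁻¹ * g : G) : G ⧸ K) ∉ F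
        rw [hco, hg]; exact hF
    rw [Finset.sum_eq_single p.2] at h3
    · rw [← h3]
      change _ = ∑ s ∈ (A i p.2).support, A i p.2 s * LB.exF K F r hr h (s⁻¹ * g, p.2)
      have hsub : (cpart K (A i p.2) p.1 y).support ⊆ (A i p.2).support := fun s hs =>
        ((mem_cpart K (A i p.2) p.1 y s).1 hs).1
      rw [← Finset.sum_subset hsub
        (f := fun s => A i p.2 s * LB.exF K F r hr h (s⁻¹ * g, p.2))]
      · refine Finset.sum_congr rfl fun s hs => ?_
        have hsx := ((mem_cpart K (A i p.2) p.1 y s).1 hs).2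
        rw [cpart_apply K (A i p.2) p.1 y s hsx, exF_C1]
        rw [hco, hg, ← hsx, inv_smul_smul]
      · intro s hs hns
        rw [hz p.2 s hs (fun hh => hns ((mem_cpart K (A i p.2) p.1 y s).2 ⟨hs, hh.2⟩)), mul_zero]
    · intro k _ hk
      refine Finset.sum_eq_zero fun s hs => ?_
      change A i k s * LB.exF K F r hr h (s⁻¹ * g, k) = 0
      rw [hz k s hs (fun hh => hk hh.1), mul_zero]
    · intro hh; exact absurd (Finset.mem_univ _) hh
  · refine Finset.sum_eq_zero fun s hs => ?_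
    rw [exF_C1_zero, mul_zero]
    intro h3
    apply hg
    rw [hco] at h3
    rw [← ((mem_cpart K (A i p.2) p.1 y s).1 hs).2, ← h3, smul_inv_smul]

/-- **The bound.** -/
theorem bound (hr : ∀ x, (r x : G ⧸ K) = x) (A : I → J → (G →₀ ℂ)) (d : J → ℝ)
    (hpeak : ∀ Z : Finset ((G ⧸ K) × J), Z.Nonempty → ∃ p ∈ Z, 1 ≤ d p.2 ∨
      ∃ i, ∃ t ∈ (A i p.2).support, kDim (cpart K (A i p.2) p.1 (t • p.1)) ≤ d p.2 ∧
        ∀ q ∈ Z, ∀ s ∈ (A i q.2).support, s • q.1 = t • p.1 → q = p) :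
    ∀ (n : ℕ) (Z : Finset (F × J)), Z.card = n →
      vd (LB.pb K F r hr (LinearMap.ker (LB.opM A : EE G J →ₗ[ℂ] EE G I)) ⊓ cosub K Z)
        ≤ ∑ p ∈ Z, d p.2 := by
  intro n
  induction n with
  | zero =>
    intro Z hZ
    have h1 : vd (LB.pb K F r hr (LinearMap.ker (LB.opM A : EE G J →ₗ[ℂ] EE G I)) ⊓ cosub K Z)
        ≤ vd (cosub K Z) := vd_mono inf_le_right
    rw [vd_cosub, hZ] at h1
    have h2 : Z = ∅ := Finset.card_eq_zero.1 hZ
    subst h2
    simpa using h1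
  | succ n ih =>
    intro Z hZ
    have hne : (Z.image (fun p : F × J => ((p.1 : G ⧸ K), p.2))).Nonempty := by
      rw [Finset.image_nonempty]
      exact Finset.card_pos.1 (by omega)
    obtain ⟨p0, hp0, hcase⟩ := hpeak _ hne
    obtain ⟨p, hp, rfl⟩ := Finset.mem_image.1 hp0
    set U := LB.pb K F r hr (LinearMap.ker (LB.opM A : EE G J →ₗ[ℂ] EE G I)) ⊓ cosub K Z
      with hU
    have hkc : IsClosed (LinearMap.ker (LB.opM A : EE G J →ₗ[ℂ] EE G I) : Set (EE G J)) :=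
      (LB.opM A).isClosed_ker
    have hUi : W649.ZL.Inv U := inv_inf
      (LB.pb_inv K F r hr _ fun k f hf => inv_ker (LB.opM A) (LB.opM_eqv A) (k : G) f hf)
      (cosub_inv Z)
    have hUc : IsClosed (U : Set (EE K (F × J))) := by
      rw [hU, Submodule.coe_inf]
      exact (LB.pb_closed K F r hr _ hkc).inter (cosub_closed Z)
    have hrn := rank_nullity (C1 K F p) (elem_eqv _ _ _) hUi hUc
    have h1 : vd (U ⊓ LinearMap.ker (C1 K F p : EE K (F × J) →ₗ[ℂ]
        EE K (({(p.1 : G ⧸ K)} : Finset (G ⧸ K)) × Unit))) ≤ ∑ q ∈ Z.erase p, d q.2 := by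
      refine (vd_mono ?_).trans (ih (Z.erase p) (by rw [Finset.card_erase_of_mem hp, hZ]; rfl))
      rintro h ⟨⟨ha, hb⟩, hc⟩
      refine ⟨ha, ?_⟩
      intro k j hj
      by_cases hjx : j = p
      · subst hjx
        have hc' : C1 K F j h = 0 := hc
        rw [← C1_apply K F j h k (⟨(j.1 : G ⧸ K), Finset.mem_singleton_self _⟩, ()), hc']
        rfl
      · exact hb k j (fun hjZ => hj (Finset.mem_erase.2 ⟨hjx, hjZ⟩))
    have h2 : vd (U.map (C1 K F p : EE K (F × J) →ₗ[ℂ]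
        EE K (({(p.1 : G ⧸ K)} : Finset (G ⧸ K)) × Unit))) ≤ d p.2 := by
      rcases hcase with h1d | ⟨i, t, ht, hkd, huniq⟩
      · refine le_trans ?_ h1d
        refine (vd_le_card _).trans (le_of_eq ?_)
        simp
      · have huniq' : ∀ q ∈ Z, ∀ s ∈ (A i q.2).support,
            s • (q.1 : G ⧸ K) = t • (p.1 : G ⧸ K) → q = p := by
          intro q hq s hs he
          have h3 : (((q.1 : G ⧸ K), q.2) : (G ⧸ K) × J) = ((p.1 : G ⧸ K), p.2) :=
            huniq ((q.1 : G ⧸ K), q.2) (Finset.mem_image_of_mem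
              (fun p : F × J => ((p.1 : G ⧸ K), p.2)) hq) s hs he
          have h4 : (q.1 : G ⧸ K) = p.1 := (Prod.mk.inj h3).1
          have h5 : q.2 = p.2 := (Prod.mk.inj h3).2
          exact Prod.ext (Subtype.ext h4) h5
        have h3 : U.map (C1 K F p : EE K (F × J) →ₗ[ℂ]
            EE K (({(p.1 : G ⧸ K)} : Finset (G ⧸ K)) × Unit))
            ≤ LB.pb K {(p.1 : G ⧸ K)} r hr (LinearMap.ker
              (cop (cpart K (A i p.2) p.1 (t • (p.1 : G ⧸ K))) :
                EE G Unit →ₗ[ℂ] EE G Unit)) := by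
          rintro _ ⟨h, ⟨ha, hb⟩, rfl⟩
          rw [LB.mem_pb]
          exact C1_mem K F r hr A Z p i t huniq' h ha hb
        refine (vd_mono h3).trans ?_
        refine (LB.vd_pb_le K _ r hr _ (ContinuousLinearMap.isClosed_ker _)
          (inv_ker _ (cop_eqv _))).trans ?_
        rw [Finset.card_singleton, Nat.cast_one, one_mul, ← kDim_eq]
        exact hkd
    rw [hrn, ← Finset.add_sum_erase Z (fun q => d q.2) hp]
    linarith

/-- the bound for the kernel of the matrix -/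
theorem total (hr : ∀ x, (r x : G ⧸ K) = x) (A : I → J → (G →₀ ℂ)) (d : J → ℝ)
    (hpeak : ∀ Z : Finset ((G ⧸ K) × J), Z.Nonempty → ∃ p ∈ Z, 1 ≤ d p.2 ∨
      ∃ i, ∃ t ∈ (A i p.2).support, kDim (cpart K (A i p.2) p.1 (t • p.1)) ≤ d p.2 ∧
        ∀ q ∈ Z, ∀ s ∈ (A i q.2).support, s • q.1 = t • p.1 → q = p)
    (S : Finset G) (hS : ∀ i j, (A i j).support ⊆ S) :
    F.card * vd (LinearMap.ker (LB.opM A : EE G J →ₗ[ℂ] EE G I))
      - (Fintype.card I : ℝ) * (LB.bd K F S).card ≤ F.card * ∑ j, d j := by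
  have hkc : IsClosed (LinearMap.ker (LB.opM A : EE G J →ₗ[ℂ] EE G I) : Set (EE G J)) :=
    (LB.opM A).isClosed_ker
  have h1 := LB.lower K F r hr A S hS (LinearMap.ker (LB.opM A : EE G J →ₗ[ℂ] EE G I)) ⊥ hkc
    (inv_ker (LB.opM A) (LB.opM_eqv A)) (fun f hf => hf) (by
      rw [Submodule.bot_coe]; exact isClosed_singleton) (fun f hf => by
      rw [(Submodule.mem_bot ℂ).1 hf, map_zero]) (fun f hf h _ => by
      rw [(Submodule.mem_bot ℂ).1 hf, inner_zero_left])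
  have h2 := vd_nonneg (LB.pb K F r hr (⊥ : Submodule ℂ (EE G J)))
  have h3 := bound K F r hr A d hpeak (Finset.univ : Finset (F × J)).card Finset.univ rfl
  have h4 : vd (LB.pb K F r hr (LinearMap.ker (LB.opM A : EE G J →ₗ[ℂ] EE G I)))
      ≤ vd (LB.pb K F r hr (LinearMap.ker (LB.opM A : EE G J →ₗ[ℂ] EE G I))
        ⊓ cosub K (Finset.univ : Finset (F × J))) :=
    vd_mono fun h hh => ⟨hh, fun k j hj => absurd (Finset.mem_univ j) hj⟩
  have h5 : ∑ p : F × J, d p.2 = F.card * ∑ j, d j := by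
    rw [Fintype.sum_prod_type]
    simp
  rw [h5] at h3
  linarith

/-- the boundary is small -/
theorem bd_small (hK : ∀ (S : Finset G) (ε : ℝ), 0 < ε → ∃ F : Finset (G ⧸ K), F.Nonempty ∧
      (({x | x ∈ F ∧ ∃ s ∈ S, s • x ∉ F} : Set (G ⧸ K)).ncard : ℝ) ≤ ε * F.card)
    (S : Finset G) (ε : ℝ) (hε : 0 < ε) :
    ∃ F : Finset (G ⧸ K), F.Nonempty ∧ ((LB.bd K F S).card : ℝ) ≤ ε * F.card := by
  classical
  set ε' : ℝ := ε / (S.card + 1) with hε'
  have hε'0 : 0 < ε' := by positivity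
  obtain ⟨F, hF, hb⟩ := hK ((S ×ˢ S).image fun p => p.1⁻¹ * p.2) ε' hε'0
  refine ⟨F, hF, ?_⟩
  set B : Finset (G ⧸ K) := F.filter fun x => ∃ s ∈ (S ×ˢ S).image fun p => p.1⁻¹ * p.2,
    s • x ∉ F with hB
  have hBn : ({x | x ∈ F ∧ ∃ s ∈ (S ×ˢ S).image fun p => p.1⁻¹ * p.2, s • x ∉ F} :
      Set (G ⧸ K)).ncard = B.card := by
    rw [← Set.ncard_coe_finset]
    congr 1
    ext x
    rw [Finset.mem_coe, hB, Finset.mem_filter]
    rfl
  rw [hBn] at hb
  have h1 : (LB.bd K F S).image Subtype.val ⊆ (S ×ˢ B).image fun p => p.1 • p.2 := by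
    intro y0 hy0
    obtain ⟨⟨y, hy⟩, h2, rfl⟩ := Finset.mem_image.1 hy0
    obtain ⟨s', hs', hs'F⟩ := (Finset.mem_filter.1 h2).2
    obtain ⟨⟨s, x⟩, h3, h4⟩ := Finset.mem_image.1 hy
    obtain ⟨hs, hx⟩ := Finset.mem_product.1 h3
    rw [Finset.mem_image]
    refine ⟨(s, x), Finset.mem_product.2 ⟨hs, Finset.mem_filter.2 ⟨hx, s'⁻¹ * s,
      Finset.mem_image.2 ⟨(s', s), Finset.mem_product.2 ⟨hs', hs⟩, rfl⟩, ?_⟩⟩, h4⟩
    rw [mul_smul]
    have h5 : s • x = y := h4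
    rw [h5]
    exact hs'F
  have h2 : (LB.bd K F S).card ≤ S.card * B.card := by
    rw [← Finset.card_image_of_injective (LB.bd K F S) Subtype.val_injective]
    refine (Finset.card_le_card h1).trans ?_
    refine Finset.card_image_le.trans ?_
    rw [Finset.card_product]
  have h3 : ((LB.bd K F S).card : ℝ) ≤ S.card * B.card := by exact_mod_cast h2
  have hFc : (0 : ℝ) ≤ F.card := by positivity
  calc ((LB.bd K F S).card : ℝ) ≤ S.card * B.card := h3
    _ ≤ S.card * (ε' * F.card) := by gcongr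
    _ = (S.card * ε') * F.card := by ring
    _ ≤ ε * F.card := by
        apply mul_le_mul_of_nonneg_right _ hFc
        rw [hε', mul_div_assoc', div_le_iff₀ (by positivity)]
        nlinarith

/-- **The bound over the group.** -/
theorem main (hK : ∀ (S : Finset G) (ε : ℝ), 0 < ε → ∃ F : Finset (G ⧸ K), F.Nonempty ∧
      (({x | x ∈ F ∧ ∃ s ∈ S, s • x ∉ F} : Set (G ⧸ K)).ncard : ℝ) ≤ ε * F.card)
    (A : I → J → (G →₀ ℂ)) (d : J → ℝ)
    (hpeak : ∀ Z : Finset ((G ⧸ K) × J), Z.Nonempty → ∃ p ∈ Z, 1 ≤ d p.2 ∨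
      ∃ i, ∃ t ∈ (A i p.2).support, kDim (cpart K (A i p.2) p.1 (t • p.1)) ≤ d p.2 ∧
        ∀ q ∈ Z, ∀ s ∈ (A i q.2).support, s • q.1 = t • p.1 → q = p) :
    vd (LinearMap.ker (LB.opM A : EE G J →ₗ[ℂ] EE G I)) ≤ ∑ j, d j := by
  classical
  by_contra hcon
  push Not at hcon
  set κ := vd (LinearMap.ker (LB.opM A : EE G J →ₗ[ℂ] EE G I)) with hκ
  set S : Finset G := Finset.univ.biUnion fun i => Finset.univ.biUnion fun j => (A i j).support
    with hS
  have hSs : ∀ i j, (A i j).support ⊆ S := by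
    intro i j s hs
    rw [hS]
    simp only [Finset.mem_biUnion, Finset.mem_univ, true_and]
    exact ⟨i, j, hs⟩
  set ε : ℝ := (κ - ∑ j, d j) / (2 * (Fintype.card I + 1)) with hε
  have hε0 : 0 < ε := by
    rw [hε]
    apply div_pos (by linarith)
    positivity
  obtain ⟨F, hF, hb⟩ := bd_small K hK S ε hε0
  have h1 := total K F Quotient.out (fun x => Quotient.out_eq x) A d hpeak S hSs
  rw [← hκ] at h1
  have hFc : (0 : ℝ) < F.card := by exact_mod_cast hF.card_pos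
  have hI : (0 : ℝ) ≤ Fintype.card I := by positivity
  have h2 : (Fintype.card I : ℝ) * (LB.bd K F S).card ≤ (Fintype.card I : ℝ) * (ε * F.card) :=
    mul_le_mul_of_nonneg_left hb hI
  have h3 : (Fintype.card I : ℝ) * ε < κ - ∑ j, d j := by
    rw [hε, mul_div_assoc', div_lt_iff₀ (by positivity)]
    nlinarith
  nlinarith

end

end Pool.Agent.Q91.TE.PM
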