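import Mathlib

set_option autoImplicit false

/-!
# Energy of the solutions of sparse convolution equations on trees

`T` is a finite set of terms, each in a row and a column; an unknown sits at the pairs
`(row, group element)`. A term `t` in the row of the node `x` leads to an equation, and the other
terms `u` in the column of `t` lead from there to the next nodes. Words are the non-backtracking
walks.
-/

namespace Pool.Agent.Q91.TE

open Finset

universe u

section
variable {T R G C : Type*} [Fintype T] [DecidableEq T] [DecidableEq R] [DecidableEq C]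

/-- the terms in row `i` different from `s` -/
def nx (row : T → R) (s : Option T) (i : R) : Finset T :=
  univ.filter fun t => row t = i ∧ s ≠ some t

/-- the other terms in the column of `t` -/
def nb (col : T → C) (t : T) : Finset T := univ.filter fun u => col u = col t ∧ u ≠ t

/-- non-backtracking walks with `j` steps from row `i`, entered by `s` -/
def Wd (row : T → R) (col : T → C) : ℕ → Option T → R → Finset (List (T × T))
  | 0, _, _ => {[]}
  | j + 1, s, i => (nx row s i).biUnion fun t => (nb col t).biUnion fun u =>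
      (Wd row col j (some u) (row u)).image (fun w => (t, u) :: w)

/-- end node of a walk -/
def nd (row : T → R) (st : T → T → G → G) : List (T × T) → R × G → R × G
  | [], x => x
  | p :: w, x => nd row st w (row p.2, st p.1 p.2 x.2)

theorem length_of_mem {row : T → R} {col : T → C} {j : ℕ} {s : Option T} {i : R}
    {w : List (T × T)} (h : w ∈ Wd row col j s i) : w.length = j := by
  induction j generalizing s i w with
  | zero =>
    rw [Wd, mem_singleton] at h
    rw [h]; rfl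
  | succ j ih =>
    simp only [Wd, mem_biUnion, mem_image] at h
    obtain ⟨t, _, u, _, w', hw', rfl⟩ := h
    rw [List.length_cons, ih hw']

/-- energy on level `j` -/
noncomputable def Lv (row : T → R) (col : T → C) (st : T → T → G → G) (F : R × G → ℂ)
    (s : Option T) (i : R) (j : ℕ) (g : G) : ℝ :=
  ∑ w ∈ Wd row col j s i, ‖F (nd row st w (i, g))‖ ^ 2

variable (row : T → R) (col : T → C) (st : T → T → G → G) (F : R × G → ℂ)

theorem Lv_zero (s : Option T) (i : R) (g : G) : Lv row col st F s i 0 g = ‖F (i, g)‖ ^ 2 := by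
  rw [Lv, Wd, sum_singleton]; rfl

theorem Lv_succ (s : Option T) (i : R) (j : ℕ) (g : G) :
    Lv row col st F s i (j + 1) g
      = ∑ t ∈ nx row s i, ∑ u ∈ nb col t, Lv row col st F (some u) (row u) j (st t u g) := by
  rw [Lv, Wd, sum_biUnion]
  · refine sum_congr rfl fun t _ => ?_
    rw [sum_biUnion]
    · refine sum_congr rfl fun u _ => ?_
      rw [sum_image (fun a _ b _ h => (List.cons.inj h).2)]
      rfl
    · intro u _ u' _ hne
      rw [Function.onFun, disjoint_left]
      intro w h1 h2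
      rw [mem_image] at h1 h2
      obtain ⟨a, _, rfl⟩ := h1
      obtain ⟨b, _, hb⟩ := h2
      apply hne
      have h3 := (List.cons.inj hb).1
      exact (congrArg Prod.snd h3).symm
  · intro t _ t' _ hne
    rw [Function.onFun, disjoint_left]
    intro w h1 h2
    simp only [mem_biUnion, mem_image] at h1 h2
    obtain ⟨u, _, a, _, rfl⟩ := h1
    obtain ⟨u', _, b, _, hb⟩ := h2
    apply hne
    have h3 := (List.cons.inj hb).1
    exact (congrArg Prod.fst h3).symm

omit [Fintype T] [DecidableEq T] in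
theorem cs (U : Finset T) (a v : T → ℂ) (h : T → ℝ) (hpos : ∀ u ∈ U, 0 < h u) :
    ‖∑ u ∈ U, a u * v u‖ ^ 2 ≤ (∑ u ∈ U, ‖a u‖ ^ 2 / h u) * ∑ u ∈ U, h u * ‖v u‖ ^ 2 := by
  have h1 : ‖∑ u ∈ U, a u * v u‖ ≤ ∑ u ∈ U, ‖a u‖ * ‖v u‖ := by
    refine (norm_sum_le _ _).trans (le_of_eq ?_)
    exact sum_congr rfl fun u _ => norm_mul _ _
  refine (pow_le_pow_left₀ (norm_nonneg _) h1 2).trans ?_
  apply sum_sq_le_sum_mul_sum_of_sq_le_mul
  · intro u hu; have := hpos u hu; positivity
  · intro u hu; have := hpos u hu; positivity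
  · intro u hu
    have := hpos u hu
    apply le_of_eq
    field_simp

variable (a : T → ℂ)

/-- The equations. -/
def Eqn : Prop := ∀ (t : T) (g : G),
  a t * F (row t, g) = - ∑ u ∈ nb col t, a u * F (row u, st t u g)

variable {row col st F a}

theorem step (hE : Eqn row col st F a) (t : T) (j : ℕ) (h : T → ℝ)
    (hpos : ∀ u ∈ nb col t, 0 < h u)
    (hL : ∀ u ∈ nb col t, ∀ g, h u * ‖F (row u, g)‖ ^ 2 ≤ Lv row col st F (some u) (row u) j g)
    (g : G) :
    ‖a t‖ ^ 2 * ‖F (row t, g)‖ ^ 2 ≤ (∑ u ∈ nb col t, ‖a u‖ ^ 2 / h u) *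
      ∑ u ∈ nb col t, Lv row col st F (some u) (row u) j (st t u g) := by
  rw [← mul_pow, ← norm_mul, hE t g, norm_neg]
  refine (cs _ a (fun u => F (row u, st t u g)) h hpos).trans ?_
  apply mul_le_mul_of_nonneg_left
  · exact sum_le_sum fun u hu => hL u hu _
  · exact sum_nonneg fun u hu => by have := hpos u hu; positivity

theorem Lv_nonneg (s : Option T) (i : R) (j : ℕ) (g : G) : 0 ≤ Lv row col st F s i j g :=
  sum_nonneg fun _ _ => sq_nonneg _

theorem step' (hE : Eqn row col st F a) (t : T) (j : ℕ) (h : T → ℝ)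
    (hpos : ∀ u ∈ nb col t, 0 < h u)
    (hL : ∀ u ∈ nb col t, ∀ g, h u * ‖F (row u, g)‖ ^ 2 ≤ Lv row col st F (some u) (row u) j g)
    (c : ℝ) (hc : c * (∑ u ∈ nb col t, ‖a u‖ ^ 2 / h u) ≤ ‖a t‖ ^ 2) (ha : a t ≠ 0) (g : G) :
    c * ‖F (row t, g)‖ ^ 2 ≤ ∑ u ∈ nb col t, Lv row col st F (some u) (row u) j (st t u g) := by
  have h1 := step hE t j h hpos hL g
  set P := ∑ u ∈ nb col t, ‖a u‖ ^ 2 / h u with hP
  set Q := ∑ u ∈ nb col t, Lv row col st F (some u) (row u) j (st t u g) with hQ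
  have hP0 : 0 ≤ P := sum_nonneg fun u hu => by have := hpos u hu; positivity
  have hQ0 : 0 ≤ Q := sum_nonneg fun u _ => Lv_nonneg _ _ _ _
  have ha2 : 0 < ‖a t‖ ^ 2 := by have := norm_pos_iff.2 ha; positivity
  have hF : 0 ≤ ‖F (row t, g)‖ ^ 2 := sq_nonneg _
  rcases hP0.eq_or_lt with h0 | h0
  · rw [← h0, zero_mul] at h1
    have h2 : ‖F (row t, g)‖ ^ 2 = 0 := by
      rcases hF.eq_or_lt with h3 | h3
      · exact h3.symm
      · exact absurd h1 (not_le.2 (mul_pos ha2 h3))
    rw [h2, mul_zero]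
    exact hQ0
  · have h2 : c * P * ‖F (row t, g)‖ ^ 2 ≤ P * Q := (mul_le_mul_of_nonneg_right hc hF).trans h1
    have h3 : P * (c * ‖F (row t, g)‖ ^ 2) ≤ P * Q := by linarith
    exact le_of_mul_le_mul_left h3 h0

/-- all levels together -/
theorem total (n : ℕ) (i : R) (g : G)
    (hs : Summable fun x : R × G => ‖F x‖ ^ 2)
    (hinj : ∀ j ≤ n, ∀ k ≤ n, ∀ w ∈ Wd row col j none i, ∀ v ∈ Wd row col k none i,
      nd row st w (i, g) = nd row st v (i, g) → w = v) :
    ∑ j ∈ range (n + 1), Lv row col st F none i j g ≤ ∑' x, ‖F x‖ ^ 2 := by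
  classical
  have h1 : ∑ j ∈ range (n + 1), Lv row col st F none i j g
      = ∑ w ∈ (range (n + 1)).biUnion (fun j => Wd row col j none i),
        ‖F (nd row st w (i, g))‖ ^ 2 := by
    rw [sum_biUnion]
    · rfl
    · intro j _ k _ hne
      rw [Function.onFun, disjoint_left]
      intro w h1 h2
      exact hne ((length_of_mem h1).symm.trans (length_of_mem h2))
  have hinj' : Set.InjOn (fun w => nd row st w (i, g))
      ((range (n + 1)).biUnion (fun j => Wd row col j none i) : Finset (List (T × T))) := by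
    intro w hw v hv h
    rw [mem_coe, mem_biUnion] at hw hv
    obtain ⟨j, hj, hw⟩ := hw
    obtain ⟨k, hk, hv⟩ := hv
    exact hinj j (Nat.lt_succ_iff.1 (mem_range.1 hj)) k (Nat.lt_succ_iff.1 (mem_range.1 hk))
      w hw v hv h
  rw [h1, ← sum_image (f := fun x => ‖F x‖ ^ 2) hinj']
  exact hs.sum_le_tsum _ fun _ _ => sq_nonneg _

/-- potentials -/
theorem pot (hE : Eqn row col st F a) (ha : ∀ t, a t ≠ 0) (h : T → ℝ) (h1 : ∀ s, h s ≤ 1)
    (c : T → T → ℝ)
    (hc : ∀ s t, c s t ≠ 0 → (∀ u ∈ nb col t, 0 < h u) ∧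
      c s t * (∑ u ∈ nb col t, ‖a u‖ ^ 2 / h u) ≤ ‖a t‖ ^ 2)
    (hs : ∀ s, h s ≤ ∑ t ∈ nx row (some s) (row s), c s t) (j : ℕ) (s : T) (g : G) :
    h s * ‖F (row s, g)‖ ^ 2 ≤ Lv row col st F (some s) (row s) j g := by
  induction j generalizing s g with
  | zero =>
    rw [Lv_zero]
    exact (mul_le_mul_of_nonneg_right (h1 s) (sq_nonneg _)).trans (by rw [one_mul])
  | succ j ih =>
    rw [Lv_succ]
    refine (mul_le_mul_of_nonneg_right (hs s) (sq_nonneg _)).trans ?_
    rw [sum_mul]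
    refine sum_le_sum fun t ht => ?_
    have hrow : row t = row s := ((mem_filter.1 ht).2).1
    by_cases h0 : c s t = 0
    · rw [h0, zero_mul]
      exact sum_nonneg fun u _ => Lv_nonneg _ _ _ _
    · obtain ⟨h2, h3⟩ := hc s t h0
      rw [← hrow]
      exact step' hE t j h h2 (fun u _ g => ih u g) _ h3 (ha t) g

theorem pot_root (hE : Eqn row col st F a) (ha : ∀ t, a t ≠ 0) (h : T → ℝ) (h1 : ∀ s, h s ≤ 1)
    (c : T → T → ℝ)
    (hc : ∀ s t, c s t ≠ 0 → (∀ u ∈ nb col t, 0 < h u) ∧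
      c s t * (∑ u ∈ nb col t, ‖a u‖ ^ 2 / h u) ≤ ‖a t‖ ^ 2)
    (hs : ∀ s, h s ≤ ∑ t ∈ nx row (some s) (row s), c s t) (i : R) (c' : T → ℝ)
    (hc' : ∀ t, c' t ≠ 0 → (∀ u ∈ nb col t, 0 < h u) ∧
      c' t * (∑ u ∈ nb col t, ‖a u‖ ^ 2 / h u) ≤ ‖a t‖ ^ 2)
    (hr : 1 ≤ ∑ t ∈ nx row none i, c' t) (j : ℕ) (g : G) :
    ‖F (i, g)‖ ^ 2 ≤ Lv row col st F none i j g := by
  cases j with
  | zero => rw [Lv_zero]
  | succ j =>
    rw [Lv_succ]
    have h4 : ‖F (i, g)‖ ^ 2 ≤ (∑ t ∈ nx row none i, c' t) * ‖F (i, g)‖ ^ 2 := by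
      have := mul_le_mul_of_nonneg_right hr (sq_nonneg ‖F (i, g)‖)
      rwa [one_mul] at this
    refine h4.trans ?_
    rw [sum_mul]
    refine sum_le_sum fun t ht => ?_
    have hrow : row t = i := ((mem_filter.1 ht).2).1
    by_cases h0 : c' t = 0
    · rw [h0, zero_mul]
      exact sum_nonneg fun u _ => Lv_nonneg _ _ _ _
    · obtain ⟨h2, h3⟩ := hc' t h0
      rw [← hrow]
      exact step' hE t j h h2 (fun u _ g => pot hE ha h h1 c hc hs j u g) _ h3 (ha t) g

/-- equal absolute values, `r` terms in each row and `c` terms in each column -/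
theorem unif (hE : Eqn row col st F a) (ω : ℝ) (hω : 0 < ω) (ha : ∀ t, ‖a t‖ = ω) (r c : ℕ)
    (hr : ∀ s, (nx row (some s) (row s)).card + 1 = r) (hc : ∀ t, (nb col t).card + 1 = c)
    (hc2 : 2 ≤ c) (j : ℕ) (s : T) (g : G) :
    (((r : ℝ) - 1) / (c - 1)) ^ j * ‖F (row s, g)‖ ^ 2
      ≤ Lv row col st F (some s) (row s) j g := by
  have hc0 : (0 : ℝ) < c - 1 := by
    have : (2 : ℝ) ≤ c := by exact_mod_cast hc2
    linarith
  have hr1 : 1 ≤ r := by rw [← hr s]; omega
  have hr0 : (0 : ℝ) ≤ r - 1 := by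
    have : (1 : ℝ) ≤ r := by exact_mod_cast hr1
    linarith
  set ρ : ℝ := ((r : ℝ) - 1) / (c - 1) with hρ
  have hρ0 : 0 ≤ ρ := div_nonneg hr0 hc0.le
  induction j generalizing s g with
  | zero => rw [Lv_zero, pow_zero, one_mul]
  | succ j ih =>
    rw [Lv_succ]
    by_cases h0 : ρ = 0
    · rw [h0, zero_pow (Nat.succ_ne_zero j), zero_mul]
      exact sum_nonneg fun t _ => sum_nonneg fun u _ => Lv_nonneg _ _ _ _
    · have hρ1 : 0 < ρ := lt_of_le_of_ne hρ0 (Ne.symm h0)
      have key : ∀ t, row t = row s → ρ ^ j / (c - 1) * ‖F (row s, g)‖ ^ 2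
          ≤ ∑ u ∈ nb col t, Lv row col st F (some u) (row u) j (st t u g) := by
        intro t ht
        rw [← ht]
        refine step' hE t j (fun _ => ρ ^ j) (fun _ _ => pow_pos hρ1 j)
          (fun u _ g => ih u g) _ ?_ (by
            intro h; have := ha t; rw [h, norm_zero] at this; exact hω.ne this) g
        rw [sum_congr rfl (fun u _ => by rw [ha u]), sum_const, nsmul_eq_mul, ha t]
        have h1 : ((nb col t).card : ℝ) = c - 1 := by
          rw [← hc t]; push_cast; ring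
        rw [h1]
        have h2 : ρ ^ j ≠ 0 := (pow_pos hρ1 j).ne'
        apply le_of_eq
        field_simp
      have h3 : ρ ^ (j + 1) * ‖F (row s, g)‖ ^ 2
          = ∑ t ∈ nx row (some s) (row s), ρ ^ j / (c - 1) * ‖F (row s, g)‖ ^ 2 := by
        rw [sum_const, nsmul_eq_mul]
        have h1 : ((nx row (some s) (row s)).card : ℝ) = r - 1 := by
          rw [← hr s]; push_cast; ring
        rw [h1, pow_succ]
        have h4 : ρ = (r - 1) / (c - 1) := hρ
        conv_lhs => rw [mul_comm (ρ ^ j) ρ]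
        nth_rewrite 1 [h4]
        ring
      rw [h3]
      exact sum_le_sum fun t ht => key t ((mem_filter.1 ht).2).1

theorem unif_root (hE : Eqn row col st F a) (ω : ℝ) (hω : 0 < ω) (ha : ∀ t, ‖a t‖ = ω) (r c : ℕ)
    (hr : ∀ s, (nx row (some s) (row s)).card + 1 = r) (hc : ∀ t, (nb col t).card + 1 = c)
    (hc2 : 2 ≤ c) (i : R) (hi : (nx row none i).card = r) (j : ℕ) (g : G) :
    ((r : ℝ) / (c - 1)) * (((r : ℝ) - 1) / (c - 1)) ^ j * ‖F (i, g)‖ ^ 2
      ≤ Lv row col st F none i (j + 1) g := by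
  have hc0 : (0 : ℝ) < c - 1 := by
    have : (2 : ℝ) ≤ c := by exact_mod_cast hc2
    linarith
  rw [Lv_succ]
  set ρ : ℝ := ((r : ℝ) - 1) / (c - 1) with hρ
  have key : ∀ t, row t = i → ρ ^ j / (c - 1) * ‖F (i, g)‖ ^ 2
      ≤ ∑ u ∈ nb col t, Lv row col st F (some u) (row u) j (st t u g) := by
    intro t ht
    have hr1 : 1 ≤ r := by rw [← hr t]; omega
    have hr0 : (0 : ℝ) ≤ r - 1 := by
      have : (1 : ℝ) ≤ r := by exact_mod_cast hr1
      linarith
    have hρ0 : 0 ≤ ρ := div_nonneg hr0 hc0.le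
    by_cases h0 : ρ ^ j = 0
    · rw [h0, zero_div, zero_mul]
      exact sum_nonneg fun u _ => Lv_nonneg _ _ _ _
    · have hρ1 : 0 < ρ ^ j := lt_of_le_of_ne (pow_nonneg hρ0 j) (Ne.symm h0)
      rw [← ht]
      refine step' hE t j (fun _ => ρ ^ j) (fun _ _ => hρ1)
        (fun u _ g => unif hE ω hω ha r c hr hc hc2 j u g) _ ?_ (by
          intro h; have := ha t; rw [h, norm_zero] at this; exact hω.ne this) g
      rw [sum_congr rfl (fun u _ => by rw [ha u]), sum_const, nsmul_eq_mul, ha t]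
      have h1 : ((nb col t).card : ℝ) = c - 1 := by
        rw [← hc t]; push_cast; ring
      rw [h1]
      apply le_of_eq
      field_simp
  have h3 : ((r : ℝ) / (c - 1)) * ρ ^ j * ‖F (i, g)‖ ^ 2
      = ∑ t ∈ nx row none i, ρ ^ j / (c - 1) * ‖F (i, g)‖ ^ 2 := by
    rw [sum_const, nsmul_eq_mul, hi]
    ring
  rw [h3]
  exact sum_le_sum fun t ht => key t ((mem_filter.1 ht).2).1

end

/-- arbitrary coefficients, one row and one column: all levels have energy at least one -/
theorem one_le {T G : Type*} [Fintype T] [DecidableEq T] (st : T → T → G → G)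
    (F : Unit × G → ℂ) (a : T → ℂ) (hE : Eqn (fun _ => ()) (fun _ : T => ()) st F a)
    (ha : ∀ t, a t ≠ 0) (hcard : 2 ≤ Fintype.card T)
    (hq : ∀ (w : T → ℝ), (∀ t, 0 < w t) → ∀ m : T, (∀ t, w t ≤ w m) →
      w m < ∑ t ∈ univ.erase m, w t →
      ∃ (q : T → ℝ) (μ : ℝ), 0 < μ ∧ (∀ t, 0 < q t) ∧ (∀ t, q t < 1) ∧ ∑ t, q t = 1 ∧
      ∀ t, w t = μ * (q t * (1 - q t))) (j : ℕ) (g : G) :
    ‖F ((), g)‖ ^ 2 ≤ Lv (fun _ => ()) (fun _ : T => ()) st F none () j g := by
  have hnb : ∀ t : T, nb (fun _ : T => ()) t = univ.erase t := by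
    intro t
    ext u
    simp [nb]
  have hnx : ∀ s : T, nx (fun _ : T => ()) (some s) () = univ.erase s := by
    intro s
    ext u
    simp [nx, eq_comm]
  have hnx0 : nx (fun _ : T => ()) none () = univ := by
    ext u
    simp [nx]
  have hwpos : ∀ t, 0 < ‖a t‖ ^ 2 := fun t => by
    have := norm_pos_iff.2 (ha t); positivity
  have : Nonempty T := Fintype.card_pos_iff.1 (by omega)
  obtain ⟨m, hm⟩ := Finite.exists_max (fun t => ‖a t‖ ^ 2)
  by_cases hd : ‖a m‖ ^ 2 < ∑ t ∈ univ.erase m, ‖a t‖ ^ 2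
  · obtain ⟨q, μ, hμ, hq0, hq1, hqs, hqw⟩ := hq (fun t => ‖a t‖ ^ 2) hwpos m hm hd
    have hcomp : ∀ t, ∑ u ∈ nb (fun _ : T => ()) t, ‖a u‖ ^ 2 / (1 - q u) = μ * (1 - q t) := by
      intro t
      have h1 : ∀ u, ‖a u‖ ^ 2 / (1 - q u) = μ * q u := by
        intro u
        have h2 : 1 - q u ≠ 0 := by have := hq1 u; linarith
        rw [div_eq_iff h2, hqw u]; ring
      rw [hnb, sum_congr rfl fun u _ => h1 u, ← mul_sum, ← hqs, ← add_sum_erase _ _ (mem_univ t)]
      ring
    have hcond : ∀ t : T, (∀ u ∈ nb (fun _ : T => ()) t, 0 < 1 - q u) ∧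
        q t * (∑ u ∈ nb (fun _ : T => ()) t, ‖a u‖ ^ 2 / (1 - q u)) ≤ ‖a t‖ ^ 2 := by
      intro t
      refine ⟨fun u _ => by have := hq1 u; linarith, ?_⟩
      rw [hcomp, hqw t]
      apply le_of_eq; ring
    refine pot_root hE ha (fun t => 1 - q t) (fun t => by have := hq0 t; linarith)
      (fun _ t => q t) (fun s t _ => hcond t) ?_ () q (fun t _ => hcond t) ?_ j g
    · intro s
      rw [hnx, ← hqs, ← add_sum_erase _ _ (mem_univ s)]
      apply le_of_eq; ring
    · rw [hnx0, hqs]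
  · push Not at hd
    have hcond : (∀ u ∈ nb (fun _ : T => ()) m, (0 : ℝ) < if u = m then 0 else 1) ∧
        1 * (∑ u ∈ nb (fun _ : T => ()) m, ‖a u‖ ^ 2 / (if u = m then 0 else 1)) ≤ ‖a m‖ ^ 2 := by
      rw [hnb]
      refine ⟨fun u hu => ?_, ?_⟩
      · rw [if_neg (ne_of_mem_erase hu)]; exact one_pos
      · rw [one_mul, sum_congr rfl (fun u hu => by rw [if_neg (ne_of_mem_erase hu), div_one])]
        exact hd
    refine pot_root hE ha (fun u => if u = m then 0 else 1) ?_
      (fun s t => if s ≠ m ∧ t = m then 1 else 0) ?_ ?_ () (fun t => if t = m then 1 else 0)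
      ?_ ?_ j g
    · intro s
      split_ifs <;> norm_num
    · intro s t hne
      have h1 : s ≠ m ∧ t = m := by
        by_contra h
        rw [if_neg h] at hne
        exact hne rfl
      obtain ⟨h1, rfl⟩ := h1
      simp only [ne_eq, h1, not_false_eq_true, and_self, if_true]
      exact hcond
    · intro s
      rw [hnx]
      split_ifs with h
      · exact sum_nonneg fun t _ => by split_ifs <;> norm_num
      · rw [sum_eq_single m]
        · simp [h]
        · intro b _ hb
          simp [hb]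
        · intro hm'
          exact absurd (mem_erase.2 ⟨fun h' => h h'.symm, mem_univ m⟩) hm'
    · intro t hne
      have h1 : t = m := by
        by_contra h
        rw [if_neg h] at hne
        exact hne rfl
      subst h1
      simp only [if_true]
      exact hcond
    · rw [hnx0]
      simp

/-- existence of the potential for a list of weights none of which dominates the others -/
theorem exists_q {T : Type*} [Fintype T] [DecidableEq T] (w : T → ℝ) (hw : ∀ t, 0 < w t) (m : T)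
    (hm : ∀ t, w t ≤ w m) (hd : w m < ∑ t ∈ univ.erase m, w t) :
    ∃ (q : T → ℝ) (μ : ℝ), 0 < μ ∧ (∀ t, 0 < q t) ∧ (∀ t, q t < 1) ∧ ∑ t, q t = 1 ∧
      ∀ t, w t = μ * (q t * (1 - q t)) := by
  set ρ : T → ℝ := fun t => w t / w m with hρ
  have hρ0 : ∀ t, 0 < ρ t := fun t => div_pos (hw t) (hw m)
  have hρ1 : ∀ t, ρ t ≤ 1 := fun t => (div_le_one (hw m)).2 (hm t)
  set W1 := ∑ t ∈ univ.erase m, ρ t with hW
  have hW1 : 1 < W1 := by
    rw [hW, ← sum_div, one_lt_div (hw m)]
    exact hd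
  let Q : ℝ → T → ℝ := fun z t => (1 - Real.sqrt (1 - 4 * (ρ t * (z * (1 - z))))) / 2
  let f : ℝ → ℝ := fun z => z + ∑ t ∈ univ.erase m, Q z t
  have hcont : Continuous f := by
    refine continuous_id.add (continuous_finsetSum _ fun t _ => ?_)
    fun_prop
  have hz4 : ∀ z : ℝ, 4 * (z * (1 - z)) ≤ 1 := fun z => by nlinarith [sq_nonneg (2 * z - 1)]
  have hx4 : ∀ z : ℝ, 0 ≤ z → z ≤ 1 → ∀ t, 0 ≤ ρ t * (z * (1 - z)) ∧
      4 * (ρ t * (z * (1 - z))) ≤ 1 := by
    intro z h0 h1 t
    have h2 : 0 ≤ z * (1 - z) := mul_nonneg h0 (by linarith)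
    refine ⟨mul_nonneg (hρ0 t).le h2, ?_⟩
    have h3 : ρ t * (z * (1 - z)) ≤ z * (1 - z) := by
      have := mul_le_mul_of_nonneg_right (hρ1 t) h2
      rwa [one_mul] at this
    linarith [hz4 z]
  have hQge : ∀ x : ℝ, 0 ≤ x → 4 * x ≤ 1 → x ≤ (1 - Real.sqrt (1 - 4 * x)) / 2 := by
    intro x h0 h1
    have h2 : Real.sqrt (1 - 4 * x) ≤ 1 - 2 * x := by
      rw [Real.sqrt_le_left (by linarith)]
      nlinarith [sq_nonneg x]
    linarith
  set z1 : ℝ := 1 / W1 with hz1
  have hz10 : 0 < z1 := by positivity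
  have hz11 : z1 < 1 := by
    rw [hz1, div_lt_one (by linarith)]
    exact hW1
  have hf0 : f 0 = 0 := by
    simp only [f, Q]
    simp
  have hf1 : 1 ≤ f z1 := by
    have h1 : ∑ t ∈ univ.erase m, ρ t * (z1 * (1 - z1)) ≤ ∑ t ∈ univ.erase m, Q z1 t :=
      sum_le_sum fun t _ => hQge _ (hx4 z1 hz10.le hz11.le t).1 (hx4 z1 hz10.le hz11.le t).2
    rw [← sum_mul, ← hW] at h1
    have h2 : W1 * (z1 * (1 - z1)) = 1 - z1 := by
      rw [hz1]
      have : W1 ≠ 0 := by linarith
      field_simp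
    simp only [f]
    linarith
  obtain ⟨z, ⟨hz0, hz1'⟩, hfz⟩ := intermediate_value_Icc hz10.le hcont.continuousOn
    (show (1 : ℝ) ∈ Set.Icc (f 0) (f z1) by rw [hf0]; exact ⟨zero_le_one, hf1⟩)
  have hzpos : 0 < z := by
    rcases hz0.eq_or_lt with h | h
    · rw [← h, hf0] at hfz
      exact absurd hfz zero_ne_one
    · exact h
  have hzlt : z < 1 := lt_of_le_of_lt hz1' hz11
  let q : T → ℝ := fun t => if t = m then z else Q z t
  have hzz : 0 < z * (1 - z) := mul_pos hzpos (by linarith)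
  have hz1ne : 1 - z ≠ 0 := by linarith
  have hzne : z ≠ 0 := hzpos.ne'
  refine ⟨q, w m / (z * (1 - z)), div_pos (hw m) hzz, ?_, ?_, ?_, ?_⟩
  · intro t
    simp only [q]
    split_ifs with h
    · exact hzpos
    · exact lt_of_lt_of_le (mul_pos (hρ0 t) hzz) (hQge _ (hx4 z hzpos.le hzlt.le t).1
        (hx4 z hzpos.le hzlt.le t).2)
  · intro t
    simp only [q]
    split_ifs with h
    · exact hzlt
    · have := Real.sqrt_nonneg (1 - 4 * (ρ t * (z * (1 - z))))
      simp only [Q]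
      linarith
  · rw [← add_sum_erase _ _ (mem_univ m)]
    simp only [q, if_true]
    rw [← hfz]
    simp only [f]
    congr 1
    refine sum_congr rfl fun t ht => ?_
    rw [if_neg (ne_of_mem_erase ht)]
  · intro t
    simp only [q]
    split_ifs with h
    · rw [h]; field_simp
    · have h1 := Real.sq_sqrt (show 0 ≤ 1 - 4 * (ρ t * (z * (1 - z))) by
        linarith [(hx4 z hzpos.le hzlt.le t).2])
      have h2 : Q z t * (1 - Q z t) = ρ t * (z * (1 - z)) := by
        simp only [Q]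
        nlinarith
      rw [h2, hρ]
      have := (hw m).ne'
      field_simp

end Pool.Agent.Q91.TE
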