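import Pool.Agent.Q91.TE.Face

set_option autoImplicit false
set_option linter.unusedSectionVars false

/-! Potentials for the assignment problem, and tropically nonsingular matrices over group
algebras. -/

namespace Pool.Agent.Q91.TE

open Pool.Agent.W649.ZL Finset

universe u

/-- Optimal potentials for the assignment problem. -/
theorem potentials {n : ℕ} (D : Fin n → Fin n → Prop) (w : Fin n → Fin n → ℤ)
    (σ : Equiv.Perm (Fin n)) (hσ : ∀ i, D i (σ i)) :
    ∃ (r c : Fin n → ℤ) (τ : Equiv.Perm (Fin n)), (∀ i j, D i j → c j ≤ w i j + r i) ∧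
      ∀ i, D i (τ i) ∧ w i (τ i) + r i = c (τ i) := by
  classical
  let P : ℤ → Prop := fun z => ∃ r c : Fin n → ℤ, (∀ i j, D i j → c j ≤ w i j + r i) ∧
    ∑ j, c j - ∑ i, r i = z
  have hbdd : ∃ b, ∀ z, P z → z ≤ b := by
    refine ⟨∑ i, w i (σ i), ?_⟩
    rintro z ⟨r, c, h, rfl⟩
    have h1 : ∑ j, c j = ∑ i, c (σ i) := (Equiv.sum_comp σ c).symm
    have h2 : ∑ i, c (σ i) ≤ ∑ i, (w i (σ i) + r i) := sum_le_sum fun i _ => h i (σ i) (hσ i)
    rw [sum_add_distrib] at h2
    omega
  have hinh : ∃ z, P z := by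
    refine ⟨_, fun _ => ∑ i, ∑ j, |w i j|, fun _ => 0, fun i j _ => ?_, rfl⟩
    have h1 : |w i j| ≤ ∑ i, ∑ j, |w i j| := by
      have h2 : |w i j| ≤ ∑ j, |w i j| :=
        single_le_sum (f := fun j => |w i j|) (fun _ _ => abs_nonneg _) (mem_univ j)
      exact h2.trans (single_le_sum (f := fun i => ∑ j, |w i j|)
        (fun _ _ => sum_nonneg fun _ _ => abs_nonneg _) (mem_univ i))
    have h3 := neg_abs_le (w i j)
    change (0 : ℤ) ≤ w i j + ∑ i, ∑ j, |w i j|
    omega
  obtain ⟨z, ⟨r, c, hfeas, hz⟩, hmax⟩ := Int.exists_greatest_of_bdd hbdd hinh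
  let N : Fin n → Finset (Fin n) := fun i => univ.filter fun j => D i j ∧ w i j + r i = c j
  have hall : ∀ S : Finset (Fin n), S.card ≤ (S.biUnion N).card := by
    intro S
    by_contra hcon
    push Not at hcon
    have h1 : P (z + ((S.card : ℤ) - (S.biUnion N).card)) := by
      refine ⟨fun i => r i - (if i ∈ S then 1 else 0),
        fun j => c j - (if j ∈ S.biUnion N then 1 else 0), ?_, ?_⟩
      · intro i j hD
        have h2 := hfeas i j hD
        by_cases hi : i ∈ S
        · by_cases hj : j ∈ S.biUnion N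
          · simp only [hi, hj, if_true]
            omega
          · have h3 : w i j + r i ≠ c j := by
              intro h4
              exact hj (mem_biUnion.2 ⟨i, hi, mem_filter.2 ⟨mem_univ j, hD, h4⟩⟩)
            simp only [hi, hj, if_true, if_false]
            omega
        · simp only [hi, if_false]
          split_ifs <;> omega
      · rw [sum_sub_distrib, sum_sub_distrib, ← hz]
        simp only [sum_ite_mem, univ_inter, sum_const, nsmul_eq_mul, mul_one]
        ring
    have h2 := hmax _ h1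
    omega
  obtain ⟨f, hf, hfN⟩ := (all_card_le_biUnion_card_iff_exists_injective N).1 hall
  refine ⟨r, c, Equiv.ofBijective f (Finite.injective_iff_bijective.1 hf), hfeas, fun i => ?_⟩
  exact (mem_filter.1 (hfN i)).2

/-- Potentials which single out the unique optimal permutation. -/
theorem strict {n : ℕ} (D : Fin n → Fin n → Prop) (v : Fin n → Fin n → ℤ)
    (σ : Equiv.Perm (Fin n)) (hσ : ∀ i, D i (σ i))
    (hmin : ∀ τ : Equiv.Perm (Fin n), τ ≠ σ → (∀ i, D i (τ i)) →
      ∑ i, v i (σ i) < ∑ i, v i (τ i)) :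
    ∃ (N : ℕ) (r c : Fin n → ℤ), 0 < N ∧ (∀ i, N * v i (σ i) + r i = c (σ i)) ∧
      ∀ i j, D i j → j ≠ σ i → c j < N * v i j + r i := by
  classical
  obtain ⟨r, c, τ, h1, h2⟩ := potentials D
    (fun i j => ((n + 1 : ℕ) : ℤ) * v i j + if j = σ i then 1 else 0) σ hσ
  have hτ : τ = σ := by
    by_contra hne
    have h3 := hmin τ hne fun i => (h2 i).1
    have h4 : ∑ i, (((n + 1 : ℕ) : ℤ) * v i (τ i) + if τ i = σ i then 1 else 0)
        = ∑ j, c j - ∑ i, r i := by
      have h5 : ∑ j, c j = ∑ i, c (τ i) := (Equiv.sum_comp τ c).symm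
      rw [h5, ← sum_sub_distrib]
      refine sum_congr rfl fun i _ => ?_
      have := (h2 i).2
      omega
    have h6 : ∑ j, c j - ∑ i, r i
        ≤ ∑ i, (((n + 1 : ℕ) : ℤ) * v i (σ i) + if σ i = σ i then 1 else 0) := by
      have h5 : ∑ j, c j = ∑ i, c (σ i) := (Equiv.sum_comp σ c).symm
      rw [h5, ← sum_sub_distrib]
      refine sum_le_sum fun i _ => ?_
      have := h1 i (σ i) (hσ i)
      omega
    rw [← h4, sum_add_distrib, sum_add_distrib, ← mul_sum, ← mul_sum] at h6
    have h7 : (0 : ℤ) ≤ ∑ i, (if τ i = σ i then (1 : ℤ) else 0) :=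
      sum_nonneg fun i _ => by split_ifs <;> norm_num
    have h8 : ∑ i : Fin n, (if σ i = σ i then (1 : ℤ) else 0) = n := by simp
    rw [h8] at h6
    have h9 : ((n + 1 : ℕ) : ℤ) * (∑ i, v i (σ i) + 1) ≤ ((n + 1 : ℕ) : ℤ) * ∑ i, v i (τ i) :=
      mul_le_mul_of_nonneg_left (by omega) (by positivity)
    push_cast at h6 h9
    linarith
  subst hτ
  refine ⟨n + 1, r, fun j => c j - 1, Nat.succ_pos n, fun i => ?_, fun i j hD hne => ?_⟩
  · have := (h2 i).2
    simp only [if_true] at this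
    change _ = c (τ i) - 1
    omega
  · change c j - 1 < _
    have := h1 i j hD
    simp only [if_neg hne, add_zero] at this
    omega

section
variable {G : Type u} [Group G] {n : ℕ}

open Classical in
/-- **Tropically nonsingular matrices**, reduction to the initial parts. -/
theorem trop (A : Fin n → Fin n → (G →₀ ℂ)) (K : Subgroup G) (φ : K →* Multiplicative ℤ)
    (x y : Fin n → G) (hK : ∀ i j, ∀ t ∈ (A i j).support, x i * t * (y j)⁻¹ ∈ K)
    (v : Fin n → Fin n → ℤ)
    (hv : ∀ i j t (ht : t ∈ (A i j).support),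
      v i j ≤ Multiplicative.toAdd (φ ⟨x i * t * (y j)⁻¹, hK i j t ht⟩))
    (σ : Equiv.Perm (Fin n)) (hσ : ∀ i, A i (σ i) ≠ 0)
    (hmin : ∀ τ : Equiv.Perm (Fin n), τ ≠ σ → (∀ i, A i (τ i) ≠ 0) →
      ∑ i, v i (σ i) < ∑ i, v i (τ i)) :
    kerDimM A ≤ kerDimM (fun i j => if j = σ i then (A i j).filter fun t =>
      ∃ h : x i * t * (y j)⁻¹ ∈ K, Multiplicative.toAdd (φ ⟨x i * t * (y j)⁻¹, h⟩) = v i j
      else 0) := by
  obtain ⟨N, r, c, hN, h1, h2⟩ := strict (fun i j => A i j ≠ 0) v σ hσ hmin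
  have hNN : (0 : ℤ) < N := by exact_mod_cast hN
  have hpow : ∀ κ : K, Multiplicative.toAdd ((φ ^ N) κ) = N * Multiplicative.toAdd (φ κ) := by
    intro κ
    rw [MonoidHom.pow_apply, toAdd_pow, nsmul_eq_mul]
  have hne : ∀ i j t, t ∈ (A i j).support → A i j ≠ 0 := by
    intro i j t ht h0
    rw [h0] at ht
    simp at ht
  have key := faceM A K (φ ^ N) x y r c hK (by
    intro i j t ht
    rw [hpow]
    have h3 := hv i j t ht
    have h4 : (N : ℤ) * v i j
        ≤ N * Multiplicative.toAdd (φ ⟨x i * t * (y j)⁻¹, hK i j t ht⟩) :=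
      mul_le_mul_of_nonneg_left h3 hNN.le
    by_cases hj : j = σ i
    · subst hj
      have := h1 i
      omega
    · have := h2 i j (hne i j t ht) hj
      omega)
  refine key.trans (le_of_eq ?_)
  congr 1
  funext i j
  by_cases hj : j = σ i
  · rw [if_pos hj]
    subst hj
    ext t
    rw [Finsupp.filter_apply, Finsupp.filter_apply]
    have hiff : (∃ h : x i * t * (y (σ i))⁻¹ ∈ K,
        Multiplicative.toAdd ((φ ^ N) ⟨x i * t * (y (σ i))⁻¹, h⟩) + r i = c (σ i)) ↔
        ∃ h : x i * t * (y (σ i))⁻¹ ∈ K,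
          Multiplicative.toAdd (φ ⟨x i * t * (y (σ i))⁻¹, h⟩) = v i (σ i) := by
      have h3 := h1 i
      constructor
      · rintro ⟨h, h4⟩
        rw [hpow] at h4
        refine ⟨h, ?_⟩
        have h5 : (N : ℤ) * Multiplicative.toAdd (φ ⟨x i * t * (y (σ i))⁻¹, h⟩)
            = N * v i (σ i) := by omega
        exact mul_left_cancel₀ hNN.ne' h5
      · rintro ⟨h, h4⟩
        refine ⟨h, ?_⟩
        rw [hpow, h4]
        exact h3
    by_cases hh : ∃ h : x i * t * (y (σ i))⁻¹ ∈ K,
        Multiplicative.toAdd (φ ⟨x i * t * (y (σ i))⁻¹, h⟩) = v i (σ i)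
    · rw [if_pos hh, if_pos (hiff.2 hh)]
    · rw [if_neg hh, if_neg (fun h => hh (hiff.1 h))]
  · rw [if_neg hj]
    ext t
    rw [Finsupp.filter_apply]
    by_cases h0 : A i j t = 0
    · rw [h0]
      split_ifs <;> rfl
    · rw [if_neg]
      · rfl
      · rintro ⟨h, h4⟩
        rw [hpow] at h4
        have ht : t ∈ (A i j).support := Finsupp.mem_support_iff.2 h0
        have h3 := hv i j t ht
        have h5 : (N : ℤ) * v i j ≤ N * Multiplicative.toAdd (φ ⟨x i * t * (y j)⁻¹, h⟩) :=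
          mul_le_mul_of_nonneg_left h3 hNN.le
        have := h2 i j (hne i j t ht) hj
        omega

end

end Pool.Agent.Q91.TE
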